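import Mathlib
import Pool.Agent.Work.CM.Bas
import Pool.Agent.Work.CM.Hom
import Pool.Agent.Work.MP_a5099b_nt.Defs

/-!
Block H (the primes `l` for which the number of self isogenies is odd): definitions and basic
facts (proved, fixed).
-/

set_option autoImplicit false

namespace Pool.Agent.SS.HB

open Polynomial
open Pool.Agent.Work.CM
open scoped Pointwise

noncomputable section

/-- The covolume of a lattice. -/
def cov (L : Submodule ℤ ℂ) : ℝ := ZLattice.covolume L MeasureTheory.volume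

/-- `μ` is a multiplier of `L`. -/
def IsMul (L : Submodule ℤ ℂ) (μ : ℂ) : Prop := ∀ z ∈ L, μ * z ∈ L

/-- The numbers `x` with `x L ⊆ M`. -/
def homL (L M : Submodule ℤ ℂ) : Submodule ℤ ℂ where
  carrier := {x | ∀ z ∈ L, x * z ∈ M}
  add_mem' := fun hx hy z hz => by rw [add_mul]; exact M.add_mem (hx z hz) (hy z hz)
  zero_mem' := fun z _ => by rw [zero_mul]; exact M.zero_mem
  smul_mem' := fun n x hx z hz => by rw [smul_mul_assoc]; exact M.smul_mem n (hx z hz)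

theorem mem_homL {L M : Submodule ℤ ℂ} {x : ℂ} : x ∈ homL L M ↔ ∀ z ∈ L, x * z ∈ M := Iff.rfl

/-- The image of the superlattice `L'` of `L` under the involution given by `√(-q)`. -/
def tau (q : ℕ) (L L' : Submodule ℤ ℂ) : Submodule ℤ ℂ := L ⊔ sq q • L'

/-- `z` is an algebraic integer with image `y` under the reduction `red`. -/
def RedTo {k : Type} [Field k] (red : integralClosure ℤ ℂ →+* k) (z : ℂ) (y : k) : Prop :=
  ∃ h : z ∈ integralClosure ℤ ℂ, red ⟨z, h⟩ = y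

theorem sq_mul_self (q : ℕ) : sq q * sq q = -(q : ℂ) := by
  have h : ((Real.sqrt q : ℝ) : ℂ) * ((Real.sqrt q : ℝ) : ℂ) = (q : ℂ) := by
    rw [← Complex.ofReal_mul, Real.mul_self_sqrt (Nat.cast_nonneg q)]
    simp
  unfold sq
  calc Complex.I * (Real.sqrt q : ℂ) * (Complex.I * (Real.sqrt q : ℂ))
      = (Complex.I * Complex.I) * ((Real.sqrt q : ℂ) * (Real.sqrt q : ℂ)) := by ring
    _ = -(q : ℂ) := by rw [Complex.I_mul_I, h]; ring

theorem sq_re (q : ℕ) : (sq q).re = 0 := by simp [sq]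

theorem sq_im (q : ℕ) : (sq q).im = Real.sqrt q := by simp [sq]

theorem conj_sq (q : ℕ) : starRingEnd ℂ (sq q) = -sq q := by
  apply Complex.ext
  · simp [sq_re]
  · simp

theorem norm_sq (q : ℕ) : ‖sq q‖ ^ 2 = q := by
  have h : ‖sq q * sq q‖ = q := by rw [sq_mul_self, norm_neg, Complex.norm_natCast]
  rw [norm_mul] at h
  rw [_root_.sq]
  exact h

theorem sq_ne_zero {q : ℕ} (hq : 0 < q) : sq q ≠ 0 := by
  intro h
  have h1 := norm_sq q
  rw [h, norm_zero] at h1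
  have : (q : ℝ) = 0 := by rw [← h1]; norm_num
  have : q = 0 := by exact_mod_cast this
  omega

theorem hasSq_iff {q : ℕ} {L : Submodule ℤ ℂ} : HasSq q L ↔ IsMul L (sq q) := Iff.rfl

theorem IsMul.add {L : Submodule ℤ ℂ} {μ ν : ℂ} (h : IsMul L μ) (h' : IsMul L ν) :
    IsMul L (μ + ν) := fun z hz => by rw [add_mul]; exact L.add_mem (h z hz) (h' z hz)

theorem IsMul.sub {L : Submodule ℤ ℂ} {μ ν : ℂ} (h : IsMul L μ) (h' : IsMul L ν) :
    IsMul L (μ - ν) := fun z hz => by rw [sub_mul]; exact L.sub_mem (h z hz) (h' z hz)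

theorem IsMul.neg {L : Submodule ℤ ℂ} {μ : ℂ} (h : IsMul L μ) : IsMul L (-μ) :=
  fun z hz => by rw [neg_mul]; exact L.neg_mem (h z hz)

theorem IsMul.mul {L : Submodule ℤ ℂ} {μ ν : ℂ} (h : IsMul L μ) (h' : IsMul L ν) :
    IsMul L (μ * ν) := fun z hz => by rw [mul_assoc]; exact h _ (h' z hz)

theorem IsMul.int (L : Submodule ℤ ℂ) (n : ℤ) : IsMul L n := fun z hz => by
  rw [← zsmul_eq_mul]; exact L.smul_mem n hz

theorem IsMul.smul {L : Submodule ℤ ℂ} {μ : ℂ} (h : IsMul L μ) {c : ℂ} (hc : c ≠ 0) :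
    IsMul (c • L) μ := by
  intro z hz
  have e : z = c * (c⁻¹ * z) := by field_simp
  have h1 : c⁻¹ * z ∈ L := by
    rw [e] at hz
    exact (mem_smul_iff hc).1 hz
  have h2 := h _ h1
  have e2 : μ * z = c * (μ * (c⁻¹ * z)) := by field_simp
  rw [e2]
  exact (mem_smul_iff hc).2 h2

theorem mem_smul' {L : Submodule ℤ ℂ} {c z : ℂ} (hc : c ≠ 0) : z ∈ c • L ↔ c⁻¹ * z ∈ L := by
  have e : z = c * (c⁻¹ * z) := by field_simp
  conv_lhs => rw [e]
  exact mem_smul_iff hc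

theorem mem_tau {q : ℕ} (hq : 0 < q) {L L' : Submodule ℤ ℂ} {z : ℂ} :
    z ∈ tau q L L' ↔ ∃ a ∈ L, ∃ b ∈ L', z = a + sq q * b := by
  unfold tau
  rw [Submodule.mem_sup]
  constructor
  · rintro ⟨a, ha, b, hb, rfl⟩
    refine ⟨a, ha, (sq q)⁻¹ * b, (mem_smul' (sq_ne_zero hq)).1 hb, ?_⟩
    have := sq_ne_zero hq
    field_simp
  · rintro ⟨a, ha, b, hb, rfl⟩
    exact ⟨a, ha, sq q * b, (mem_smul_iff (sq_ne_zero hq)).2 hb, rfl⟩

end

end Pool.Agent.SS.HB
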