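import Mathlib
import Pool.Agent.Work.MP_a5099b_nt.H.HDefs

/-!
# Module Bas (size M): bases of lattices

* `exists_basis`: from `IsLat L` take the period pair `P`; `P.lattice` is the span of `P.ω₁, P.ω₂`
  (`PeriodPair.lattice`, `Submodule.mem_span_pair`); the imaginary part of `conj w₁ * w₂` is not zero by the linear
  independence over the reals (if it is zero then `‖w₁‖² w₂ = (conj w₁ w₂) w₁` is a real multiple of `w₁`); swap
  the two periods if it is negative (`conj w₂ * w₁ = conj (conj w₁ * w₂)`).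
* `isLat_of_basis`: the two numbers are linearly independent over the reals (`LinearIndependent.pair_iff`; if
  `s w₁ + t w₂ = 0` multiply by `conj w₁` and take imaginary parts: `t = 0`).
* `cov_basis`: `ZLattice.covolume_eq_det_mul_measureReal` with the `ℤ`-basis `w₁, w₂` of `L` and the real basis
  `Complex.basisOneI` (its fundamental domain has measure one: `Complex.volume_preserving...`,
  `Complex.volume_fundamentalDomain..` or the orthonormal basis `Complex.orthonormalBasisOneI`), the determinant is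
  `w₁.re * w₂.im - w₁.im * w₂.re = (conj w₁ * w₂).im`.
-/

set_option autoImplicit false

namespace Pool.Agent.SS.HB

open Polynomial
open Pool.Agent.Work.CM
open scoped Pointwise

private theorem im_eq (w₁ w₂ : ℂ) :
    (starRingEnd ℂ w₁ * w₂).im = w₁.re * w₂.im - w₁.im * w₂.re := by
  simp [Complex.mul_im]
  ring

private theorem indep {w₁ w₂ : ℂ} (h : (starRingEnd ℂ w₁ * w₂).im ≠ 0) {s t : ℝ}
    (he : (s : ℂ) * w₁ + t * w₂ = 0) : s = 0 ∧ t = 0 := by
  rw [im_eq] at h
  have h1 := congrArg Complex.re he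
  have h2 := congrArg Complex.im he
  simp only [Complex.add_re, Complex.add_im, Complex.mul_re, Complex.mul_im, Complex.ofReal_re,
    Complex.ofReal_im, Complex.zero_re, Complex.zero_im, zero_mul, sub_zero, add_zero] at h1 h2
  constructor
  · have : s * (w₁.re * w₂.im - w₁.im * w₂.re) = 0 := by linear_combination w₂.im * h1 - w₂.re * h2
    exact (mul_eq_zero.1 this).resolve_right h
  · have : t * (w₁.re * w₂.im - w₁.im * w₂.re) = 0 := by linear_combination w₁.re * h2 - w₁.im * h1
    exact (mul_eq_zero.1 this).resolve_right h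

private theorem exists_pair {w₁ w₂ : ℂ} (h : (starRingEnd ℂ w₁ * w₂).im ≠ 0) :
    ∃ P : PeriodPair, P.ω₁ = w₁ ∧ P.ω₂ = w₂ := by
  refine ⟨⟨w₁, w₂, ?_⟩, rfl, rfl⟩
  rw [LinearIndependent.pair_iff]
  intro s t hst
  rw [Complex.real_smul, Complex.real_smul] at hst
  exact indep h hst

theorem exists_basis {L : Submodule ℤ ℂ} (h : IsLat L) :
    ∃ w₁ w₂ : ℂ, 0 < (starRingEnd ℂ w₁ * w₂).im ∧
      ∀ z, z ∈ L ↔ ∃ x y : ℤ, z = x * w₁ + y * w₂ := by
  obtain ⟨P, rfl⟩ := h
  have hind := LinearIndependent.pair_iff.1 P.indep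
  have h0 : (starRingEnd ℂ P.ω₁ * P.ω₂).im ≠ 0 := by
    intro h0
    rw [im_eq] at h0
    have h1 := hind (P.ω₂.re) (-P.ω₁.re) (by
      rw [Complex.real_smul, Complex.real_smul]
      apply Complex.ext
      · simp
        ring
      · simp
        linear_combination -h0)
    have h2 := hind (P.ω₂.im) (-P.ω₁.im) (by
      rw [Complex.real_smul, Complex.real_smul]
      apply Complex.ext
      · simp
        linear_combination h0
      · simp
        ring)
    have h3 : P.ω₁ = 0 := by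
      apply Complex.ext
      · simpa using h1.2
      · simpa using h2.2
    have h4 := hind 1 0 (by simp [h3])
    exact one_ne_zero h4.1
  rcases lt_or_gt_of_ne h0 with hneg | hpos
  · refine ⟨P.ω₂, P.ω₁, ?_, fun z => ?_⟩
    · rw [im_eq] at hneg ⊢
      linarith
    · rw [PeriodPair.mem_lattice]
      constructor
      · rintro ⟨m, n, rfl⟩
        exact ⟨n, m, by ring⟩
      · rintro ⟨x, y, rfl⟩
        exact ⟨y, x, by ring⟩
  · refine ⟨P.ω₁, P.ω₂, hpos, fun z => ?_⟩
    rw [PeriodPair.mem_lattice]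
    constructor
    · rintro ⟨m, n, rfl⟩
      exact ⟨m, n, rfl⟩
    · rintro ⟨x, y, rfl⟩
      exact ⟨x, y, rfl⟩

private theorem lattice_eq {L : Submodule ℤ ℂ} {w₁ w₂ : ℂ}
    (hL : ∀ z, z ∈ L ↔ ∃ x y : ℤ, z = x * w₁ + y * w₂) {P : PeriodPair} (h1 : P.ω₁ = w₁)
    (h2 : P.ω₂ = w₂) : P.lattice = L := by
  ext z
  rw [PeriodPair.mem_lattice, hL, h1, h2]
  constructor
  · rintro ⟨m, n, rfl⟩
    exact ⟨m, n, rfl⟩
  · rintro ⟨x, y, rfl⟩
    exact ⟨x, y, rfl⟩

theorem isLat_of_basis {L : Submodule ℤ ℂ} {w₁ w₂ : ℂ} (h : (starRingEnd ℂ w₁ * w₂).im ≠ 0)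
    (hL : ∀ z, z ∈ L ↔ ∃ x y : ℤ, z = x * w₁ + y * w₂) : IsLat L := by
  obtain ⟨P, h1, h2⟩ := exists_pair h
  exact ⟨P, lattice_eq hL h1 h2⟩

theorem basis_unique {w₁ w₂ : ℂ} (h : (starRingEnd ℂ w₁ * w₂).im ≠ 0) {x y x' y' : ℝ}
    (he : (x : ℂ) * w₁ + y * w₂ = x' * w₁ + y' * w₂) : x = x' ∧ y = y' := by
  have h1 := indep h (s := x - x') (t := y - y') (by
    push_cast
    linear_combination he)
  exact ⟨by linarith [h1.1], by linarith [h1.2]⟩

private theorem meas_one :
    (MeasureTheory.volume : MeasureTheory.Measure ℂ).real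
      (ZSpan.fundamentalDomain Complex.basisOneI) = 1 := by
  rw [MeasureTheory.measureReal_congr (ZSpan.fundamentalDomain_ae_parallelepiped _ _),
    ← Complex.toBasis_orthonormalBasisOneI, OrthonormalBasis.coe_toBasis]
  unfold MeasureTheory.Measure.real
  rw [OrthonormalBasis.volume_parallelepiped]
  rfl

theorem cov_basis {L : Submodule ℤ ℂ} {w₁ w₂ : ℂ} (h : (starRingEnd ℂ w₁ * w₂).im ≠ 0)
    (hL : ∀ z, z ∈ L ↔ ∃ x y : ℤ, z = x * w₁ + y * w₂) :
    cov L = |(starRingEnd ℂ w₁ * w₂).im| := by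
  obtain ⟨P, h1, h2⟩ := exists_pair h
  obtain rfl := lattice_eq hL h1 h2
  unfold cov
  rw [ZLattice.covolume_eq_det_mul_measureReal P.lattice MeasureTheory.volume P.latticeBasis
    Complex.basisOneI, meas_one, mul_one, Module.Basis.det_apply, Matrix.det_fin_two]
  simp only [Module.Basis.toMatrix_apply, Function.comp_apply, PeriodPair.latticeBasis_zero,
    PeriodPair.latticeBasis_one, Complex.coe_basisOneI_repr]
  rw [im_eq, h1, h2]
  simp
  congr 1
  ring

end Pool.Agent.SS.HB
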