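import Mathlib
import Pool.Agent.Work.MP_a5099b_nt.H.HDefs
import Pool.Agent.Work.MP_a5099b_nt.H.Bas

/-!
# Module Cov (size M): index and covolume

Instances: `IsLat.discrete`, `IsLat.isZLattice` (CM/Bas.lean). `cov_pos`: `ZLattice.covolume_pos`.
`cov_smul`: a basis `w₁, w₂` of `L` (`exists_basis`) gives the basis `c w₁, c w₂` of `c • L` and
`conj (c w₁) * (c w₂) = ‖c‖ ^ 2 * (conj w₁ * w₂)`; `cov_basis`.
`cov_sup`, `sup_of_cov`, `exists_sup`: `ZLattice.covolume_div_covolume_eq_relIndex'` (covolume of the sublattice divided by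
the covolume of the lattice is the relative index); covolumes are positive.
-/

set_option autoImplicit false

namespace Pool.Agent.SS.HB

open Polynomial
open Pool.Agent.Work.CM
open scoped Pointwise

theorem cov_pos {L : Submodule ℤ ℂ} (h : IsLat L) : 0 < cov L := by
  obtain ⟨_, _⟩ := h.isZLattice
  exact ZLattice.covolume_pos L MeasureTheory.volume

theorem cov_smul {L : Submodule ℤ ℂ} (h : IsLat L) {c : ℂ} (hc : c ≠ 0) :
    cov (c • L) = ‖c‖ ^ 2 * cov L := by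
  obtain ⟨w₁, w₂, h0, hL⟩ := exists_basis h
  have e : (starRingEnd ℂ (c * w₁) * (c * w₂)) = ((‖c‖ ^ 2 : ℝ) : ℂ) * (starRingEnd ℂ w₁ * w₂) := by
    rw [map_mul]
    have h1 : starRingEnd ℂ c * c = ((‖c‖ ^ 2 : ℝ) : ℂ) := by
      rw [mul_comm, Complex.mul_conj, Complex.normSq_eq_norm_sq]
    rw [← h1]
    ring
  have hn : 0 < ‖c‖ ^ 2 := by
    have := norm_pos_iff.2 hc
    positivity
  have e2 : (starRingEnd ℂ (c * w₁) * (c * w₂)).im = ‖c‖ ^ 2 * (starRingEnd ℂ w₁ * w₂).im := by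
    rw [e, Complex.im_ofReal_mul]
  have hL' : ∀ z, z ∈ c • L ↔ ∃ x y : ℤ, z = x * (c * w₁) + y * (c * w₂) := by
    intro z
    rw [mem_smul' hc, hL]
    constructor
    · rintro ⟨x, y, hxy⟩
      refine ⟨x, y, ?_⟩
      have h3 : z = c * (c⁻¹ * z) := by field_simp
      rw [h3, hxy]
      ring
    · rintro ⟨x, y, rfl⟩
      refine ⟨x, y, ?_⟩
      field_simp
  rw [cov_basis (ne_of_gt h0) hL, cov_basis (by rw [e2]; positivity) hL', e2, abs_mul,
    abs_of_pos hn]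

private theorem cov_idx {L L' : Submodule ℤ ℂ} (hL : IsLat L) (hL' : IsLat L') (hle : L ≤ L') :
    cov L = (L.toAddSubgroup.relIndex L'.toAddSubgroup : ℝ) * cov L' := by
  obtain ⟨_, _⟩ := hL.isZLattice
  obtain ⟨_, _⟩ := hL'.isZLattice
  have h1 := ZLattice.covolume_div_covolume_eq_relIndex' L L' hle
  have h2 : cov L' ≠ 0 := (cov_pos hL').ne'
  have h3 : cov L / cov L' = (L.toAddSubgroup.relIndex L'.toAddSubgroup : ℝ) := h1
  rw [← h3]
  field_simp

theorem cov_sup {n : ℕ} {L L' : Submodule ℤ ℂ} (h : Sup n L L') : cov L = n * cov L' := by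
  rw [cov_idx h.lat h.lat' h.le, h.idx]

theorem sup_of_cov {n : ℕ} {L L' : Submodule ℤ ℂ} (hL : IsLat L) (hL' : IsLat L') (hle : L ≤ L')
    (h : cov L = n * cov L') : Sup n L L' := by
  refine ⟨hL, hL', hle, ?_⟩
  rw [cov_idx hL hL' hle] at h
  have h1 := mul_right_cancel₀ (cov_pos hL').ne' h
  exact_mod_cast h1

theorem exists_sup {L L' : Submodule ℤ ℂ} (hL : IsLat L) (hL' : IsLat L') (hle : L ≤ L') :
    ∃ n : ℕ, 0 < n ∧ Sup n L L' := by
  refine ⟨L.toAddSubgroup.relIndex L'.toAddSubgroup, ?_, hL, hL', hle, rfl⟩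
  rw [Nat.pos_iff_ne_zero]
  intro h0
  have h1 := cov_idx hL hL' hle
  rw [h0] at h1
  have := cov_pos hL
  simp at h1
  linarith

end Pool.Agent.SS.HB
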