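import Mathlib
import Pool.Agent.Work.MP_a5099b_nt.H.HDefs
import Pool.Agent.Work.MP_a5099b_nt.H.Bas
import Pool.Agent.Work.MP_a5099b_nt.H.Cov

/-!
# Module Sand (size M): superlattices

* `sup_nsmul`: the quotient `L'/L` has `n` elements, so `n z ∈ L` (e.g. `AddSubgroup.relIndex` and
  `AddSubgroup.nsmul_index_mem`-type lemma for `L.toAddSubgroup.addSubgroupOf L'.toAddSubgroup`; also for `n = 0` it
  is trivial, `0 * z = 0`).
* `isLat_between`: `L ≤ L' ≤ M` with `L`, `M` lattices: `L'` is discrete (subset of `M`) and spans `ℂ` over the reals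
  (contains `L`): so it is a free `ℤ`-module of rank 2 with a basis that is a real basis of `ℂ`
  (`ZLattice`: `IsZLattice ℝ L'`, `IsZLattice.basis`/`Module.Free.chooseBasis`, rank `= finrank ℝ ℂ = 2`,
  `Basis.ofZLatticeBasis`), which gives a period pair. (Or elementary: `L'` is a submodule of the free module `M` of rank
  two: `Submodule.nonempty_basis_of_pid`, the rank is two as `L' ⊇ L`.)
* `isLat_of_relIndex`: `L' ≤ n⁻¹ • L` by the argument of the first item, `isLat_between`.
* (`Sup_smul` is in B/SupF.lean.)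
* `sup_trans`: `cov_sup`, `sup_of_cov`. `sup_one`, `sup_eq`: covolumes / `relIndex = 1`.
-/

set_option autoImplicit false

namespace Pool.Agent.SS.HB

open Polynomial
open Pool.Agent.Work.CM
open scoped Pointwise

private theorem sand_nsmul {L L' : Submodule ℤ ℂ} {z : ℂ} (hz : z ∈ L') :
    ((L.toAddSubgroup.relIndex L'.toAddSubgroup : ℕ) : ℂ) * z ∈ L := by
  have h1 := AddSubgroup.nsmul_index_mem
    (L.toAddSubgroup.addSubgroupOf L'.toAddSubgroup) ⟨z, hz⟩
  rw [AddSubgroup.mem_addSubgroupOf] at h1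
  have h2 : (L.toAddSubgroup.relIndex L'.toAddSubgroup) • z ∈ L := h1
  rwa [nsmul_eq_mul] at h2

theorem sup_nsmul {n : ℕ} {L L' : Submodule ℤ ℂ} (h : Sup n L L') {z : ℂ} (hz : z ∈ L') :
    (n : ℂ) * z ∈ L := by
  rw [← h.idx]
  exact sand_nsmul hz

theorem isLat_between {L L' M : Submodule ℤ ℂ} (hL : IsLat L) (hM : IsLat M) (h1 : L ≤ L')
    (h2 : L' ≤ M) : IsLat L' := by
  obtain ⟨hd, hz⟩ := hL.isZLattice
  have hdM : DiscreteTopology (M : Set ℂ) := hM.discrete
  have hdL : DiscreteTopology (L' : Set ℂ) := DiscreteTopology.of_subset hdM h2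
  haveI hdL' : DiscreteTopology L' := hdL
  have hsp : Submodule.span ℝ (L' : Set ℂ) = ⊤ := by
    rw [eq_top_iff, ← hz.span_top]
    exact Submodule.span_mono h1
  haveI hz' : IsZLattice ℝ L' := ⟨hsp⟩
  haveI : Module.Free ℤ L' := ZLattice.module_free ℝ L'
  haveI : Module.Finite ℤ L' := ZLattice.module_finite ℝ L'
  have hr : Module.finrank ℤ L' = 2 := by
    rw [ZLattice.rank ℝ L', Complex.finrank_real_complex]
  let b : Module.Basis (Fin 2) ℤ L' := Module.finBasisOfFinrankEq ℤ L' hr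
  have hli : LinearIndependent ℝ ![((b 0 : L') : ℂ), ((b 1 : L') : ℂ)] := by
    have h3 := (b.ofZLatticeBasis ℝ L').linearIndependent
    have h4 : (fun i => (b.ofZLatticeBasis ℝ L') i) = ![((b 0 : L') : ℂ), ((b 1 : L') : ℂ)] := by
      funext i
      rw [Module.Basis.ofZLatticeBasis_apply]
      fin_cases i <;> rfl
    rw [← h4]
    exact h3
  refine ⟨⟨((b 0 : L') : ℂ), ((b 1 : L') : ℂ), hli⟩, ?_⟩
  apply le_antisymm
  · rw [PeriodPair.lattice, Submodule.span_le]
    rintro z (rfl | hz1)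
    · exact (b 0).2
    · rw [Set.mem_singleton_iff] at hz1
      rw [hz1]
      exact (b 1).2
  · intro z hz1
    have h3 := b.sum_repr ⟨z, hz1⟩
    rw [Fin.sum_univ_two] at h3
    have h4 : z = (b.repr ⟨z, hz1⟩ 0) • ((b 0 : L') : ℂ) +
        (b.repr ⟨z, hz1⟩ 1) • ((b 1 : L') : ℂ) := by
      have h5 := congrArg (fun w : L' => (w : ℂ)) h3
      simpa using h5.symm
    rw [h4]
    apply Submodule.add_mem
    · apply Submodule.smul_mem
      exact Submodule.subset_span (Set.mem_insert _ _)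
    · apply Submodule.smul_mem
      exact Submodule.subset_span (Set.mem_insert_of_mem _ (Set.mem_singleton _))

theorem isLat_of_relIndex {L L' : Submodule ℤ ℂ} (hL : IsLat L) (h1 : L ≤ L')
    (h2 : L.toAddSubgroup.relIndex L'.toAddSubgroup ≠ 0) : IsLat L' := by
  have h3 : ((L.toAddSubgroup.relIndex L'.toAddSubgroup : ℕ) : ℂ) ≠ 0 := by exact_mod_cast h2
  have h4 := inv_ne_zero h3
  refine isLat_between hL (hL.smul h4) h1 ?_
  intro z hz
  rw [mem_smul' h4, inv_inv]
  exact sand_nsmul hz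

theorem sup_trans {m n : ℕ} {L L' L'' : Submodule ℤ ℂ} (h : Sup m L L') (h' : Sup n L' L'') :
    Sup (m * n) L L'' := by
  refine ⟨h.lat, h'.lat', h.le.trans h'.le, ?_⟩
  rw [← h.idx, ← h'.idx]
  exact (AddSubgroup.relIndex_mul_relIndex _ _ _ h.le h'.le).symm

theorem sup_one {L L' : Submodule ℤ ℂ} (h : Sup 1 L L') : L = L' := by
  have h1 := AddSubgroup.relIndex_eq_one.1 h.idx
  exact le_antisymm h.le h1

/-- Two superlattices of the same index, one contained in the other one, are equal. -/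
theorem sup_eq {n : ℕ} (hn : 0 < n) {L A B : Submodule ℤ ℂ} (hA : Sup n L A) (hB : Sup n L B)
    (hle : A ≤ B) : A = B := by
  have h1 := AddSubgroup.relIndex_mul_relIndex L.toAddSubgroup A.toAddSubgroup
    B.toAddSubgroup hA.le hle
  rw [hA.idx, hB.idx] at h1
  have h2 : A.toAddSubgroup.relIndex B.toAddSubgroup = 1 := by
    apply Nat.eq_of_mul_eq_mul_left hn
    rw [h1, mul_one]
  exact le_antisymm hle (AddSubgroup.relIndex_eq_one.1 h2)

end Pool.Agent.SS.HB
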