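import Mathlib
import Pool.Agent.Work.MP_a5099b_nt.H.HDefs
import Pool.Agent.Work.MP_a5099b_nt.B.SupF
import Pool.Agent.Work.MP_a5099b_nt.H.Cov
import Pool.Agent.Work.MP_a5099b_nt.H.Sand

/-!
# Module PSup (size S-M): principal superlattices

* `psup`: `L ≤ μ⁻¹ • L` (`mem_smul'`: `z ∈ μ⁻¹ • L` iff `μ z ∈ L`), `cov (μ⁻¹ • L) = ‖μ‖⁻² cov L` (`cov_smul`), `sup_of_cov`.
* `psup'`: conversely, `cov_sup`, `cov_smul`, `cov_pos`.
* `sup_sq`: `psup` for `μ = sq q` (`norm_sq`).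
* `psup_mul`: `μ⁻¹ • L` has the multiplier `ν` iff `L` has it (`IsMul.smul`).
-/

set_option autoImplicit false

namespace Pool.Agent.SS.HB

open Polynomial
open Pool.Agent.Work.CM
open scoped Pointwise

theorem psup {L : Submodule ℤ ℂ} (h : IsLat L) {μ : ℂ} {n : ℕ} (hn : 0 < n) (hμ : IsMul L μ)
    (hN : ‖μ‖ ^ 2 = n) : Sup n L (μ⁻¹ • L) := by
  have hμ0 : μ ≠ 0 := by
    rintro rfl
    rw [norm_zero] at hN
    have : (0 : ℝ) < n := by exact_mod_cast hn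
    rw [← hN] at this
    norm_num at this
  have hL' : IsLat (μ⁻¹ • L) := h.smul (inv_ne_zero hμ0)
  refine sup_of_cov h hL' ?_ ?_
  · intro z hz
    rw [mem_smul' (inv_ne_zero hμ0), inv_inv]
    exact hμ z hz
  · have hn0 : (n : ℝ) ≠ 0 := by exact_mod_cast hn.ne'
    rw [cov_smul h (inv_ne_zero hμ0), norm_inv, inv_pow, hN, ← mul_assoc, mul_inv_cancel₀ hn0, one_mul]

theorem psup' {L : Submodule ℤ ℂ} {c : ℂ} {n : ℕ} (hc : c ≠ 0) (h : Sup n L (c • L)) :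
    IsMul L c⁻¹ ∧ ‖c⁻¹‖ ^ 2 = n := by
  have h1 := cov_sup h
  have hL : IsLat L := h.lat
  rw [cov_smul hL hc, ← mul_assoc] at h1
  have h2 := cov_pos hL
  have h3 : (n : ℝ) * ‖c‖ ^ 2 = 1 := by
    have h4 : ((n : ℝ) * ‖c‖ ^ 2 - 1) * cov L = 0 := by linear_combination -h1
    have h5 := (mul_eq_zero.1 h4).resolve_right h2.ne'
    linear_combination h5
  refine ⟨fun z hz => ?_, ?_⟩
  · exact (mem_smul' hc).1 (h.le hz)
  · rw [norm_inv, inv_pow]
    exact (eq_inv_of_mul_eq_one_left h3).symm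

theorem sup_sq {q : ℕ} (hq : 0 < q) {L : Submodule ℤ ℂ} (h : IsLat L) (hs : HasSq q L) :
    Sup q (sq q • L) L := by
  have h1 := psup h hq hs (norm_sq q)
  have h2 := Sup_smul h1 (sq_ne_zero hq)
  rwa [smul_smul, mul_inv_cancel₀ (sq_ne_zero hq), one_smul] at h2

theorem isMul_smul_iff {L : Submodule ℤ ℂ} {c : ℂ} (hc : c ≠ 0) {μ : ℂ} :
    IsMul (c • L) μ ↔ IsMul L μ := by
  constructor
  · intro h
    have h1 := h.smul (inv_ne_zero hc)
    rwa [smul_smul, inv_mul_cancel₀ hc, one_smul] at h1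
  · intro h
    exact h.smul hc

end Pool.Agent.SS.HB
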