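import Mathlib
import Pool.Agent.Work.MP_a5099b_nt.H.HDefs
import Pool.Agent.Work.CM.Ext1

/-!
# Module Aut (size S-M): conjugate algebraic numbers

`a`, `a'` are algebraic over `ℚ` with the same minimal polynomial. Let `Ω = AlgebraicClosure ℚ` or the algebraic closure of `ℚ` in `ℂ`
(`integralClosure ℚ ℂ`); there is a `ℚ`-automorphism of `Ω` which maps `a` to `a'` (`IsConjRoot`, `minpoly.eq_iff_exists_algEquiv`-type
lemmas for normal extensions: `isConjRoot_iff_exists_algEquiv`, `Normal`), and it extends to `ℂ` by `exists_extension` in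
Pool/Agent/Work/CM/Ext1.lean. (Or directly: the embedding `ℚ(a) → ℂ`, `a ↦ a'`, extends to an automorphism of `ℂ`, with a transcendence basis of
`ℂ` over `ℚ(a)`; cardinalities.)
-/

set_option autoImplicit false

namespace Pool.Agent.SS.HB

open Polynomial
open Pool.Agent.Work.CM
open scoped Pointwise

private theorem aut_gen {K : Type} [Field K] [Algebra K ℂ] {a a' : ℂ} (ha : IsAlgebraic K a)
    (h : minpoly K a = minpoly K a') : ∃ σ : ℂ ≃+* ℂ, σ a = a' := by
  have ha' : IsAlgebraic K a' := by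
    have h0 : minpoly K a' ≠ 0 := by
      rw [← h]
      exact minpoly.ne_zero ha.isIntegral
    exact ⟨minpoly K a', h0, minpoly.aeval K a'⟩
  have hC : IsAlgClosure K (algebraicClosure K ℂ) := inferInstance
  have : IsAlgClosed (algebraicClosure K ℂ) := hC.isAlgClosed
  have : Normal K (algebraicClosure K ℂ) := IsAlgClosure.normal K _
  have hx : a ∈ algebraicClosure K ℂ := mem_algebraicClosure_iff.2 ha
  have hy : a' ∈ algebraicClosure K ℂ := mem_algebraicClosure_iff.2 ha'
  have hxy : IsConjRoot K (⟨a', hy⟩ : algebraicClosure K ℂ) ⟨a, hx⟩ := by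
    unfold IsConjRoot
    have e1 := IntermediateField.minpoly_eq (K := K) (L := ℂ) (S := algebraicClosure K ℂ) ⟨a, hx⟩
    have e2 := IntermediateField.minpoly_eq (K := K) (L := ℂ) (S := algebraicClosure K ℂ) ⟨a', hy⟩
    rw [e1, e2]
    exact h.symm
  obtain ⟨s, hs⟩ := isConjRoot_iff_exists_algEquiv.1 hxy
  obtain ⟨t, ht⟩ := exists_extension (algebraicClosure K ℂ).val s
  refine ⟨t.toRingEquiv, ?_⟩
  have h1 := ht ⟨a, hx⟩
  rw [hs] at h1
  exact h1

theorem exists_aut {a a' : ℂ} (ha : IsAlgebraic ℚ a) (h : minpoly ℚ a = minpoly ℚ a') :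
    ∃ σ : ℂ ≃+* ℂ, σ a = a' := aut_gen ha h

end Pool.Agent.SS.HB
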