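import Mathlib
import Pool.Agent.Work.MP_a5099b_nt.H.HDefs
import Pool.Agent.Work.MP_a5099b_nt.B.EndR

/-!
# Module Gen (size M): the ring of multipliers of a lattice with multiplication by `√(-q)`

Write `s = sq q` (`s * s = -q`, purely imaginary). Let `μ` be a multiplier, `μ + conj μ = x` an integer (`trace_norm` in B/EndR.lean), and
`s μ` is a multiplier with `s μ + conj (s μ) = s (μ - conj μ) = Z` an integer. So `μ - conj μ = Z / s = - Z s / q` and
`2 μ = x - (Z / q) s`. Norm: `4 μ conj μ = x ^ 2 + Z ^ 2 / q` and `μ conj μ = n` is an integer, so `q` divides `Z ^ 2`, hence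
`q ∣ Z`; `y = - Z / q` is an integer: `2 μ = x + y s`, `x ^ 2 + q y ^ 2 = 4 n` (`two_mul_eq`, with `‖μ‖ ^ 2 = n`).
* `exists_gen`: if `(1 + s) / 2` is a multiplier take `ω = (1 + s)/2`: for `2 μ = x + y s` with `x ^ 2 + q y ^ 2 = 0 mod 4`,
  `q = 3 mod 4`, `x` and `y` have the same parity, `μ = (x - y)/2 + y ω`. Otherwise `ω = s`, and `x`, `y` are both even: if they were
  both odd, `(1 + s)/2 = μ - ((x-1)/2 + (y-1)/2 s)` would be a multiplier.
-/

set_option autoImplicit false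

namespace Pool.Agent.SS.HB

open Polynomial
open Pool.Agent.Work.CM
open scoped Pointwise

theorem two_mul_eq {q : ℕ} (hq : q.Prime) {L : Submodule ℤ ℂ} (h : IsLat L) (hs : HasSq q L)
    {μ : ℂ} (hμ : IsMul L μ) :
    ∃ x y n : ℤ, 2 * μ = x + y * sq q ∧ x ^ 2 + q * y ^ 2 = 4 * n ∧ ‖μ‖ ^ 2 = n := by
  obtain ⟨x, n, hx, hn⟩ := trace_norm h hμ
  obtain ⟨Z, N', hZ, -⟩ := trace_norm h (IsMul.mul hs hμ)
  rw [map_mul, conj_sq] at hZ
  have hq0 : (q : ℂ) ≠ 0 := by exact_mod_cast hq.ne_zero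
  have e1 : (q : ℂ) * (μ - starRingEnd ℂ μ) = -(Z * sq q) := by
    linear_combination (-(sq q)) * hZ + (μ - starRingEnd ℂ μ) * sq_mul_self q
  have e2 : (q : ℂ) * (4 * n - x ^ 2) = Z ^ 2 := by
    apply mul_left_cancel₀ hq0
    have e3 : ((q : ℂ) * (μ - starRingEnd ℂ μ)) ^ 2 = -((q : ℂ) * Z ^ 2) := by
      rw [e1]
      linear_combination (Z : ℂ) ^ 2 * sq_mul_self q
    rw [← hn, ← hx]
    linear_combination -e3
  have e4 : (q : ℤ) * (4 * n - x ^ 2) = Z ^ 2 := by exact_mod_cast e2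
  have hd : (q : ℤ) ∣ Z :=
    (Nat.prime_iff_prime_int.1 hq).dvd_of_dvd_pow (Dvd.intro _ e4)
  obtain ⟨y, rfl⟩ := hd
  have hqz : (q : ℤ) ≠ 0 := by exact_mod_cast hq.ne_zero
  refine ⟨x, -y, n, ?_, ?_, ?_⟩
  · apply mul_left_cancel₀ hq0
    push_cast at e1 ⊢
    linear_combination e1 + (q : ℂ) * hx
  · apply mul_left_cancel₀ hqz
    linear_combination -e4
  · rw [← Complex.normSq_eq_norm_sq]
    have e5 := Complex.mul_conj μ
    rw [hn] at e5
    exact_mod_cast e5.symm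

/-- A generator of the ring of multipliers. -/
structure IsGen (q : ℕ) (L : Submodule ℤ ℂ) (ω : ℂ) : Prop where
  mul : IsMul L ω
  eq : ω = sq q ∨ ω = (1 + sq q) / 2
  gen : ∀ μ, IsMul L μ → ∃ x y : ℤ, μ = x + y * ω

theorem exists_gen {q : ℕ} (hq : q.Prime) (hq4 : q % 4 = 3) {L : Submodule ℤ ℂ} (h : IsLat L)
    (hs : HasSq q L) : ∃ ω, IsGen q L ω := by
  have hpar : ∀ x y n : ℤ, x ^ 2 + q * y ^ 2 = 4 * n → x % 2 = y % 2 := by
    intro x y n hxy
    have hq2 : (q : ℤ) % 2 = 1 := by omega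
    have h1 : (x ^ 2 + q * y ^ 2) % 2 = 0 := by rw [hxy]; omega
    obtain ⟨k, hk⟩ : ∃ k : ℤ, (q : ℤ) = 2 * k + 1 := ⟨(q : ℤ) / 2, by omega⟩
    rw [hk] at h1
    have h2 : Even (x + y) := by
      have h3 : Even (x ^ 2 + y ^ 2) := by
        rw [Int.even_iff]
        have : x ^ 2 + (2 * k + 1) * y ^ 2 = x ^ 2 + y ^ 2 + 2 * (k * y ^ 2) := by ring
        omega
      rcases Int.even_or_odd x with hx | hx <;> rcases Int.even_or_odd y with hy | hy
      · exact hx.add hy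
      · exfalso
        have := (Even.pow_of_ne_zero hx two_ne_zero).add_odd (hy.pow (n := 2))
        exact (Int.not_even_iff_odd.2 this) h3
      · exfalso
        have := (hx.pow (n := 2)).add_even (Even.pow_of_ne_zero hy two_ne_zero)
        exact (Int.not_even_iff_odd.2 this) h3
      · exact hx.add_odd hy
    rw [Int.even_iff] at h2
    omega
  by_cases hw : IsMul L ((1 + sq q) / 2)
  · refine ⟨(1 + sq q) / 2, hw, Or.inr rfl, ?_⟩
    intro μ hμ
    obtain ⟨x, y, n, h1, h2, -⟩ := two_mul_eq hq h hs hμ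
    have h3 := hpar x y n h2
    obtain ⟨k, hk⟩ : ∃ k : ℤ, x = 2 * k + y := ⟨(x - y) / 2, by omega⟩
    refine ⟨k, y, ?_⟩
    rw [hk] at h1
    push_cast at h1
    linear_combination h1 / 2
  · refine ⟨sq q, hs, Or.inl rfl, ?_⟩
    intro μ hμ
    obtain ⟨x, y, n, h1, h2, -⟩ := two_mul_eq hq h hs hμ
    have h3 := hpar x y n h2
    rcases Int.even_or_odd x with hx | hx
    · obtain ⟨k, hk⟩ : ∃ k : ℤ, x = 2 * k := ⟨x / 2, by rw [Int.even_iff] at hx; omega⟩
      obtain ⟨m, hm⟩ : ∃ m : ℤ, y = 2 * m := ⟨y / 2, by rw [Int.even_iff] at hx; omega⟩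
      refine ⟨k, m, ?_⟩
      rw [hk, hm] at h1
      push_cast at h1
      linear_combination h1 / 2
    · exfalso
      apply hw
      obtain ⟨k, hk⟩ : ∃ k : ℤ, x = 2 * k + 1 := ⟨x / 2, by rw [Int.odd_iff] at hx; omega⟩
      obtain ⟨m, hm⟩ : ∃ m : ℤ, y = 2 * m + 1 := ⟨y / 2, by rw [Int.odd_iff] at hx; omega⟩
      have h4 : (1 + sq q) / 2 = μ - (((k : ℤ) : ℂ) + ((m : ℤ) : ℂ) * sq q) := by
        rw [hk, hm] at h1
        push_cast at h1
        linear_combination (-1 / 2 : ℂ) * h1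
      rw [h4]
      exact hμ.sub ((IsMul.int L k).add ((IsMul.int L m).mul hs))

end Pool.Agent.SS.HB
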