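import Mathlib
import Pool.Agent.Work.MP_a5099b_nt.H.HDefs
import Pool.Agent.Work.CM.Cj
import Pool.Agent.Work.MP_a5099b_nt.H.Gen

/-!
# Module ConjJ (size S-M): automorphisms of the complex numbers

* `jL_conj`: `conj_spec` (CM/Cj): `g2 (conj σ L) = σ (g2 L)`, same for `g3`; `σ 1728 = 1728`, `σ 27 = 27`.
* `conj_isMul`: `conj_mem` (CM/Cj) with `L' = L`.
* `conj_hasSq`: `σ (sq q)` has square `-q` (`sq_mul_self`), so it is `sq q` or `- sq q`; `IsMul.neg`.
* `conj_isMul_iff`: `L` has `√(-q)`. If `μ` is a multiplier of `L`, `2 μ = x + y s` (`two_mul_eq`), `2 σ(μ) = x ± y s`, so `σ(μ) = μ` or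
  `σ(μ) = x - μ`; `σ(μ)` is a multiplier of `M = conj σ L` (`conj_isMul`), so is `μ`. Conversely `conj σ.symm M = L`
  (`conj_trans`, `conj_refl` in CM/Cj), the same argument.
-/

set_option autoImplicit false

namespace Pool.Agent.SS.HB

open Polynomial
open Pool.Agent.Work.CM
open scoped Pointwise

theorem jL_conj (σ : ℂ ≃+* ℂ) {L : Submodule ℤ ℂ} (h : IsLat L) :
    IsLat (conj σ L) ∧ jL (conj σ L) = σ (jL L) := by
  obtain ⟨a, b, c⟩ := conj_spec σ h
  refine ⟨a, ?_⟩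
  unfold jL
  rw [b, c]
  simp only [map_div₀, map_mul, map_sub, map_pow, map_ofNat]

theorem conj_isMul (σ : ℂ ≃+* ℂ) {L : Submodule ℤ ℂ} (h : IsLat L) {μ : ℂ} (hμ : IsMul L μ) :
    IsMul (conj σ L) (σ μ) :=
  conj_mem σ h h hμ

private theorem conjj_sq (σ : ℂ ≃+* ℂ) (q : ℕ) : σ (sq q) = sq q ∨ σ (sq q) = -sq q := by
  have h1 : σ (sq q) * σ (sq q) = sq q * sq q := by
    rw [← map_mul, sq_mul_self, map_neg, map_natCast]
  exact mul_self_eq_mul_self_iff.1 h1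

theorem conj_hasSq (σ : ℂ ≃+* ℂ) {q : ℕ} {L : Submodule ℤ ℂ} (h : IsLat L) (hs : HasSq q L) :
    HasSq q (conj σ L) := by
  have h1 := conj_isMul σ h (hasSq_iff.1 hs)
  rw [hasSq_iff]
  rcases conjj_sq σ q with h2 | h2
  · rwa [h2] at h1
  · rw [h2] at h1
    have h3 := h1.neg
    rwa [neg_neg] at h3

private theorem conjj_aux (σ : ℂ ≃+* ℂ) {q : ℕ} (hq : q.Prime) {L : Submodule ℤ ℂ} (h : IsLat L)
    (hs : HasSq q L) {μ : ℂ} (hμ : IsMul L μ) : IsMul (conj σ L) μ := by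
  obtain ⟨x, y, n, h1, _, _⟩ := two_mul_eq hq h hs hμ
  have h2 := conj_isMul σ h hμ
  have h3 : 2 * σ μ = x + y * σ (sq q) := by
    have h4 := congrArg σ h1
    simpa only [map_mul, map_add, map_ofNat, map_intCast] using h4
  rcases conjj_sq σ q with h4 | h4
  · have h5 : σ μ = μ := by
      have h6 : (2 : ℂ) * σ μ = 2 * μ := by rw [h3, h4, h1]
      exact mul_left_cancel₀ two_ne_zero h6
    rwa [h5] at h2
  · have h5 : μ = (x : ℂ) - σ μ := by
      have h6 : (2 : ℂ) * μ = 2 * ((x : ℂ) - σ μ) := by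
        rw [mul_sub, h3, h4, h1]
        ring
      exact mul_left_cancel₀ two_ne_zero h6
    rw [h5]
    exact (IsMul.int _ x).sub h2

theorem conj_isMul_iff (σ : ℂ ≃+* ℂ) {q : ℕ} (hq : q.Prime) {L : Submodule ℤ ℂ} (h : IsLat L)
    (hs : HasSq q L) (μ : ℂ) : IsMul (conj σ L) μ ↔ IsMul L μ := by
  refine ⟨fun hμ => ?_, conjj_aux σ hq h hs⟩
  have h1 := conjj_aux σ.symm hq (jL_conj σ h).1 (conj_hasSq σ h hs) hμ
  have h2 : conj σ.symm (conj σ L) = L := by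
    rw [conj_trans σ.symm σ h, RingEquiv.self_trans_symm]
    exact conj_refl h
  rwa [h2] at h1

end Pool.Agent.SS.HB
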