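import Mathlib
import Pool.Agent.Work.MP_a5099b_nt.H.HDefs
import Pool.Agent.Work.MP_a5099b_nt.SpecB
import Pool.Agent.Work.MP_a5099b_nt.A.Lat
import Pool.Agent.Work.MP_a5099b_nt.B.SupF
import Pool.Agent.Work.MP_a5099b_nt.B.PhiX
import Pool.Agent.Work.MP_a5099b_nt.H.PSup
import Pool.Agent.Work.MP_a5099b_nt.H.Sand

/-!
# Module Diag (size S): relations from isogenies

* `phi_of_sup`: `Sup n (c • L) L'` gives `Sup n L (c⁻¹ • L')` (`Sup_smul` with `c⁻¹`, `c⁻¹ • (c • L) = L`), `PhiAt_root` (B/PhiX.lean) and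
  `jL_smul` (A/Lat.lean).
* `diag_of_hasSq`: `L' = L`, `c = sq q` (`sup_sq`), `PhiDiag_aeval`.
-/

set_option autoImplicit false

namespace Pool.Agent.SS.HB

open Polynomial
open Pool.Agent.Work.CM
open scoped Pointwise

theorem phi_of_sup {n : ℕ} (hn : n.Prime) {L L' : Submodule ℤ ℂ} (hL : IsLat L) {c : ℂ}
    (hc : c ≠ 0) (h : Sup n (c • L) L') : (PhiAt n (jL L)).eval (jL L') = 0 := by
  have hc' : c⁻¹ ≠ 0 := inv_ne_zero hc
  have h1 := Sup_smul h hc'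
  rw [smul_smul, inv_mul_cancel₀ hc, one_smul] at h1
  rw [PhiAt_root hn hL]
  exact ⟨c⁻¹ • L', h1, jL_smul h.lat' hc'⟩

theorem diag_of_hasSq {q : ℕ} (hq : q.Prime) {L : Submodule ℤ ℂ} (h : IsLat L) (hs : HasSq q L) :
    aeval (jL L) (PhiDiag q) = 0 := by
  rw [PhiDiag_aeval]
  exact phi_of_sup hq h (sq_ne_zero hq.pos) (sup_sq hq.pos h hs)

end Pool.Agent.SS.HB
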