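import Mathlib
import Pool.Agent.Work.MP_a5099b_nt.H.HDefs
import Pool.Agent.Work.MP_a5099b_nt.H.Bas

/-!
# Module FormZ (size M-L): the norm form of a lattice with multiplication by `√(-q)`

`H` a lattice, `s = sq q` a multiplier, `κ > 0` real with `κ ‖x‖² ` a natural number for all `x ∈ H`, and for every prime `p` some `x ∈ H` with `κ ‖x‖²` prime to `p`. Let `h₁, h₂` be a basis
(`exists_basis`, `Im (conj h₁ h₂) = V > 0`), `F(x,y) = κ ‖x h₁ + y h₂‖² = A x² + B x y + C y²` with integers `A = F(1,0)`, `C = F(0,1)`, `B = F(1,1) - A - C`, and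
`gcd(A,B,C) = 1` (a common prime `p` would divide all values). `s h₁ = a h₁ + b h₂`, `s h₂ = c h₁ + d h₂` with integers; `s² = -q` and `s` not real give `d = -a`, `a² + b c = -q`
(matrix identity `R² = -q`, `b ≠ 0`). For `z = x h₁ + y h₂`: `conj z * (s z)` has imaginary part `√q ‖z‖²` and also `T(x,y) V`, `T = b x² - 2 a x y - c y²`, discriminant
`4 a² + 4 b c = -4 q`. So `T = λ F` with the real number `λ = √q / (κ V) > 0`; comparing coefficients `(b, -2a, -c) = λ (A, B, C)`, so `λ` is rational, and as `gcd(A,B,C) = 1` it is an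
integer (Bezout: `λ = λ (r A + s B + t C)`). `-4 q = λ² (B² - 4 A C)`, so `λ² ∣ 4 q`, `λ = 1` or `λ = 2` (`q` is an odd prime). `λ = 1`: take `(A, B, C)`. `λ = 2`: `B² - 4AC = -q`, `B` is odd; one of
`A`, `C`, `A + B + C` is odd; change the basis (`(h₂, h₁)`, or `(h₁ + h₂, h₂)`) so that `A` is odd; the form `F(x, 2y) = A x² + 2 B x y + 4 C y²` has discriminant `-4q` and
`gcd(A, 2B, 4C) = 1`, its values are values of `F`.
-/

set_option autoImplicit false

namespace Pool.Agent.SS.HB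

open Polynomial
open Pool.Agent.Work.CM
open scoped Pointwise

private theorem fz_gcd {a b c : ℤ} (h : ∀ p : ℕ, p.Prime → (p : ℤ) ∣ a → (p : ℤ) ∣ b → (p : ℤ) ∣ c → False) :
    Int.gcd (Int.gcd a b) c = 1 := by
  by_contra hne
  obtain ⟨p, hp, hd⟩ := Nat.exists_prime_and_dvd hne
  have h1 : (p : ℤ) ∣ (Int.gcd (Int.gcd a b) c : ℤ) := Int.natCast_dvd_natCast.2 hd
  have h2 : (p : ℤ) ∣ (Int.gcd a b : ℤ) := h1.trans (Int.gcd_dvd_left _ _)
  exact h p hp (h2.trans (Int.gcd_dvd_left _ _)) (h2.trans (Int.gcd_dvd_right _ _))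
    (h1.trans (Int.gcd_dvd_right _ _))

private theorem fz_sq {q : ℕ} (hq : q.Prime) {m : ℤ} (h : m ^ 2 ∣ (q : ℤ)) : IsUnit m := by
  have hp : Prime (q : ℤ) := Nat.prime_iff_prime_int.1 hq
  rw [pow_two] at h
  obtain ⟨k, hk⟩ := h
  by_contra hm
  rcases hp.irreducible.isUnit_or_isUnit (a := m) (b := m * k) (by rw [hk]; ring) with h1 | h1
  · exact hm h1
  · exact hm (isUnit_of_mul_isUnit_left h1)

/-- the odd case -/
private theorem fz_half {q : ℕ} (hq : q.Prime) (hq4 : q % 4 = 3) {A B C : ℤ} (hA : 0 < A)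
    (hodd : A % 2 = 1) (hd : B ^ 2 - 4 * A * C = -q) :
    ∃ a b c : ℤ, 0 < a ∧ b ^ 2 - 4 * a * c = -4 * q ∧ Int.gcd (Int.gcd a b) c = 1 ∧
      ∀ u v : ℤ, ∃ x y : ℤ, A * x ^ 2 + B * x * y + C * y ^ 2 = a * u ^ 2 + b * u * v + c * v ^ 2 := by
  refine ⟨A, 2 * B, 4 * C, hA, by linear_combination 4 * hd, fz_gcd ?_, ?_⟩
  · intro p hp h1 h2 h3
    have hp2 : p ≠ 2 := by
      rintro rfl
      have : (2 : ℤ) ∣ A := h1
      omega
    have hpp : Prime (p : ℤ) := Nat.prime_iff_prime_int.1 hp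
    have hn2 : ¬ (p : ℤ) ∣ 2 := by
      intro h
      have := (Nat.prime_dvd_prime_iff_eq hp Nat.prime_two).1 (by exact_mod_cast h)
      exact hp2 this
    have h2' : (p : ℤ) ∣ B := (hpp.dvd_or_dvd h2).resolve_left hn2
    have h3' : (p : ℤ) ∣ C := by
      have h4 : (p : ℤ) ∣ 2 * (2 * C) := by
        have e : 2 * (2 * C) = 4 * C := by ring
        rw [e]
        exact h3
      exact (hpp.dvd_or_dvd ((hpp.dvd_or_dvd h4).resolve_left hn2)).resolve_left hn2
    obtain ⟨A', rfl⟩ := h1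
    obtain ⟨B', rfl⟩ := h2'
    obtain ⟨C', rfl⟩ := h3'
    have h5 : (p : ℤ) ^ 2 ∣ (q : ℤ) := ⟨4 * A' * C' - B' ^ 2, by linear_combination hd⟩
    exact hpp.not_unit (fz_sq hq h5)
  · intro u v
    exact ⟨u, 2 * v, by ring⟩

private theorem fz_int {q : ℕ} (hq : q.Prime) (hq4 : q % 4 = 3) {A B C a b c : ℤ} {lam : ℝ}
    (hlam : 0 < lam) (hA : 0 < A) (hC : 0 < C) (e1 : (b : ℝ) = lam * A) (e2 : (-2 * a : ℝ) = lam * B)
    (e3 : (-c : ℝ) = lam * C) (e4 : a ^ 2 + b * c = -q) (hg : Int.gcd (Int.gcd A B) C = 1) :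
    ∃ a b c : ℤ, 0 < a ∧ b ^ 2 - 4 * a * c = -4 * q ∧ Int.gcd (Int.gcd a b) c = 1 ∧
      ∀ u v : ℤ, ∃ x y : ℤ, A * x ^ 2 + B * x * y + C * y ^ 2 = a * u ^ 2 + b * u * v + c * v ^ 2 := by
  have hq0 : (0 : ℤ) < q := by exact_mod_cast hq.pos
  -- Bezout
  have b1 := Int.gcd_eq_gcd_ab A B
  have b2 := Int.gcd_eq_gcd_ab (Int.gcd A B) C
  rw [hg, b1] at b2
  set x1 := Int.gcdA A B
  set y1 := Int.gcdB A B
  set x2 := Int.gcdA (A * x1 + B * y1) C
  set y2 := Int.gcdB (A * x1 + B * y1) C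
  obtain ⟨Lam, hLam⟩ : ∃ Lam : ℤ, (Lam : ℝ) = lam := by
    refine ⟨b * x1 * x2 + (-2 * a) * y1 * x2 + (-c) * y2, ?_⟩
    push_cast
    have b2' : (1 : ℝ) = (A * x1 + B * y1) * x2 + C * y2 := by exact_mod_cast b2
    calc (b : ℝ) * x1 * x2 + (-2 * a) * y1 * x2 + (-c) * y2
        = lam * ((A * x1 + B * y1) * x2 + C * y2) := by rw [e1, e2, e3]; ring
      _ = lam := by rw [← b2', mul_one]
  have hL0 : 0 < Lam := by
    have : (0 : ℝ) < Lam := by rw [hLam]; exact hlam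
    exact_mod_cast this
  rw [← hLam] at e1 e2 e3
  have f1 : b = Lam * A := by exact_mod_cast e1
  have f2 : -2 * a = Lam * B := by exact_mod_cast e2
  have f3 : -c = Lam * C := by exact_mod_cast e3
  have hdisc : Lam ^ 2 * (B ^ 2 - 4 * A * C) = -4 * q := by
    linear_combination 4 * e4 - (Lam * B + (-2 * a)) * f2 - 4 * c * f1 + 4 * Lam * A * f3
  have hcases : Lam = 1 ∨ Lam = 2 := by
    rcases Int.emod_two_eq_zero_or_one Lam with h | h
    · right
      obtain ⟨m, rfl⟩ : ∃ m, Lam = 2 * m := ⟨Lam / 2, by omega⟩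
      have h1 : m ^ 2 ∣ (q : ℤ) := ⟨4 * A * C - B ^ 2, by
        have h0 : (4 : ℤ) * q = 4 * (m ^ 2 * (4 * A * C - B ^ 2)) := by linear_combination hdisc
        exact mul_left_cancel₀ (by norm_num) h0⟩
      have h2 := fz_sq hq h1
      rcases Int.isUnit_iff.1 h2 with h3 | h3 <;> omega
    · left
      have h1 : Lam ^ 2 ∣ 4 * (q : ℤ) := ⟨4 * A * C - B ^ 2, by linear_combination hdisc⟩
      have hcop : IsCoprime (Lam ^ 2) (4 : ℤ) := by
        have h2 : IsCoprime Lam (2 : ℤ) := by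
          rw [Int.isCoprime_iff_gcd_eq_one, Int.gcd_comm]
          have h3 : ¬ (2 : ℤ) ∣ Lam := by omega
          exact Int.isCoprime_iff_gcd_eq_one.1 ((Prime.coprime_iff_not_dvd Int.prime_two).2 h3)
        have h4 : IsCoprime (Lam ^ 2) ((2 : ℤ) ^ 2) := h2.pow
        norm_num at h4
        exact h4
      have h5 : Lam ^ 2 ∣ (q : ℤ) := hcop.dvd_of_dvd_mul_left h1
      have h2 := fz_sq hq h5
      rcases Int.isUnit_iff.1 h2 with h3 | h3 <;> omega
  rcases hcases with rfl | rfl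
  · refine ⟨A, B, C, hA, by linear_combination hdisc, hg, fun u v => ⟨u, v, rfl⟩⟩
  · have hd : B ^ 2 - 4 * A * C = -q := by
      have : 4 * (B ^ 2 - 4 * A * C) = 4 * (-q) := by linear_combination hdisc
      exact mul_left_cancel₀ (by norm_num) this
    rcases Int.emod_two_eq_zero_or_one A with hA2 | hA2
    · rcases Int.emod_two_eq_zero_or_one C with hC2 | hC2
      · -- `A + B + C` is odd
        have hB : B % 2 = 1 := by
          rcases Int.emod_two_eq_zero_or_one B with hB | hB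
          · exfalso
            obtain ⟨B', rfl⟩ : ∃ m, B = 2 * m := ⟨B / 2, by omega⟩
            have : (2 * B') ^ 2 - 4 * A * C = 4 * (B' ^ 2 - A * C) := by ring
            omega
          · exact hB
        have hpos : 0 < A + B + C := by
          have h1 : 4 * A * (A + B + C) = (2 * A + B) ^ 2 + q := by linear_combination -hd
          have h2 : 0 < 4 * A * (A + B + C) := by
            rw [h1]
            positivity
          exact (mul_pos_iff_of_pos_left (by omega)).1 h2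
        obtain ⟨a', b', c', g1, g2, g3, g4⟩ := fz_half (A := A + B + C) (B := B + 2 * C) (C := C) hq hq4
          hpos (by omega) (by linear_combination hd)
        refine ⟨a', b', c', g1, g2, g3, fun u v => ?_⟩
        obtain ⟨x, y, hxy⟩ := g4 u v
        exact ⟨x, x + y, by rw [← hxy]; ring⟩
      · obtain ⟨a', b', c', g1, g2, g3, g4⟩ := fz_half (A := C) (B := B) (C := A) hq hq4
          hC hC2 (by linear_combination hd)
        refine ⟨a', b', c', g1, g2, g3, fun u v => ?_⟩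
        obtain ⟨x, y, hxy⟩ := g4 u v
        exact ⟨y, x, by rw [← hxy]; ring⟩
    · exact fz_half hq hq4 hA hA2 hd

theorem form_z {q : ℕ} (hq : q.Prime) (hq4 : q % 4 = 3) {H : Submodule ℤ ℂ} (hH : IsLat H)
    (hs : HasSq q H) {κ : ℝ} (hκ : 0 < κ) (hint : ∀ x ∈ H, ∃ n : ℕ, κ * ‖x‖ ^ 2 = n)
    (hprim : ∀ p : ℕ, p.Prime → ∃ x ∈ H, ∃ n : ℕ, ¬ p ∣ n ∧ κ * ‖x‖ ^ 2 = n) :
    ∃ a b c : ℤ, 0 < a ∧ b ^ 2 - 4 * a * c = -4 * q ∧ Int.gcd (Int.gcd a b) c = 1 ∧
      ∀ u v : ℤ, ∃ x ∈ H, κ * ‖x‖ ^ 2 = ((a * u ^ 2 + b * u * v + c * v ^ 2 : ℤ) : ℝ) := by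
  obtain ⟨h₁, h₂, hV, hmem⟩ := exists_basis hH
  set V := (starRingEnd ℂ h₁ * h₂).im with hVd
  have hVe : V = h₁.re * h₂.im - h₁.im * h₂.re := by
    rw [hVd, Complex.mul_im, Complex.conj_re, Complex.conj_im]
    ring
  have hm1 : h₁ ∈ H := (hmem _).2 ⟨1, 0, by simp⟩
  have hm2 : h₂ ∈ H := (hmem _).2 ⟨0, 1, by simp⟩
  have hns : ∀ z : ℂ, ‖z‖ ^ 2 = z.re * z.re + z.im * z.im := fun z => by
    rw [← Complex.normSq_eq_norm_sq, Complex.normSq_apply]
  obtain ⟨A, hA⟩ := hint _ hm1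
  obtain ⟨C, hC⟩ := hint _ hm2
  obtain ⟨D, hD⟩ := hint _ (H.add_mem hm1 hm2)
  rw [hns] at hA hC hD
  simp only [Complex.add_re, Complex.add_im] at hD
  have hval : ∀ x y : ℤ, κ * ‖(x : ℂ) * h₁ + y * h₂‖ ^ 2 =
      (((A : ℤ) * x ^ 2 + ((D : ℤ) - A - C) * x * y + (C : ℤ) * y ^ 2 : ℤ) : ℝ) := by
    intro x y
    rw [hns]
    simp only [Complex.add_re, Complex.add_im, Complex.mul_re, Complex.mul_im, Complex.intCast_re,
      Complex.intCast_im, zero_mul, sub_zero, add_zero]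
    push_cast
    rw [← hA, ← hC, ← hD]
    ring
  set R := Real.sqrt q with hR
  have hqpos : (0 : ℝ) < q := by exact_mod_cast hq.pos
  have hR0 : 0 < R := Real.sqrt_pos.2 hqpos
  obtain ⟨a, b, h3⟩ := (hmem _).1 (hs _ hm1)
  obtain ⟨c, d, h4⟩ := (hmem _).1 (hs _ hm2)
  have h3r := congrArg Complex.re h3
  have h3i := congrArg Complex.im h3
  have h4r := congrArg Complex.re h4
  have h4i := congrArg Complex.im h4
  simp only [Complex.add_re, Complex.add_im, Complex.mul_re, Complex.mul_im, Complex.intCast_re,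
    Complex.intCast_im, zero_mul, sub_zero, add_zero, sq_re, sq_im, zero_sub, zero_add] at h3r h3i h4r h4i
  rw [← hR] at h3r h3i h4r h4i
  have h1ne : 0 < h₁.re * h₁.re + h₁.im * h₁.im := by
    rcases eq_or_ne h₁ 0 with h | h
    · rw [h] at hVe
      simp at hVe
      linarith
    · have := Complex.normSq_pos.2 h
      rwa [Complex.normSq_apply] at this
  have h2ne : 0 < h₂.re * h₂.re + h₂.im * h₂.im := by
    rcases eq_or_ne h₂ 0 with h | h
    · rw [h] at hVe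
      simp at hVe
      linarith
    · have := Complex.normSq_pos.2 h
      rwa [Complex.normSq_apply] at this
  have k1 : (b : ℝ) * V = R * (h₁.re * h₁.re + h₁.im * h₁.im) := by
    rw [hVe]
    linear_combination (-h₁.re) * h3i + h₁.im * h3r
  have k2 : (-c : ℝ) * V = R * (h₂.re * h₂.re + h₂.im * h₂.im) := by
    rw [hVe]
    linear_combination (-h₂.re) * h4i + h₂.im * h4r
  have hb : (b : ℝ) ≠ 0 := by
    intro h
    rw [h, zero_mul] at k1
    have := mul_pos hR0 h1ne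
    linarith
  -- `s ^ 2 = -q`
  have hsq : sq q * (sq q * h₁) = -(q : ℂ) * h₁ := by
    rw [← mul_assoc, sq_mul_self]
  have h5 : ((a ^ 2 + b * c : ℤ) : ℝ) = ((-q : ℤ) : ℝ) ∧ ((b * (a + d) : ℤ) : ℝ) = ((0 : ℤ) : ℝ) := by
    have h6 : (((a ^ 2 + b * c : ℤ) : ℝ) : ℂ) * h₁ + (((b * (a + d) : ℤ) : ℝ) : ℂ) * h₂ =
        (((-q : ℤ) : ℝ) : ℂ) * h₁ + (((0 : ℤ) : ℝ) : ℂ) * h₂ := by
      rw [h3] at hsq
      push_cast
      have e1 : sq q * ((a : ℂ) * h₁ + b * h₂) = a * (sq q * h₁) + b * (sq q * h₂) := by ring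
      rw [e1, h3, h4] at hsq
      linear_combination hsq
    exact basis_unique hV.ne' h6
  have e4 : a ^ 2 + b * c = -q := by exact_mod_cast h5.1
  have hd : d = -a := by
    have h6 : b * (a + d) = 0 := by exact_mod_cast h5.2
    have hb' : b ≠ 0 := by exact_mod_cast hb
    have := (mul_eq_zero.1 h6).resolve_left hb'
    omega
  have hVκ : 0 < κ * V := mul_pos hκ hV
  have hA0 : (0 : ℝ) < A := by rw [← hA]; positivity
  have hC0 : (0 : ℝ) < C := by rw [← hC]; positivity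
  obtain ⟨a', b', c', g1, g2, g3, g4⟩ := fz_int (q := q) (A := (A : ℤ)) (B := (D : ℤ) - A - C)
    (C := (C : ℤ)) (a := a) (b := b) (c := c) (lam := R / (κ * V)) hq hq4 (div_pos hR0 hVκ)
    (by exact_mod_cast hA0) (by exact_mod_cast hC0)
    (by
      rw [div_mul_eq_mul_div, eq_div_iff hVκ.ne']
      push_cast
      rw [← hA]
      linear_combination κ * k1)
    (by
      rw [div_mul_eq_mul_div, eq_div_iff hVκ.ne']
      push_cast
      rw [← hA, ← hC, ← hD]
      rw [hd] at h4r h4i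
      push_cast at h4r h4i
      rw [hVe]
      linear_combination (-κ * h₂.re) * h3i + (κ * h₂.im) * h3r + (-κ * h₁.re) * h4i + (κ * h₁.im) * h4r)
    (by
      rw [div_mul_eq_mul_div, eq_div_iff hVκ.ne']
      push_cast
      rw [← hC]
      linear_combination κ * k2)
    e4
    (by
      refine fz_gcd ?_
      intro p hp d1 d2 d3
      obtain ⟨x, hx, n, hn, he⟩ := hprim p hp
      obtain ⟨u, v, rfl⟩ := (hmem _).1 hx
      rw [hval] at he
      have he' : (A : ℤ) * u ^ 2 + ((D : ℤ) - A - C) * u * v + (C : ℤ) * v ^ 2 = (n : ℤ) := by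
        exact_mod_cast he
      apply hn
      have : (p : ℤ) ∣ (n : ℤ) := by
        rw [← he']
        exact dvd_add (dvd_add (d1.mul_right _) ((d2.mul_right _).mul_right _)) (d3.mul_right _)
      exact_mod_cast this)
  refine ⟨a', b', c', g1, g2, g3, fun u v => ?_⟩
  obtain ⟨x, y, hxy⟩ := g4 u v
  refine ⟨x * h₁ + y * h₂, (hmem _).2 ⟨x, y, rfl⟩, ?_⟩
  rw [hval, hxy]

end Pool.Agent.SS.HB
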