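import Mathlib
import Pool.Agent.Work.MP_a5099b_nt.H.HDefs
import Pool.Agent.Work.MP_a5099b_nt.H.Bas
import Pool.Agent.Work.MP_a5099b_nt.H.Cov
import Pool.Agent.Work.MP_a5099b_nt.H.Sand

/-!
# Module HomLat (size M): the homomorphisms form a lattice

* `homL_lat`: let `x ∈ homL L M`, `x ≠ 0`, and `s = sq q` a multiplier of `L`. Then `x`, `x s ∈ homL L M` and they are linearly independent over the reals, so `homL L M ≥ ℤ x + ℤ x s`, a
  lattice (`isLat_of_basis`). For `w ∈ L`, `w ≠ 0`, `homL L M ≤ w⁻¹ • M`, a lattice. `isLat_between`.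
* `homL_sq`: `s (x z) = x (s z)`.
* `homL_deg`: `x • L ≤ M` (`x ≠ 0`), `exists_sup`, `cov_sup`, `cov_smul`; for `x = 0` take `n = 0`.
* `homL_sup`: `sup_of_cov`.
-/

set_option autoImplicit false

namespace Pool.Agent.SS.HB

open Polynomial
open Pool.Agent.Work.CM
open scoped Pointwise

private theorem smul_le {L M : Submodule ℤ ℂ} {x : ℂ} (hx0 : x ≠ 0) (hx : x ∈ homL L M) :
    x • L ≤ M := by
  intro z hz
  rw [mem_smul' hx0] at hz
  have h1 := mem_homL.1 hx _ hz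
  rwa [mul_inv_cancel_left₀ hx0] at h1

theorem homL_lat {q : ℕ} (hq : q.Prime) {L M : Submodule ℤ ℂ} (hL : IsLat L) (hM : IsLat M)
    (hs : HasSq q L) {x : ℂ} (hx : x ≠ 0) (hx' : x ∈ homL L M) : IsLat (homL L M) := by
  have hN : ∀ z, z ∈ Submodule.span ℤ {x, x * sq q} ↔
      ∃ a b : ℤ, z = a * x + b * (x * sq q) := by
    intro z
    rw [Submodule.mem_span_pair]
    constructor
    · rintro ⟨a, b, h⟩
      exact ⟨a, b, by rw [← h, zsmul_eq_mul, zsmul_eq_mul]⟩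
    · rintro ⟨a, b, h⟩
      exact ⟨a, b, by rw [h, zsmul_eq_mul, zsmul_eq_mul]⟩
  have hi : (starRingEnd ℂ x * (x * sq q)).im ≠ 0 := by
    have e : starRingEnd ℂ x * (x * sq q) = ((Complex.normSq x : ℝ) : ℂ) * sq q := by
      rw [← Complex.mul_conj]
      ring
    rw [e, Complex.im_ofReal_mul, sq_im]
    apply mul_ne_zero
    · rw [Complex.normSq_eq_norm_sq]
      exact pow_ne_zero _ (norm_ne_zero_iff.2 hx)
    · exact (Real.sqrt_pos.2 (by exact_mod_cast hq.pos)).ne'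
  have hlat := isLat_of_basis hi hN
  obtain ⟨w, w₂, hw, hb⟩ := exists_basis hL
  have hw0 : w ≠ 0 := by
    rintro rfl
    simp at hw
  have hwL : w ∈ L := (hb w).2 ⟨1, 0, by simp⟩
  refine isLat_between hlat (hM.smul (inv_ne_zero hw0)) ?_ ?_
  · rw [Submodule.span_le]
    rintro z (rfl | rfl)
    · exact hx'
    · intro z hz
      rw [mul_assoc]
      exact hx' _ (hs z hz)
  · intro y hy
    rw [mem_smul' (inv_ne_zero hw0), inv_inv, mul_comm]
    exact hy w hwL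

theorem homL_sq {q : ℕ} {L M : Submodule ℤ ℂ} (hs : HasSq q L) : HasSq q (homL L M) := by
  intro y hy z hz
  have e : sq q * y * z = y * (sq q * z) := by ring
  rw [e]
  exact hy _ (hs z hz)

theorem homL_deg {L M : Submodule ℤ ℂ} (hL : IsLat L) (hM : IsLat M) {x : ℂ}
    (hx : x ∈ homL L M) : ∃ n : ℕ, ‖x‖ ^ 2 * cov L = n * cov M := by
  by_cases hx0 : x = 0
  · exact ⟨0, by rw [hx0]; simp⟩
  · obtain ⟨n, -, h⟩ := exists_sup (hL.smul hx0) hM (smul_le hx0 hx)
    have h1 := cov_sup h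
    rw [cov_smul hL hx0] at h1
    exact ⟨n, h1⟩

theorem homL_sup {L M : Submodule ℤ ℂ} (hL : IsLat L) (hM : IsLat M) {x : ℂ} (hx0 : x ≠ 0)
    (hx : x ∈ homL L M) {n : ℕ} (h : ‖x‖ ^ 2 * cov L = n * cov M) : Sup n (x • L) M := by
  refine sup_of_cov (hL.smul hx0) hM (smul_le hx0 hx) ?_
  rw [cov_smul hL hx0]
  exact h

end Pool.Agent.SS.HB
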