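import Mathlib
import Pool.Agent.Work.MP_a5099b_nt.H.HDefs
import Pool.Agent.Work.MP_a5099b_nt.H.Bas
import Pool.Agent.Work.MP_a5099b_nt.H.Gen

/-!
# Module PrimVal (size M): an element `u` of `L` which generates a submodule of index prime to `p`

`ω` generator of the multipliers of `L` (`IsGen`), `w₁, w₂` a basis (`exists_basis`), `ω w₁ = a w₁ + b w₂`, `ω w₂ = c w₁ + d w₂` with integers. CLAIM: `p` does not divide all of
`b`, `c`, `d - a`: otherwise `(ω - a)/p` maps `w₁`, `w₂` into `L`, so it is a multiplier, `= x + y ω` with integers, i.e. `ω (1 - p y) = a + p x` and `1 - p y ≠ 0`, so `ω` is real, but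
`ω = sq q` or `(1 + sq q)/2` is not real. For `u = x w₁ + y w₂`: `ω u = (a x + c y) w₁ + (b x + d y) w₂`, so
`conj u * (ω u)` has imaginary part `N(x,y) * Im (conj w₁ w₂)`, `N(x,y) = x (b x + d y) - y (a x + c y) = b x² + (d - a) x y - c y²`. One of `N(1,0) = b`, `N(0,1) = -c`,
`N(1,1) = b + d - a - c` is prime to `p`; take this `u`. And `Im (conj u * ω u) = ‖u‖² Im ω`, `cov L = Im (conj w₁ w₂)` (`cov_basis`), so `‖u‖² Im ω = N cov L`, `N > 0` because `Im ω > 0`: `n = N`.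
`hall`: for `z ∈ L` the number `n z` is in `ℤ u + ℤ ω u`: Cramer's rule: with `u = x w₁ + y w₂`, `ω u = x' w₁ + y' w₂`, `n = x y' - y x'`: `n w₁ = y' u - y (ω u)`, `n w₂ = - x' u + x (ω u)`.
-/

set_option autoImplicit false

namespace Pool.Agent.SS.HB

open Polynomial
open Pool.Agent.Work.CM
open scoped Pointwise

theorem prim_val {q : ℕ} (hq : q.Prime) {L : Submodule ℤ ℂ} (h : IsLat L) {ω : ℂ}
    (hω : IsGen q L ω) {p : ℕ} (hp : p.Prime) :
    ∃ u ∈ L, u ≠ 0 ∧ ∃ n : ℕ, 0 < n ∧ ¬ p ∣ n ∧ ‖u‖ ^ 2 * ω.im = n * cov L ∧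
      ∀ z ∈ L, ∃ x y : ℤ, (n : ℂ) * z = (x + y * ω) * u := by
  obtain ⟨w₁, w₂, hV, hL⟩ := exists_basis h
  have hw₁ : w₁ ∈ L := (hL _).2 ⟨1, 0, by simp⟩
  have hw₂ : w₂ ∈ L := (hL _).2 ⟨0, 1, by simp⟩
  obtain ⟨a, b, hab⟩ := (hL _).1 (hω.mul _ hw₁)
  obtain ⟨c, d, hcd⟩ := (hL _).1 (hω.mul _ hw₂)
  have hωim : 0 < ω.im := by
    have hsq : 0 < (sq q).im := by
      rw [sq_im]
      exact Real.sqrt_pos.2 (by exact_mod_cast hq.pos)
    rcases hω.eq with e | e
    · rw [e]; exact hsq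
    · rw [e]
      have : ((1 + sq q) / 2).im = (sq q).im / 2 := by
        have : ((1 + sq q) / 2 : ℂ) = ((1 / 2 : ℝ) : ℂ) * (1 + sq q) := by push_cast; ring
        rw [this, Complex.im_ofReal_mul, Complex.add_im, Complex.one_im]
        ring
      rw [this]; linarith
  have hcov : cov L = (starRingEnd ℂ w₁ * w₂).im := by
    rw [cov_basis hV.ne' hL, abs_of_pos hV]
  have hN : ∃ x y : ℤ, ¬ (p : ℤ) ∣ x * (b * x + d * y) - y * (a * x + c * y) := by
    by_contra hcon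
    push Not at hcon
    have h1 : (p : ℤ) ∣ b := by simpa using hcon 1 0
    have h2 : (p : ℤ) ∣ c := by
      have := hcon 0 1
      simpa using this
    have h3 : (p : ℤ) ∣ d - a := by
      have := hcon 1 1
      have e : d - a = (1 * (b * 1 + d * 1) - 1 * (a * 1 + c * 1)) - b + c := by ring
      rw [e]
      exact dvd_add (dvd_sub this h1) h2
    obtain ⟨b', hb'⟩ := h1
    obtain ⟨c', hc'⟩ := h2
    obtain ⟨d', hd'⟩ := h3
    have hpC : (p : ℂ) ≠ 0 := by exact_mod_cast hp.ne_zero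
    have hmul : IsMul L ((ω - a) / p) := by
      intro z hz
      obtain ⟨x, y, rfl⟩ := (hL z).1 hz
      refine (hL _).2 ⟨y * c', x * b' + y * d', ?_⟩
      have hbC : (b : ℂ) = p * b' := by exact_mod_cast hb'
      have hcC : (c : ℂ) = p * c' := by exact_mod_cast hc'
      have hdC : (d : ℂ) = a + p * d' := by
        have : d = a + p * d' := by linarith
        exact_mod_cast this
      have e : (ω - a) / p * (x * w₁ + y * w₂)
          = (x * (ω * w₁ - a * w₁) + y * (ω * w₂ - a * w₂)) / p := by ring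
      rw [e, hab, hcd, hbC, hcC, hdC]
      field_simp
      push_cast
      ring
    obtain ⟨x, y, hxy⟩ := hω.gen _ hmul
    have h4 : ω - a = p * (x + y * ω) := by
      rw [← hxy]; field_simp
    have h5 := congrArg Complex.im h4
    have h6 : ω.im = p * (y * ω.im) := by
      have e1 : (ω - (a : ℂ)).im = ω.im := by simp
      have e2 : ((p : ℂ) * ((x : ℂ) + (y : ℂ) * ω)).im = p * (y * ω.im) := by
        simp
      rw [e1, e2] at h5
      exact h5
    have h7 : (1 : ℝ) = p * y := by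
      have : ω.im * 1 = ω.im * (p * y) := by linarith
      exact mul_left_cancel₀ hωim.ne' this
    have h8 : (1 : ℤ) = p * y := by exact_mod_cast h7
    have h9 : (p : ℤ) ∣ 1 := ⟨y, h8⟩
    have h10 : p ∣ 1 := by exact_mod_cast h9
    exact hp.one_lt.ne' (Nat.dvd_one.1 h10)
  obtain ⟨x, y, hxy⟩ := hN
  have hωu : ω * ((x : ℂ) * w₁ + y * w₂)
      = ((a * x + c * y : ℤ) : ℂ) * w₁ + ((b * x + d * y : ℤ) : ℂ) * w₂ := by
    have e : ω * ((x : ℂ) * w₁ + y * w₂) = x * (ω * w₁) + y * (ω * w₂) := by ring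
    rw [e, hab, hcd]
    push_cast
    ring
  have him : ∀ x' y' : ℤ, (starRingEnd ℂ ((x : ℂ) * w₁ + y * w₂) *
      ((x' : ℂ) * w₁ + (y' : ℂ) * w₂)).im
      = ((x * y' - y * x' : ℤ) : ℝ) * (starRingEnd ℂ w₁ * w₂).im := by
    intro x' y'
    simp only [map_add, map_mul, Complex.mul_im, Complex.add_im, Complex.add_re, Complex.mul_re,
      Complex.conj_re, Complex.conj_im, Complex.intCast_re, Complex.intCast_im, map_intCast]
    push_cast
    ring
  have hkey : ‖(x : ℂ) * w₁ + y * w₂‖ ^ 2 * ω.im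
      = ((x * (b * x + d * y) - y * (a * x + c * y) : ℤ) : ℝ) * cov L := by
    rw [hcov, ← him, ← hωu]
    have e : starRingEnd ℂ ((x : ℂ) * w₁ + y * w₂) * (ω * ((x : ℂ) * w₁ + y * w₂))
        = ((‖(x : ℂ) * w₁ + y * w₂‖ ^ 2 : ℝ) : ℂ) * ω := by
      have := Complex.conj_mul' ((x : ℂ) * w₁ + y * w₂)
      push_cast
      rw [← this]
      ring
    rw [e, Complex.im_ofReal_mul]
  have hcovpos : 0 < cov L := by rw [hcov]; exact hV
  have hu0 : (x : ℂ) * w₁ + y * w₂ ≠ 0 := by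
    intro h0
    rw [h0, norm_zero] at hkey
    have h1 : ((x * (b * x + d * y) - y * (a * x + c * y) : ℤ) : ℝ) = 0 := by
      have h2 : ((x * (b * x + d * y) - y * (a * x + c * y) : ℤ) : ℝ) * cov L = 0 := by
        rw [← hkey]; ring
      exact (mul_eq_zero.1 h2).resolve_right hcovpos.ne'
    have h3 : x * (b * x + d * y) - y * (a * x + c * y) = 0 := by exact_mod_cast h1
    apply hxy
    rw [h3]
    exact dvd_zero _
  have hNpos : 0 < x * (b * x + d * y) - y * (a * x + c * y) := by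
    have h1 : 0 < ‖(x : ℂ) * w₁ + y * w₂‖ ^ 2 * ω.im :=
      mul_pos (pow_pos (norm_pos_iff.2 hu0) 2) hωim
    rw [hkey] at h1
    have h2 : (0 : ℝ) < ((x * (b * x + d * y) - y * (a * x + c * y) : ℤ) : ℝ) :=
      pos_of_mul_pos_left h1 hcovpos.le
    exact_mod_cast h2
  obtain ⟨n, hn⟩ := Int.eq_ofNat_of_zero_le hNpos.le
  rw [hn] at hNpos hxy hkey
  refine ⟨(x : ℂ) * w₁ + y * w₂, (hL _).2 ⟨x, y, rfl⟩, hu0, n, by exact_mod_cast hNpos,
    by exact_mod_cast hxy, by rw [hkey]; simp, ?_⟩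
  intro z hz
  obtain ⟨r, s, rfl⟩ := (hL z).1 hz
  refine ⟨r * (b * x + d * y) - s * (a * x + c * y), s * x - r * y, ?_⟩
  have hnC : (n : ℂ) = x * (b * x + d * y) - y * (a * x + c * y) := by
    have : ((n : ℤ) : ℂ) = ((x * (b * x + d * y) - y * (a * x + c * y) : ℤ) : ℂ) := by
      rw [hn]
    push_cast at this
    exact this
  have e : ((r * (b * x + d * y) - s * (a * x + c * y) : ℤ) + (s * x - r * y : ℤ) * ω : ℂ)
      * ((x : ℂ) * w₁ + y * w₂)
      = ((r * (b * x + d * y) - s * (a * x + c * y) : ℤ) : ℂ) * ((x : ℂ) * w₁ + y * w₂)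
        + ((s * x - r * y : ℤ) : ℂ) * (ω * ((x : ℂ) * w₁ + y * w₂)) := by ring
  rw [e, hωu, hnC]
  push_cast
  ring

end Pool.Agent.SS.HB
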