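import Mathlib
import Pool.Agent.Work.MP_a5099b_nt.H.HDefs
import Pool.Agent.Work.MP_a5099b_nt.H.Gen
import Pool.Agent.Work.MP_a5099b_nt.H.PrimVal
import Pool.Agent.Work.MP_a5099b_nt.H.Cov

/-!
# Module HomPrim (size S-M): a homomorphism of degree prime to `p`

Let `ω` be a generator of the multipliers of `L` (`exists_gen`); it is a generator for `M` as well (`hmul`). `prim_val` for `L`: `u`, `n`; for `M`: `v`, `m`. Put `x = n v / u`. For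
`z ∈ L`: `n z = (a + b ω) u`, so `x z = (a + b ω) v ∈ M`. `‖x‖² cov L = n² ‖v‖² cov L / ‖u‖²`, with `‖v‖² Im ω = m cov M` and `‖u‖² Im ω = n cov L` this is `n m cov M`. `n m` is prime to `p`.
-/

set_option autoImplicit false

namespace Pool.Agent.SS.HB

open Polynomial
open Pool.Agent.Work.CM
open scoped Pointwise

theorem hom_prim {q : ℕ} (hq : q.Prime) (hq4 : q % 4 = 3) {L M : Submodule ℤ ℂ} (hL : IsLat L)
    (hM : IsLat M) (hs : HasSq q L) (hmul : ∀ μ, IsMul M μ ↔ IsMul L μ) {p : ℕ} (hp : p.Prime) :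
    ∃ x ∈ homL L M, x ≠ 0 ∧ ∃ n : ℕ, 0 < n ∧ ¬ p ∣ n ∧ ‖x‖ ^ 2 * cov L = n * cov M := by
  obtain ⟨ω, hω⟩ := exists_gen hq hq4 hL hs
  have hω' : IsGen q M ω :=
    ⟨(hmul ω).2 hω.mul, hω.eq, fun μ hμ => hω.gen μ ((hmul μ).1 hμ)⟩
  obtain ⟨u, -, hu0, n, hn0, hpn, hun, hall⟩ := prim_val hq hL hω hp
  obtain ⟨v, hv, hv0, m, hm0, hpm, hvm, -⟩ := prim_val hq hM hω' hp
  have hnC : (n : ℂ) ≠ 0 := by exact_mod_cast hn0.ne'
  refine ⟨(n : ℂ) * v / u, ?_, div_ne_zero (mul_ne_zero hnC hv0) hu0, n * m,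
    Nat.mul_pos hn0 hm0, ?_, ?_⟩
  · rw [mem_homL]
    intro z hz
    obtain ⟨a, b, hab⟩ := hall z hz
    have e : (n : ℂ) * v / u * z = (a : ℂ) * v + (b : ℂ) * (ω * v) := by
      have : (n : ℂ) * v / u * z = v / u * ((n : ℂ) * z) := by ring
      rw [this, hab]
      field_simp
    rw [e, ← zsmul_eq_mul, ← zsmul_eq_mul]
    exact M.add_mem (M.smul_mem a hv) (M.smul_mem b (hω'.mul v hv))
  · rw [hp.dvd_mul]
    exact not_or.2 ⟨hpn, hpm⟩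
  · have hu' : ‖u‖ ^ 2 ≠ 0 := pow_ne_zero _ (norm_ne_zero_iff.2 hu0)
    rw [norm_div, norm_mul, Complex.norm_natCast, div_pow, mul_pow, Nat.cast_mul]
    rw [div_mul_eq_mul_div, div_eq_iff hu']
    calc (n : ℝ) ^ 2 * ‖v‖ ^ 2 * cov L = n * ‖v‖ ^ 2 * (n * cov L) := by ring
      _ = n * ‖v‖ ^ 2 * (‖u‖ ^ 2 * ω.im) := by rw [hun]
      _ = n * (‖v‖ ^ 2 * ω.im) * ‖u‖ ^ 2 := by ring
      _ = n * m * cov M * ‖u‖ ^ 2 := by rw [hvm]; ring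

end Pool.Agent.SS.HB
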