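import Mathlib
import Pool.Agent.Work.MP_a5099b_nt.H.HDefs
import Pool.Agent.Work.MP_a5099b_nt.H.HomPrim
import Pool.Agent.Work.MP_a5099b_nt.H.HomLat
import Pool.Agent.Work.MP_a5099b_nt.H.FormZ

/-!
# Module HomForm (size S): the degree form of the homomorphisms

`form_z` for `H = homL L M` and `κ = cov L / cov M` (`cov_pos`): `hom_prim`, `homL_lat`, `homL_sq`, `homL_deg`; for `n = a u² + b u v + c v² > 0` the `x` found is not zero, `homL_sup`.
-/

set_option autoImplicit false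

namespace Pool.Agent.SS.HB

open Polynomial
open Pool.Agent.Work.CM
open scoped Pointwise

theorem hom_form {q : ℕ} (hq : q.Prime) (hq4 : q % 4 = 3) {L M : Submodule ℤ ℂ} (hL : IsLat L)
    (hM : IsLat M) (hs : HasSq q L) (hmul : ∀ μ, IsMul M μ ↔ IsMul L μ) :
    ∃ a b c : ℤ, 0 < a ∧ b ^ 2 - 4 * a * c = -4 * q ∧ Int.gcd (Int.gcd a b) c = 1 ∧
      ∀ (u v : ℤ) (n : ℕ), 0 < n → (n : ℤ) = a * u ^ 2 + b * u * v + c * v ^ 2 →
        ∃ x : ℂ, x ≠ 0 ∧ Sup n (x • L) M := by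
  have hcL := cov_pos hL
  have hcM := cov_pos hM
  have key : ∀ (x : ℂ) (n : ℕ), cov L / cov M * ‖x‖ ^ 2 = n ↔ ‖x‖ ^ 2 * cov L = n * cov M := by
    intro x n
    constructor
    · intro h
      rw [← h]
      field_simp
    · intro h
      rw [div_mul_eq_mul_div, div_eq_iff hcM.ne', mul_comm, h]
  obtain ⟨x₀, hx₀, hx₀0, -⟩ := hom_prim hq hq4 hL hM hs hmul (p := 2) Nat.prime_two
  have hH := homL_lat hq hL hM hs hx₀0 hx₀
  obtain ⟨a, b, c, ha, hd, hg, hf⟩ := form_z (κ := cov L / cov M) hq hq4 hH (homL_sq hs)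
    (div_pos hcL hcM)
    (fun x hx => by
      obtain ⟨n, hn⟩ := homL_deg hL hM hx
      exact ⟨n, (key x n).2 hn⟩)
    (fun p hp => by
      obtain ⟨x, hx, -, n, -, hpn, hn⟩ := hom_prim hq hq4 hL hM hs hmul hp
      exact ⟨x, hx, n, hpn, (key x n).2 hn⟩)
  refine ⟨a, b, c, ha, hd, hg, ?_⟩
  intro u v n hn hnf
  obtain ⟨x, hx, hxe⟩ := hf u v
  rw [← hnf] at hxe
  have hxe' : cov L / cov M * ‖x‖ ^ 2 = n := by rw [hxe]; simp
  have hx0 : x ≠ 0 := by
    rintro rfl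
    rw [norm_zero] at hxe'
    have : (n : ℝ) = 0 := by rw [← hxe']; simp
    have : n = 0 := by exact_mod_cast this
    omega
  exact ⟨x, hx0, homL_sup hL hM hx0 hx ((key x n).1 hxe')⟩

end Pool.Agent.SS.HB
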