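import Mathlib
import Pool.Agent.Work.MP_a5099b_nt.Defs

/-!
# Module Jac (size S-M): `-q` is a square modulo `l`

`4 a l = (2 a u + b v)² + 4 q v²`. `l` is prime and `l > a > 0`, `l > q`, `l ≠ 2`. If `l ∣ v` then `l ∣ 2 a u`, so `l ∣ u` (`l` is odd and `l > a > 0`), so `l² ∣ a u² + b u v + c v² = l`, contradiction. So `v` is
invertible mod `l` and `-q = ((2 a u + b v)/(2 v))²` in `ZMod l`, `-q ≠ 0` in `ZMod l` because `0 < q < l`. So `legendreSym l (-q) = 1` (`legendreSym.eq_one_iff`) and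
`jacobiSym (-q) l = legendreSym l (-q)` (`jacobiSym.legendreSym.to_jacobiSym`).
-/

set_option autoImplicit false

namespace Pool.Agent.SS.HB

open Polynomial
open Pool.Agent.Work.CM
open scoped Pointwise

theorem jac_one {q l : ℕ} (hq : q.Prime) (hl : l.Prime) {a b c u v : ℤ} (ha : 0 < a)
    (hd : b ^ 2 - 4 * a * c = -4 * q) (h : (l : ℤ) = a * u ^ 2 + b * u * v + c * v ^ 2)
    (hal : a < l) (hql : q < l) (hl2 : l ≠ 2) : jacobiSym (-q) l = 1 := by
  have : Fact l.Prime := ⟨hl⟩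
  have key : 4 * a * l = (2 * a * u + b * v) ^ 2 + 4 * q * v ^ 2 := by
    linear_combination 4 * a * h - v ^ 2 * hd
  have hlz : Prime (l : ℤ) := Nat.prime_iff_prime_int.mp hl
  have hv : ¬ (l : ℤ) ∣ v := by
    rintro ⟨w, rfl⟩
    have h1 : (l : ℤ) ∣ a * u ^ 2 := by
      refine ⟨1 - b * u * w - c * l * w ^ 2, ?_⟩
      linear_combination h * (-1)
    rcases hlz.dvd_or_dvd h1 with h2 | h2
    · have := Int.le_of_dvd ha h2
      omega
    · obtain ⟨z, rfl⟩ := hlz.dvd_of_dvd_pow h2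
      have h3 : (l : ℤ) * 1 = l * (l * (a * z ^ 2 + b * z * w + c * w ^ 2)) := by
        linear_combination h
      have h4 := mul_left_cancel₀ hlz.ne_zero h3
      have h5 : (l : ℤ) ∣ 1 := ⟨_, h4⟩
      exact hlz.not_isUnit (isUnit_of_dvd_one h5)
  have hv' : (v : ZMod l) ≠ 0 := by
    intro h0
    exact hv ((ZMod.intCast_zmod_eq_zero_iff_dvd v l).mp h0)
  have h2' : (2 : ZMod l) ≠ 0 := by
    intro h0
    have : ((2 : ℕ) : ZMod l) = 0 := by exact_mod_cast h0
    rw [ZMod.natCast_eq_zero_iff] at this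
    exact hl2 ((Nat.prime_dvd_prime_iff_eq hl Nat.prime_two).mp this)
  have hq0 : ((-(q : ℤ) : ℤ) : ZMod l) ≠ 0 := by
    intro h0
    rw [ZMod.intCast_zmod_eq_zero_iff_dvd, dvd_neg] at h0
    have := Int.natCast_dvd_natCast.mp h0
    have := Nat.le_of_dvd hq.pos this
    omega
  have hk : (0 : ZMod l) = (2 * a * u + b * v) ^ 2 + 4 * q * v ^ 2 := by
    have := congrArg (Int.cast : ℤ → ZMod l) key
    push_cast at this
    rw [← this]
    simp
  have hsq : IsSquare ((-(q : ℤ) : ℤ) : ZMod l) := by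
    refine ⟨(2 * a * u + b * v) / (2 * v), ?_⟩
    push_cast
    field_simp
    linear_combination hk
  rw [← jacobiSym.legendreSym.to_jacobiSym]
  exact (legendreSym.eq_one_iff l hq0).mpr hsq

end Pool.Agent.SS.HB
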