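import Mathlib
import Pool.Agent.Work.MP_a5099b_nt.Defs

/-!
# Module Local (size M): the form represents all residue classes prime to `8 m`

`F = a x² + b x y + c y²`, `b² - 4 a c = -4 q`. Say `F` represents `r` modulo `N` if there are integers with `F(x,y) = r mod N`.
(1) `N = p` an odd prime, `p ≠ q`, any `r`: over the field `ZMod p`. If `a ≠ 0` there are `X, y` with `X² + 4 q y² = 4 a r` (`FiniteField.exists_root_sum_quadratic` with `X² - 4 a r` and
`4 q X²`, both of degree two as `4 q ≠ 0`), `x = (X - b y)/(2 a)` gives `4 a F(x,y) = (2 a x + b y)² + 4 q y² = 4 a r`. If `a = 0`, `c ≠ 0`: symmetric. If `a = c = 0`: `b² = -4q ≠ 0`, `x = r / b`, `y = 1`.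
(2) `N = 8`, `r` odd: `b = 2 b'` is even (`b² = 4 (a c - q)`), `b'² - a c = -q`; over `ZMod 8` by `decide`: for all `a, b', c` with `b'² - a c ∈ {-3, -7}` (`q = 3` or `7` mod 8), `a` and `c` not both
even (`gcd(a, b, c) = 1`), all odd `r`, there are `x, y` with `a x² + 2 b' x y + c y² = r` (split the `decide` if it is slow, e.g. `∀ a b c, ...` over `Fin 8` with `List`/`Finset` filters).
(3) Chinese remainder: if `N₁`, `N₂` are coprime and `F` represents `r` modulo both, it represents `r` modulo `N₁ N₂` (choose `x`, `y` congruent to the two solutions; `Int.ModEq`, `Int.emod_emod_of_dvd`,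
`Int.modEq_and_modEq_iff_modEq_mul`). Induction over the prime factors of the squarefree number `m` (e.g. `Nat.recOnPosPrimePosCoprime`, or strong induction with `m = p m'`,
`p` and `m'` coprime as `m` is squarefree).
-/

set_option autoImplicit false

namespace Pool.Agent.SS.HB

open Polynomial
open Pool.Agent.Work.CM
open scoped Pointwise

private theorem loc8 : ∀ a b c : ZMod 8, (b ^ 2 - a * c = 5 ∨ b ^ 2 - a * c = 1) →
    (a.val % 2 = 1 ∨ c.val % 2 = 1) → ∀ r : ZMod 8, r.val % 2 = 1 →
    ∃ x y : ZMod 8, a * x ^ 2 + 2 * b * x * y + c * y ^ 2 = r := by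
  decide +kernel

private def Rp (a b c r : ℤ) (N : ℕ) : Prop :=
  ∃ x y : ℤ, a * x ^ 2 + b * x * y + c * y ^ 2 ≡ r [ZMOD N]

private theorem rp_of {a b c r : ℤ} {N : ℕ} (x y : ZMod N) [NeZero N]
    (h : (a : ZMod N) * x ^ 2 + b * x * y + c * y ^ 2 = r) : Rp a b c r N := by
  refine ⟨x.val, y.val, ?_⟩
  rw [← ZMod.intCast_eq_intCast_iff]
  push_cast
  rw [ZMod.natCast_zmod_val, ZMod.natCast_zmod_val]
  exact h

private theorem rp_mul {a b c r : ℤ} {M N : ℕ} (hc : Nat.Coprime M N) (h1 : Rp a b c r M)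
    (h2 : Rp a b c r N) : Rp a b c r (M * N) := by
  obtain ⟨x1, y1, h1⟩ := h1
  obtain ⟨x2, y2, h2⟩ := h2
  obtain ⟨u, v, huv⟩ := Nat.isCoprime_iff_coprime.mpr hc
  have hM : ∀ s t : ℤ, t * (u * M) + s * (v * N) ≡ s [ZMOD M] := fun s t => by
    rw [Int.modEq_iff_dvd]
    refine ⟨s * u - t * u, ?_⟩
    linear_combination (-s) * huv
  have hN : ∀ s t : ℤ, t * (u * M) + s * (v * N) ≡ t [ZMOD N] := fun s t => by
    rw [Int.modEq_iff_dvd]
    refine ⟨t * v - s * v, ?_⟩
    linear_combination (-t) * huv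
  refine ⟨x2 * (u * M) + x1 * (v * N), y2 * (u * M) + y1 * (v * N), ?_⟩
  have e : ((M * N : ℕ) : ℤ) = (M : ℤ) * N := by push_cast; ring
  rw [e, ← Int.modEq_and_modEq_iff_modEq_mul (by simpa using hc)]
  constructor
  · refine Int.ModEq.trans ?_ h1
    exact (((((hM _ _).pow 2).mul_left a).add (((hM _ _).mul_left b).mul (hM _ _))).add
      (((hM _ _).pow 2).mul_left c))
  · refine Int.ModEq.trans ?_ h2
    exact (((((hN _ _).pow 2).mul_left a).add (((hN _ _).mul_left b).mul (hN _ _))).add
      (((hN _ _).pow 2).mul_left c))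

private theorem rp_sq {p : ℕ} [Fact p.Prime] (hp2 : p ≠ 2) {q a b c r : ZMod p} (hq : q ≠ 0)
    (ha : a ≠ 0) (hd : b ^ 2 - 4 * a * c = -4 * q) :
    ∃ x y : ZMod p, a * x ^ 2 + b * x * y + c * y ^ 2 = r := by
  have h2 : (2 : ZMod p) ≠ 0 := by
    intro h0
    have h1 : ((2 : ℕ) : ZMod p) = 0 := by exact_mod_cast h0
    rw [ZMod.natCast_eq_zero_iff] at h1
    exact hp2 ((Nat.prime_dvd_prime_iff_eq Fact.out Nat.prime_two).mp h1)
  have h4 : (4 : ZMod p) * q ≠ 0 := by
    have : (4 : ZMod p) = 2 * 2 := by norm_num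
    rw [this]
    exact mul_ne_zero (mul_ne_zero h2 h2) hq
  obtain ⟨X, y, hXy⟩ := FiniteField.exists_root_sum_quadratic
    (f := Polynomial.C 1 * Polynomial.X ^ 2 + Polynomial.C 0 * Polynomial.X +
      Polynomial.C (-(4 * a * r)))
    (g := Polynomial.C (4 * q) * Polynomial.X ^ 2 + Polynomial.C 0 * Polynomial.X +
      Polynomial.C 0)
    (Polynomial.degree_quadratic one_ne_zero) (Polynomial.degree_quadratic h4)
    (by
      rw [ZMod.card]
      exact (Nat.Prime.odd_of_ne_two Fact.out hp2).not_two_dvd_nat |> fun h => by omega)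
  simp only [Polynomial.eval_add, Polynomial.eval_mul, Polynomial.eval_C, Polynomial.eval_pow,
    Polynomial.eval_X, one_mul, zero_mul, add_zero] at hXy
  refine ⟨(X - b * y) / (2 * a), y, ?_⟩
  field_simp
  linear_combination hXy - y ^ 2 * hd

private theorem rp_prime {q p : ℕ} (hq : q.Prime) (hp : p.Prime) (hp2 : p ≠ 2) (hpq : p ≠ q)
    {a b c : ℤ} (hd : b ^ 2 - 4 * a * c = -4 * q) (r : ℤ) : Rp a b c r p := by
  have : Fact p.Prime := ⟨hp⟩
  have hq0 : (q : ZMod p) ≠ 0 := by
    rw [Ne, ZMod.natCast_eq_zero_iff]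
    intro h
    exact hpq ((Nat.prime_dvd_prime_iff_eq hp hq).mp h)
  have hd' : (b : ZMod p) ^ 2 - 4 * a * c = -4 * q := by exact_mod_cast congrArg (Int.cast : ℤ → ZMod p) hd
  by_cases ha : (a : ZMod p) = 0
  · by_cases hc : (c : ZMod p) = 0
    · have hb : (b : ZMod p) ≠ 0 := by
        intro hb
        have h2 : (2 : ZMod p) ≠ 0 := by
          intro h0
          have h1 : ((2 : ℕ) : ZMod p) = 0 := by exact_mod_cast h0
          rw [ZMod.natCast_eq_zero_iff] at h1
          exact hp2 ((Nat.prime_dvd_prime_iff_eq hp Nat.prime_two).mp h1)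
        rw [ha, hb] at hd'
        have h3 : (2 : ZMod p) * (2 * q) = 0 := by linear_combination hd'
        rcases mul_eq_zero.mp h3 with h | h
        · exact h2 h
        · rcases mul_eq_zero.mp h with h | h
          · exact h2 h
          · exact hq0 h
      refine rp_of ((r : ZMod p) / b) 1 ?_
      rw [ha, hc]
      field_simp
      ring
    · obtain ⟨x, y, h⟩ := rp_sq (r := (r : ZMod p)) hp2 hq0 hc
        (b := b) (c := a) (by linear_combination hd')
      refine rp_of y x ?_
      linear_combination h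
  · obtain ⟨x, y, h⟩ := rp_sq (r := (r : ZMod p)) hp2 hq0 ha hd'
    exact rp_of x y h

theorem form_rep {q : ℕ} (hq : q.Prime) (hq4 : q % 4 = 3) {a b c : ℤ}
    (hd : b ^ 2 - 4 * a * c = -4 * q) (hg : Int.gcd (Int.gcd a b) c = 1) {m : ℕ} (hm : Odd m)
    (hm2 : Squarefree m) (hqm : ¬ q ∣ m) {r : ℤ} (hr : Odd r) :
    ∃ x y : ℤ, a * x ^ 2 + b * x * y + c * y ^ 2 ≡ r [ZMOD (8 * m : ℕ)] := by
  have hmm : Rp a b c r m := by
    clear hg hr
    induction m using Nat.recOnPosPrimePosCoprime with
    | prime_pow p n hp hn =>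
      have hn1 : n = 1 := by
        by_contra hne
        have h2 : 2 ≤ n := by omega
        have h3 : p * p ∣ p ^ n := by
          rw [← pow_two]
          exact pow_dvd_pow p h2
        exact hp.not_isUnit (hm2 p h3)
      subst hn1
      rw [pow_one] at hm hqm ⊢
      refine rp_prime hq hp ?_ ?_ hd r
      · rintro rfl
        exact absurd hm (by decide)
      · rintro rfl
        exact hqm (dvd_refl _)
    | zero => exact absurd hm (by decide)
    | one => exact ⟨0, 0, Int.modEq_one⟩
    | coprime s t hs ht hst ihs iht =>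
      refine rp_mul hst (ihs ?_ ?_ ?_) (iht ?_ ?_ ?_)
      · exact (Nat.odd_mul.mp hm).1
      · exact hm2.of_mul_left
      · exact fun h => hqm (h.mul_right t)
      · exact (Nat.odd_mul.mp hm).2
      · exact hm2.of_mul_right
      · exact fun h => hqm (h.mul_left s)
  have h8 : Rp a b c r 8 := by
    have hb : Even b := by
      by_contra hb
      rw [Int.not_even_iff_odd] at hb
      have h1 : Odd (b ^ 2) := hb.pow
      have h2 : Even (b ^ 2) := ⟨2 * (a * c - q), by linear_combination hd⟩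
      exact (Int.not_even_iff_odd.mpr h1) h2
    obtain ⟨b', hb'⟩ := hb
    have hd' : b' ^ 2 - a * c = -q := by
      have : 4 * (b' ^ 2 - a * c) = 4 * (-q : ℤ) := by
        rw [hb'] at hd
        linear_combination hd
      exact mul_left_cancel₀ (by norm_num) this
    have hodd : Odd a ∨ Odd c := by
      by_contra hcon
      push Not at hcon
      rw [Int.not_odd_iff_even, Int.not_odd_iff_even] at hcon
      have h2 : (2 : ℤ) ∣ Int.gcd (Int.gcd a b) c :=
        Int.dvd_coe_gcd (Int.dvd_coe_gcd hcon.1.two_dvd ⟨b', by rw [hb']; ring⟩) hcon.2.two_dvd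
      rw [hg] at h2
      exact absurd h2 (by decide)
    have hval : ∀ z : ℤ, Odd z → (z : ZMod 8).val % 2 = 1 := by
      intro z hz
      have h1 : ((z : ZMod 8).val : ℤ) = z % 8 := by
        rw [ZMod.val_intCast]
        norm_num
      have h2 : z % 2 = 1 := Int.odd_iff.mp hz
      omega
    have hcase : (b' : ZMod 8) ^ 2 - a * c = 5 ∨ (b' : ZMod 8) ^ 2 - a * c = 1 := by
      have h1 : (b' : ZMod 8) ^ 2 - a * c = -(q : ZMod 8) := by
        have := congrArg (Int.cast : ℤ → ZMod 8) hd'
        push_cast at this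
        exact this
      rw [h1]
      have h2 : q % 8 = 3 ∨ q % 8 = 7 := by omega
      have h3 : ((q % 8 : ℕ) : ZMod 8) = (q : ZMod 8) := ZMod.natCast_mod q 8
      rcases h2 with h2 | h2
      · left
        rw [← h3, h2]
        decide
      · right
        rw [← h3, h2]
        decide
    obtain ⟨x, y, hxy⟩ := loc8 a b' c hcase
      (hodd.imp (hval a) (hval c)) r (hval r hr)
    refine rp_of x y ?_
    rw [← hxy, hb']
    push_cast
    ring
  have hco : Nat.Coprime 8 m := by
    have : Nat.Coprime 2 m := (Nat.coprime_two_left).mpr hm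
    exact Nat.Coprime.pow_left 3 this
  exact rp_mul hco h8 hmm

end Pool.Agent.SS.HB
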