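import Mathlib
import Pool.Agent.Work.MP_a5099b_nt.H.HDefs

/-!
# Module Place (size S-M): reduction of algebraic integers

`A = integralClosure ℤ ℂ` (a subalgebra of `ℂ`). `q` is not a unit of `A`: otherwise `1 / q` would be an algebraic integer and
rational, so an integer (`IsIntegrallyClosed ℤ`: `IsIntegrallyClosed.isIntegral_iff` for `ℚ`, transfer from `ℂ` to `ℚ` by the injective map
`ℚ → ℂ`, `isIntegral_algebraMap_iff`), impossible. So there is a maximal ideal `P` of `A` with `q ∈ P`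
(`Ideal.exists_le_maximal`, `Ideal.span_singleton_ne_top`), `k = A ⧸ P` is a field (`Ideal.Quotient.field`) and
`(q : k) = 0`, so `CharP k q` (`CharP.of_prime_eq_zero`-type lemma: `q` prime and `(q : k) = 0` in a nontrivial ring).
-/

set_option autoImplicit false

namespace Pool.Agent.SS.HB

open Polynomial
open Pool.Agent.Work.CM
open scoped Pointwise

theorem exists_place {q : ℕ} (hq : q.Prime) :
    ∃ (k : Type) (_ : Field k) (_ : CharP k q), Nonempty (integralClosure ℤ ℂ →+* k) := by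
  have hne : ¬ IsUnit ((q : ℕ) : integralClosure ℤ ℂ) := by
    rintro ⟨u, hu⟩
    have h1 : ((u⁻¹ : (integralClosure ℤ ℂ)ˣ) : integralClosure ℤ ℂ) * (q : integralClosure ℤ ℂ) = 1 := by
      rw [← hu, Units.inv_mul]
    have h2 : IsIntegral ℤ ((((u⁻¹ : (integralClosure ℤ ℂ)ˣ) : integralClosure ℤ ℂ)) : ℂ) :=
      ((u⁻¹ : (integralClosure ℤ ℂ)ˣ) : integralClosure ℤ ℂ).2
    have h3 : ((((u⁻¹ : (integralClosure ℤ ℂ)ˣ) : integralClosure ℤ ℂ)) : ℂ) = algebraMap ℚ ℂ ((q : ℚ)⁻¹) := by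
      have h4 := congrArg (fun x : integralClosure ℤ ℂ => (x : ℂ)) h1
      simp only [MulMemClass.coe_mul, OneMemClass.coe_one] at h4
      have hq0 : (q : ℂ) ≠ 0 := Nat.cast_ne_zero.2 hq.ne_zero
      rw [map_inv₀, map_natCast]
      refine eq_inv_of_mul_eq_one_left ?_
      simpa using h4
    rw [h3, isIntegral_algebraMap_iff (algebraMap ℚ ℂ).injective] at h2
    obtain ⟨n, hn⟩ := IsIntegrallyClosed.isIntegral_iff.1 h2
    have hq0 : (q : ℚ) ≠ 0 := Nat.cast_ne_zero.2 hq.ne_zero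
    have h5 : (n : ℚ) * q = 1 := by
      have : (n : ℚ) = (q : ℚ)⁻¹ := hn
      rw [this, inv_mul_cancel₀ hq0]
    have h6 : n * (q : ℤ) = 1 := by exact_mod_cast h5
    have h7 : IsUnit (q : ℤ) := IsUnit.of_mul_eq_one n (by rw [mul_comm]; exact h6)
    rw [Int.ofNat_isUnit, Nat.isUnit_iff] at h7
    exact hq.one_lt.ne' h7
  obtain ⟨P, hP, hqP⟩ := Ideal.exists_le_maximal _ (Ideal.span_singleton_ne_top hne)
  have hq' : ((q : ℕ) : integralClosure ℤ ℂ) ∈ P := hqP (Ideal.mem_span_singleton_self _)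
  let : Field (integralClosure ℤ ℂ ⧸ P) := Ideal.Quotient.field P
  have h0 : ((q : ℕ) : integralClosure ℤ ℂ ⧸ P) = 0 := by
    rw [← map_natCast (Ideal.Quotient.mk P), Ideal.Quotient.eq_zero_iff_mem]
    exact hq'
  refine ⟨integralClosure ℤ ℂ ⧸ P, inferInstance, ?_, ⟨Ideal.Quotient.mk P⟩⟩
  exact (CharP.charP_iff_prime_eq_zero hq).2 h0

theorem intCast_mem (n : ℤ) : (n : ℂ) ∈ integralClosure ℤ ℂ := by
  have := (integralClosure ℤ ℂ).algebraMap_mem n
  simpa using this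

/-- The roots of `Φ_n(z, Y)`, `z` an algebraic integer, are algebraic integers. -/
theorem mem_of_root {p : ℂ[X]} (hp : p.Monic) (hc : ∀ i, p.coeff i ∈ integralClosure ℤ ℂ) {z : ℂ}
    (hz : p.eval z = 0) : z ∈ integralClosure ℤ ℂ := by
  have hlift : p ∈ Polynomial.lifts (algebraMap (integralClosure ℤ ℂ) ℂ) := by
    rw [Polynomial.lifts_iff_coeff_lifts]
    intro i
    exact ⟨⟨p.coeff i, hc i⟩, rfl⟩
  obtain ⟨r, hr, -, hrm⟩ := Polynomial.lifts_and_natDegree_eq_and_monic hlift hp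
  have h1 : IsIntegral (integralClosure ℤ ℂ) z := by
    refine ⟨r, hrm, ?_⟩
    rw [← Polynomial.eval_map, hr]
    exact hz
  exact isIntegral_trans z h1

end Pool.Agent.SS.HB
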