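import Mathlib
import Pool.Agent.Work.MP_a5099b_nt.H.HDefs
import Pool.Agent.Work.MP_a5099b_nt.H.Place

/-!
# Module CntRed (size M): counting the roots which reduce to a given element

`A = integralClosure ℤ ℂ`, `p ∈ A[X]` monic. Over `ℂ` `p` splits; its roots are in `A` (`mem_of_root`), so `p = ∏ (X - C ρ_i)` in `A[X]` (write the multiset of the roots in `ℂ` as the image of
a multiset of elements of `A` (`Multiset.attach`/`pmap` or `Multiset.map` with a section), and use the injectivity of `A[X] → ℂ[X]`,
`Polynomial.map_injective`), and after reduction `p.map red = ∏ (X - C (red ρ_i))` in `k[X]`: its roots are the `red ρ_i` (`Polynomial.roots_multiset_prod_X_sub_C`), and the multiplicity of `Y`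
(`Polynomial.count_roots`) is the number of the `i` with `red ρ_i = Y`. `RedTo red ρ Y` is `red ⟨ρ, _⟩ = Y`. `count_redZ`: `f ∈ ℤ[X]`, take its image in `A[X]` (`Polynomial.map_map`,
the ring homomorphisms `ℤ → ℂ`, `ℤ → k` are unique: `Subsingleton.elim`/`RingHom.ext_int`).
-/

set_option autoImplicit false

namespace Pool.Agent.SS.HB

open Polynomial
open Pool.Agent.Work.CM
open scoped Pointwise

private theorem redTo_val {k : Type} [Field k] (red : integralClosure ℤ ℂ →+* k)
    (a : integralClosure ℤ ℂ) (Y : k) : RedTo red (a : ℂ) Y ↔ red a = Y := by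
  constructor
  · rintro ⟨h, e⟩
    exact e
  · intro e
    exact ⟨a.2, e⟩

open Classical in
theorem count_red {k : Type} [Field k] (red : integralClosure ℤ ℂ →+* k)
    {p : (integralClosure ℤ ℂ)[X]} (hp : p.Monic) (Y : k) :
    (p.map red).rootMultiplicity Y =
      ((p.map (algebraMap (integralClosure ℤ ℂ) ℂ)).roots.filter fun z => RedTo red z Y).card := by
  set P : ℂ[X] := p.map (algebraMap (integralClosure ℤ ℂ) ℂ) with hP
  have hPm : P.Monic := hp.map _
  have hmem : ∀ z ∈ P.roots, z ∈ integralClosure ℤ ℂ := by
    intro z hz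
    refine mem_of_root hPm (fun i => ?_) ((Polynomial.mem_roots hPm.ne_zero).1 hz)
    rw [hP, Polynomial.coeff_map]
    exact (p.coeff i).2
  set M : Multiset (integralClosure ℤ ℂ) := P.roots.pmap (fun z h => ⟨z, h⟩) hmem with hM
  have hMm : M.map (fun a : integralClosure ℤ ℂ => (a : ℂ)) = P.roots := by
    rw [hM, Multiset.map_pmap, Multiset.pmap_eq_map, Multiset.map_id']
  have hprod : p = (M.map fun a => X - C a).prod := by
    apply Polynomial.map_injective (algebraMap (integralClosure ℤ ℂ) ℂ) Subtype.val_injective
    rw [← hP, Polynomial.map_multiset_prod, Multiset.map_map]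
    have h1 : P = (P.roots.map fun a => X - C a).prod := by
      have := (IsAlgClosed.splits P).eq_prod_roots_of_monic hPm
      exact this
    conv_lhs => rw [h1, ← hMm, Multiset.map_map]
    congr 1
    refine Multiset.map_congr rfl fun a _ => ?_
    simp
  have h2 : p.map red = ((M.map red).map fun a => X - C a).prod := by
    conv_lhs => rw [hprod]
    rw [Polynomial.map_multiset_prod, Multiset.map_map, Multiset.map_map]
    congr 1
    refine Multiset.map_congr rfl fun a _ => ?_
    simp
  rw [← Polynomial.count_roots, h2, Polynomial.roots_multiset_prod_X_sub_C, Multiset.count_map,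
    ← hMm, Multiset.filter_map, Multiset.card_map]
  congr 1
  refine Multiset.filter_congr fun a _ => ?_
  rw [Function.comp_apply, redTo_val]
  exact eq_comm

open Classical in
theorem count_redZ {k : Type} [Field k] (red : integralClosure ℤ ℂ →+* k) {f : ℤ[X]}
    (hf : f.Monic) (Y : k) :
    (f.map (Int.castRingHom k)).rootMultiplicity Y =
      ((f.map (Int.castRingHom ℂ)).roots.filter fun z => RedTo red z Y).card := by
  have h := count_red red (hf.map (Int.castRingHom (integralClosure ℤ ℂ))) Y
  rw [Polynomial.map_map, Polynomial.map_map] at h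
  rw [RingHom.ext_int (Int.castRingHom k) (red.comp (Int.castRingHom _)),
    RingHom.ext_int (Int.castRingHom ℂ)
      ((algebraMap (integralClosure ℤ ℂ) ℂ).comp (Int.castRingHom _))]
  exact h

end Pool.Agent.SS.HB
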