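import Mathlib
import Pool.Agent.Work.MP_a5099b_nt.H.HDefs
import Pool.Agent.Work.MP_a5099b_nt.SpecB
import Pool.Agent.Work.MP_a5099b_nt.B.SupF
import Pool.Agent.Work.MP_a5099b_nt.B.PhiX
import Pool.Agent.Work.MP_a5099b_nt.H.Place
import Pool.Agent.Work.MP_a5099b_nt.H.CntRed

/-!
# Module MultRed (size M): the multiplicity of `y` in `Φ_l(y, Y)` counts superlattices

`A = integralClosure ℤ ℂ`, `a = ⟨jL L, _⟩ : A`, `Y = ZMod.castHom _ k y = red a`. `PhiAt l a ∈ A[X]` is monic, its image in `ℂ[X]` is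
`PhiAt l (jL L) = ∏ (X - C (jL L'))` over the finite set `supF l L` of the superlattices (`PhiAt_map` for the inclusion `A → ℂ`, `PhiAt_supF`; `mem_supF`).
`sup_mem`: `mem_of_root` (`jL L'` is a root of it). By `PhiAt_map` `(PhiAt l a).map red = PhiAt l Y`, so by `count_red` the multiplicity of `Y` in `PhiAt l Y` is the number of the roots `jL L'`
(`Polynomial.roots_prod_X_sub_C`-type lemma: the multiset of the roots is the image of `supF l L` under `jL`) with `RedTo red (jL L') Y`, i.e. the number of such `L'`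
(`Multiset.filter_map`, `Finset.filter`, `Set.ncard_coe_finset`). Finally
`(PhiAt l y).rootMultiplicity y = (PhiAt l Y).rootMultiplicity Y` (`PhiAt_map`, `Polynomial.eq_rootMultiplicity_map` for the injective map
`ZMod q → k`).
-/

set_option autoImplicit false

namespace Pool.Agent.SS.HB

open Polynomial
open Pool.Agent.Work.CM
open scoped Pointwise

theorem sup_mem {l : ℕ} (hl : l.Prime) {L L' : Submodule ℤ ℂ} (h : Sup l L L')
    (hint : jL L ∈ integralClosure ℤ ℂ) : jL L' ∈ integralClosure ℤ ℂ := by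
  have hroot : (PhiAt l (jL L)).eval (jL L') = 0 := (PhiAt_root hl h.lat _).2 ⟨L', h, rfl⟩
  refine mem_of_root (PhiAt_monic hl (jL L)) ?_ hroot
  intro i
  have e : PhiAt l (jL L) = (PhiAt l (⟨jL L, hint⟩ : integralClosure ℤ ℂ)).map
      (algebraMap (integralClosure ℤ ℂ) ℂ) := by
    rw [PhiAt_map]
    rfl
  rw [e, coeff_map]
  exact ((PhiAt l (⟨jL L, hint⟩ : integralClosure ℤ ℂ)).coeff i).2

theorem mult_red {q l : ℕ} [Fact q.Prime] (hl : l.Prime) {k : Type} [Field k] [CharP k q]
    (red : integralClosure ℤ ℂ →+* k) (y : ZMod q) {L : Submodule ℤ ℂ} (hL : IsLat L)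
    (hy : RedTo red (jL L) (ZMod.castHom (dvd_refl q) k y)) :
    (PhiAt l y).rootMultiplicity y =
      {L' | Sup l L L' ∧ RedTo red (jL L') (ZMod.castHom (dvd_refl q) k y)}.ncard := by
  classical
  set Y := ZMod.castHom (dvd_refl q) k y with hY
  obtain ⟨hint, hred⟩ := hy
  have e1 : (PhiAt l (⟨jL L, hint⟩ : integralClosure ℤ ℂ)).map
      (algebraMap (integralClosure ℤ ℂ) ℂ) = PhiAt l (jL L) := by
    rw [PhiAt_map]
    rfl
  have e2 : (PhiAt l (⟨jL L, hint⟩ : integralClosure ℤ ℂ)).map red = PhiAt l Y := by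
    rw [PhiAt_map, hred]
  have e3 : (PhiAt l y).map (ZMod.castHom (dvd_refl q) k) = PhiAt l Y := by
    rw [PhiAt_map]
  have h1 : (PhiAt l y).rootMultiplicity y = (PhiAt l Y).rootMultiplicity Y := by
    rw [← e3]
    exact eq_rootMultiplicity_map (ZMod.castHom (dvd_refl q) k).injective y
  have h2 := count_red red (PhiAt_monic hl (⟨jL L, hint⟩ : integralClosure ℤ ℂ)) Y
  rw [e1, e2] at h2
  rw [h1, h2, PhiAt_supF hl hL, roots_prod _ _ ?_]
  · have e4 : ((supF l L).val.bind fun L' => (X - C (jL L') : ℂ[X]).roots) =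
        (supF l L).val.map jL := by
      simp only [roots_X_sub_C]
      exact Multiset.bind_singleton _ _
    rw [e4, Multiset.filter_map, Multiset.card_map]
    have e5 : {L' | Sup l L L' ∧ RedTo red (jL L') Y} =
        (((supF l L).filter fun L' => RedTo red (jL L') Y : Finset _) : Set _) := by
      ext L'
      rw [Finset.coe_filter, Set.mem_ofPred_eq, Set.mem_ofPred_eq, mem_supF hl hL]
    rw [e5, Set.ncard_coe_finset]
    rfl
  · exact (monic_prod_of_monic _ _ fun L' _ => monic_X_sub_C _).ne_zero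

end Pool.Agent.SS.HB
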