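import Mathlib
import Pool.Agent.Work.MP_a5099b_nt.H.HDefs
import Pool.Agent.Work.MP_a5099b_nt.H.Sand
import Pool.Agent.Work.MP_a5099b_nt.B.EndR
import Pool.Agent.Work.MP_a5099b_nt.H.Cov

/-!
# Module Eigen (size M): at most two superlattices of index `l` have multiplication by `√(-q)`

Write `s = sq q`. Let `Sup l L A`, `s A ⊆ A`, `s L ⊆ L`. `A/L` has prime order `l`, so it is generated by one element `w ∈ A`, `w ∉ L`
(every `z ∈ A` is `x w` plus an element of `L`, `x` an integer) and `s w = e w + L` for an integer `e`; so `(s - e) A ⊆ L`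
(`exists_eigen`). `s² = -q` and `s L ⊆ L` give `(e² + q) w ∈ L`, so `l ∣ e² + q` (the order of `w` mod `L` is `l`).
`A ≤ E := {z | l z ∈ L ∧ (s - e) z ∈ L}` (`sup_nsmul`). CLAIM `E = A`: `L ≤ A ≤ E ≤ l⁻¹ L` and `relIndex L (l⁻¹ L) = l²`, so the index of `L` in `E` is `l` or
`l²` (it is divisible by `l` and divides `l²`). If it is `l²` then `E = l⁻¹ L`, so `(s - e)/l` is a multiplier of `L`; by `trace_norm` (B/EndR.lean) its trace `-2 e / l` and its norm
`(q + e²)/l²` are integers; `l` is odd, so `l ∣ e`, `l² ∣ q + e²`, `l ∣ q`, contradiction. So the index is `l` and `E = A` (`sup_eq`).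
If two of them have the same `e` mod `l` they are equal: for `e' = e + l t` `(s - e') z = (s - e) z - t (l z)`, so `E` is the same. The numbers `e` mod `l` are roots
of `X² + q` in the field `ZMod l`, at most two of them: among three one has two equal.
-/

set_option autoImplicit false

namespace Pool.Agent.SS.HB

open Polynomial
open Pool.Agent.Work.CM
open scoped Pointwise

/-- A superlattice of prime index is generated by each of its new elements. -/
private theorem gen_of_prime {l : ℕ} (hl : l.Prime) {L A : Submodule ℤ ℂ} (hA : Sup l L A) {w : ℂ}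
    (hw : w ∈ A) (hwL : w ∉ L) {z : ℂ} (hz : z ∈ A) : ∃ x : ℤ, z - x * w ∈ L := by
  have : Fact l.Prime := ⟨hl⟩
  let H : AddSubgroup A.toAddSubgroup := L.toAddSubgroup.addSubgroupOf A.toAddSubgroup
  have hcard : Nat.card (A.toAddSubgroup ⧸ H) = l := hA.idx
  let w' : A.toAddSubgroup := ⟨w, hw⟩
  let z' : A.toAddSubgroup := ⟨z, hz⟩
  have hne : (QuotientAddGroup.mk w' : A.toAddSubgroup ⧸ H) ≠ 0 := by
    intro h0
    rw [QuotientAddGroup.eq_zero_iff] at h0
    exact hwL (AddSubgroup.mem_addSubgroupOf.1 h0)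
  have h1 := mem_zmultiples_of_prime_card hcard (g' := (QuotientAddGroup.mk z' : A.toAddSubgroup ⧸ H))
    hne
  obtain ⟨x, hx⟩ := AddSubgroup.mem_zmultiples_iff.1 h1
  refine ⟨x, ?_⟩
  have h2 : (QuotientAddGroup.mk (x • w') : A.toAddSubgroup ⧸ H) = QuotientAddGroup.mk z' := hx
  rw [QuotientAddGroup.eq, AddSubgroup.mem_addSubgroupOf] at h2
  have h3 : (((-(x • w') + z' : A.toAddSubgroup)) : ℂ) = z - x * w := by
    show -(x • w) + z = z - x * w
    rw [zsmul_eq_mul]
    ring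
  rw [h3] at h2
  exact h2

private theorem int_mul_mem {L : Submodule ℤ ℂ} (n : ℤ) {z : ℂ} (hz : z ∈ L) : (n : ℂ) * z ∈ L := by
  rw [← zsmul_eq_mul]
  exact L.smul_mem n hz

/-- The order of a new element is `l`. -/
private theorem dvd_of_mul_mem {l : ℕ} (hl : l.Prime) {L A : Submodule ℤ ℂ} (hA : Sup l L A) {w : ℂ}
    (hw : w ∈ A) (hwL : w ∉ L) {k : ℤ} (hk : (k : ℂ) * w ∈ L) : (l : ℤ) ∣ k := by
  by_contra hn
  have hc : IsCoprime (l : ℤ) k := by
    rw [Prime.coprime_iff_not_dvd (Nat.prime_iff_prime_int.1 hl)]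
    exact hn
  obtain ⟨a, b, hab⟩ := hc
  apply hwL
  have h1 : w = (a : ℂ) * ((l : ℂ) * w) + (b : ℂ) * ((k : ℂ) * w) := by
    have h2 : ((a * l + b * k : ℤ) : ℂ) = 1 := by rw [hab]; simp
    push_cast at h2
    linear_combination (-w) * h2
  rw [h1]
  exact L.add_mem (int_mul_mem a (sup_nsmul hA hw)) (int_mul_mem b hk)

private theorem exists_new {l : ℕ} (hl : l.Prime) {L A : Submodule ℤ ℂ} (hA : Sup l L A) :
    ∃ w ∈ A, w ∉ L := by
  by_contra hn
  push Not at hn
  have h1 : L.toAddSubgroup.relIndex A.toAddSubgroup = 1 := AddSubgroup.relIndex_eq_one.2 hn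
  rw [hA.idx] at h1
  exact hl.one_lt.ne' h1

theorem exists_eigen {q l : ℕ} (hl : l.Prime) {L A : Submodule ℤ ℂ} (hs : HasSq q L)
    (hA : Sup l L A) (hsA : HasSq q A) : ∃ e : ℤ, (∀ z ∈ A, (sq q - e) * z ∈ L) ∧ (l : ℤ) ∣ e ^ 2 + q := by
  obtain ⟨w, hw, hwL⟩ := exists_new hl hA
  obtain ⟨e, he⟩ := gen_of_prime hl hA hw hwL (hsA w hw)
  have hew : (sq q - e) * w ∈ L := by
    rw [sub_mul]
    exact he
  refine ⟨e, ?_, ?_⟩
  · intro z hz
    obtain ⟨x, hx⟩ := gen_of_prime hl hA hw hwL hz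
    have h1 : (sq q - e) * z = (x : ℂ) * ((sq q - e) * w) +
        (sq q * (z - x * w) - (e : ℂ) * (z - x * w)) := by ring
    rw [h1]
    exact L.add_mem (int_mul_mem x hew) (L.sub_mem (hs _ hx) (int_mul_mem e hx))
  · refine dvd_of_mul_mem hl hA hw hwL ?_
    have h1 : ((e ^ 2 + q : ℤ) : ℂ) * w =
        -(sq q * ((sq q - e) * w) + (e : ℂ) * ((sq q - e) * w)) := by
      push_cast
      have h2 := sq_mul_self q
      linear_combination w * h2
    rw [h1]
    exact L.neg_mem (L.add_mem (hs _ hew) (int_mul_mem e hew))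

/-- A superlattice is determined by its eigenvalue. -/
private theorem eigen_mem {q l : ℕ} (hq : q.Prime) (hl : l.Prime) (hl2 : l ≠ 2) (hlq : l ≠ q)
    {L A : Submodule ℤ ℂ} (hA : Sup l L A) {e : ℤ}
    (he : ∀ z ∈ A, (sq q - e) * z ∈ L) {z : ℂ} (hz : (l : ℂ) * z ∈ L)
    (hz' : (sq q - e) * z ∈ L) : z ∈ A := by
  have hl0 : (l : ℂ) ≠ 0 := by exact_mod_cast hl.ne_zero
  let M : Submodule ℤ ℂ := (l : ℂ)⁻¹ • L
  have hM : ∀ x : ℂ, x ∈ M ↔ (l : ℂ) * x ∈ L := by
    intro x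
    show x ∈ (l : ℂ)⁻¹ • L ↔ _
    rw [mem_smul' (inv_ne_zero hl0), inv_inv]
  let E : Submodule ℤ ℂ :=
    { carrier := {x | (l : ℂ) * x ∈ L ∧ (sq q - e) * x ∈ L}
      add_mem' := fun hx hy => by
        refine ⟨?_, ?_⟩
        · rw [mul_add]
          exact L.add_mem hx.1 hy.1
        · rw [mul_add]
          exact L.add_mem hx.2 hy.2
      zero_mem' := by
        refine ⟨?_, ?_⟩
        · rw [mul_zero]
          exact L.zero_mem
        · rw [mul_zero]
          exact L.zero_mem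
      smul_mem' := fun n x hx => by
        refine ⟨?_, ?_⟩
        · rw [mul_smul_comm]
          exact L.smul_mem n hx.1
        · rw [mul_smul_comm]
          exact L.smul_mem n hx.2 }
  have hE : ∀ x : ℂ, x ∈ E ↔ (l : ℂ) * x ∈ L ∧ (sq q - e) * x ∈ L := fun x => Iff.rfl
  have hAE : A ≤ E := fun x hx => ⟨sup_nsmul hA hx, he x hx⟩
  have hEM : E ≤ M := fun x hx => (hM x).2 hx.1
  have hLM : L ≤ M := fun x hx => (hM x).2 (int_mul_mem l hx)
  have hlatM : IsLat M := hA.lat.smul (inv_ne_zero hl0)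
  have hlM : (l : ℂ) • M = L := by
    show (l : ℂ) • ((l : ℂ)⁻¹ • L) = L
    rw [smul_smul, mul_inv_cancel₀ hl0, one_smul]
  have hidx : L.toAddSubgroup.relIndex M.toAddSubgroup = l * l := by
    have h1 := relIndex_smul hlatM hl0 (by rw [hlM]; exact hLM)
    rw [hlM] at h1
    have h2 : Complex.normSq (l : ℂ) = ((l * l : ℕ) : ℝ) := by
      rw [Complex.normSq_natCast]
      push_cast
      ring
    rw [h2] at h1
    exact_mod_cast h1
  have hAM : A.toAddSubgroup.relIndex M.toAddSubgroup = l := by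
    have h1 := AddSubgroup.relIndex_mul_relIndex L.toAddSubgroup A.toAddSubgroup M.toAddSubgroup
      hA.le (hAE.trans hEM)
    rw [hA.idx, hidx] at h1
    exact Nat.eq_of_mul_eq_mul_left hl.pos h1
  have hmul := AddSubgroup.relIndex_mul_relIndex A.toAddSubgroup E.toAddSubgroup M.toAddSubgroup
    hAE hEM
  rw [hAM] at hmul
  have hzE : z ∈ E := ⟨hz, hz'⟩
  rcases (Nat.dvd_prime hl).1 (Dvd.intro _ hmul) with h1 | h1
  · exact AddSubgroup.relIndex_eq_one.1 h1 hzE
  · exfalso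
    rw [h1] at hmul
    have h2 : E.toAddSubgroup.relIndex M.toAddSubgroup = 1 := by
      have := Nat.eq_of_mul_eq_mul_left hl.pos (hmul.trans (mul_one l).symm)
      exact this
    have hME : M ≤ E := AddSubgroup.relIndex_eq_one.1 h2
    have hmulL : ∀ x ∈ L, ((sq q - e) * (l : ℂ)⁻¹) * x ∈ L := by
      intro x hx
      have h3 : (l : ℂ)⁻¹ * x ∈ M := by
        rw [hM, mul_inv_cancel_left₀ hl0]
        exact hx
      have h4 := (hME h3).2
      rw [mul_assoc]
      exact h4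
    obtain ⟨t, N, ht, hN⟩ := trace_norm hA.lat hmulL
    have hc : starRingEnd ℂ ((sq q - e) * (l : ℂ)⁻¹) = (-sq q - e) * (l : ℂ)⁻¹ := by
      rw [map_mul, map_sub, conj_sq, map_inv₀]
      simp
    rw [hc] at ht hN
    have ht' : (-2 * e : ℤ) = t * l := by
      have h5 : (-2 * (e : ℂ)) = t * l := by
        rw [← ht]
        field_simp
        ring
      exact_mod_cast h5
    have hN' : (e ^ 2 + q : ℤ) = N * l ^ 2 := by
      have h5 : ((e : ℂ) ^ 2 + q) = N * l ^ 2 := by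
        rw [← hN]
        have h6 := sq_mul_self q
        field_simp
        linear_combination h6
      exact_mod_cast h5
    have hlp : Prime (l : ℤ) := Nat.prime_iff_prime_int.1 hl
    have hle : (l : ℤ) ∣ e := by
      have h5 : (l : ℤ) ∣ 2 * e := ⟨-t, by linear_combination (-1) * ht'⟩
      rcases hlp.dvd_or_dvd h5 with h6 | h6
      · exfalso
        have h7 : l ∣ 2 := by exact_mod_cast h6
        exact hl2 ((Nat.prime_dvd_prime_iff_eq hl Nat.prime_two).1 h7)
      · exact h6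
    have hlq' : (l : ℤ) ∣ q := by
      have h5 : (q : ℤ) = N * l ^ 2 - e ^ 2 := by linear_combination hN'
      rw [h5]
      exact dvd_sub (Dvd.dvd.mul_left (dvd_pow_self _ two_ne_zero) _) (dvd_pow hle two_ne_zero)
    have h6 : l ∣ q := by exact_mod_cast hlq'
    exact hlq ((Nat.prime_dvd_prime_iff_eq hl hq).1 h6)

private theorem eigen_le {q l : ℕ} (hq : q.Prime) (hl : l.Prime) (hl2 : l ≠ 2) (hlq : l ≠ q)
    {L A B : Submodule ℤ ℂ} (hA : Sup l L A) (hB : Sup l L B) {e f : ℤ}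
    (he : ∀ z ∈ A, (sq q - e) * z ∈ L) (hf : ∀ z ∈ B, (sq q - f) * z ∈ L)
    (hef : (l : ℤ) ∣ e - f) : B ≤ A := by
  intro z hz
  have h1 := sup_nsmul hB hz
  refine eigen_mem hq hl hl2 hlq hA he h1 ?_
  obtain ⟨t, ht⟩ := hef
  have h2 : (sq q - e) * z = (sq q - f) * z - (t : ℂ) * ((l : ℂ) * z) := by
    have h3 : (e : ℂ) - f = l * t := by exact_mod_cast ht
    linear_combination (-z) * h3
  rw [h2]
  exact L.sub_mem (hf z hz) (int_mul_mem t h1)

theorem stable_three {q l : ℕ} (hq : q.Prime) (hl : l.Prime) (hl2 : l ≠ 2) (hlq : l ≠ q)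
    {L A B D : Submodule ℤ ℂ} (hs : HasSq q L) (hA : Sup l L A) (hB : Sup l L B) (hD : Sup l L D)
    (hsA : HasSq q A) (hsB : HasSq q B) (hsD : HasSq q D) : A = B ∨ A = D ∨ B = D := by
  obtain ⟨a, ha, ha'⟩ := exists_eigen hl hs hA hsA
  obtain ⟨b, hb, hb'⟩ := exists_eigen hl hs hB hsB
  obtain ⟨d, hd, hd'⟩ := exists_eigen hl hs hD hsD
  have hlp : Prime (l : ℤ) := Nat.prime_iff_prime_int.1 hl
  have key : ∀ {X Y : Submodule ℤ ℂ} {e f : ℤ}, Sup l L X → Sup l L Y →
      (∀ z ∈ X, (sq q - e) * z ∈ L) → (∀ z ∈ Y, (sq q - f) * z ∈ L) → (l : ℤ) ∣ e - f → X = Y := by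
    intro X Y e f hX hY he hf hef
    refine le_antisymm ?_ ?_
    · exact eigen_le hq hl hl2 hlq hY hX hf he (by rw [← neg_sub]; exact (dvd_neg.2 hef))
    · exact eigen_le hq hl hl2 hlq hX hY he hf hef
  have two : ∀ {e f : ℤ}, (l : ℤ) ∣ e ^ 2 + q → (l : ℤ) ∣ f ^ 2 + q →
      (l : ℤ) ∣ e - f ∨ (l : ℤ) ∣ e + f := by
    intro e f he hf
    have h1 : (l : ℤ) ∣ (e - f) * (e + f) := by
      have h2 : (e - f) * (e + f) = (e ^ 2 + q) - (f ^ 2 + q) := by ring
      rw [h2]
      exact dvd_sub he hf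
    exact hlp.dvd_or_dvd h1
  rcases two ha' hb' with h1 | h1
  · exact Or.inl (key hA hB ha hb h1)
  rcases two ha' hd' with h2 | h2
  · exact Or.inr (Or.inl (key hA hD ha hd h2))
  · refine Or.inr (Or.inr (key hB hD hb hd ?_))
    have h3 : b - d = (a + b) - (a + d) := by ring
    rw [h3]
    exact dvd_sub h1 h2

end Pool.Agent.SS.HB
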