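import Mathlib
import Pool.Agent.Work.MP_a5099b_nt.Defs

/-!
# Module NormArith (size M): an element of norm `l²` which is not divisible by `l` is a square up to units

Pure arithmetic. `q = 3 mod 4` prime, `q ≥ 7`, `l` an odd prime, `x² + q y² = 4 l²` with `y ≠ 0`. Then `(2l - x)(2l + x) = q y²`, both factors are positive
(`x² < 4 l²`). Replacing `x` by `-x` we may assume `q ∣ 2l - x`: `2l - x = q u`, `2l + x = w`, `u w = y²`, `4 l = q u + w`, `u, w > 0`. Let `g = gcd(u, w)`,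
`u = g u'`, `w = g w'`, `u' w'` is a square and `gcd(u', w') = 1`, so `u' = s²`, `w' = t²` (`Int.sq_of_gcd_eq_one` or `Nat.sq_of_coprime`),
`4 l = g (q s² + t²)`, `y² = g² s² t²`. `s, t ≥ 1`, so `q s² + t² ≥ q + 1 > 4`; `g ∣ 4 l` and if `l ∣ g` then `q s² + t² ∣ 4`, impossible. So `g ∈ {1, 2, 4}`
(`g` divides `4`). `g = 1`: `4 l = q s² + t²`, `y = ± s t`; `s`, `t` are both odd (coprime and `q s² + t²` even), so `y` is odd: second alternative with `a = t`, `b = s`.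
`g = 2`: `2 l = q s² + t²`, `s, t` both odd, `q s² + t² = 0 mod 4`, but `2 l = 2 mod 4`: impossible. `g = 4`: `l = q s² + t²`: first alternative. (For `q = 3` the statement is false.)
-/

set_option autoImplicit false

namespace Pool.Agent.SS.HB

open Polynomial
open Pool.Agent.Work.CM
open scoped Pointwise

private theorem na_aux {q l : ℕ} (hq : q.Prime) (hq4 : q % 4 = 3) (hq7 : 7 ≤ q) (hl : l.Prime)
    (hl2 : l ≠ 2) {x y : ℤ} (hxy : x ^ 2 + q * y ^ 2 = 4 * l ^ 2) (hy : y ≠ 0)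
    (hd : (q : ℤ) ∣ 2 * l - x) :
    (∃ a b : ℤ, a ^ 2 + q * b ^ 2 = l) ∨
      (Odd y ∧ ∃ a b : ℤ, Odd a ∧ Odd b ∧ a ^ 2 + q * b ^ 2 = 4 * l) := by
  have hq0 : (0 : ℤ) < q := by exact_mod_cast hq.pos
  have hl0 : (0 : ℤ) < l := by exact_mod_cast hl.pos
  have hy2 : (0 : ℤ) < y ^ 2 := by positivity
  have hqy : 0 < (q : ℤ) * y ^ 2 := by positivity
  have hlt : |x| < 2 * l := by
    apply abs_lt_of_sq_lt_sq _ (by positivity)
    nlinarith
  obtain ⟨hx1, hx2⟩ := abs_lt.1 hlt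
  obtain ⟨u, hu⟩ := hd
  set w := 2 * (l : ℤ) + x with hw
  have hw0 : 0 < w := by omega
  have hu0 : 0 < u := by
    by_contra h
    have : (q : ℤ) * u ≤ 0 := mul_nonpos_of_nonneg_of_nonpos hq0.le (not_lt.1 h)
    omega
  have huw : u * w = y ^ 2 := by
    apply mul_left_cancel₀ hq0.ne'
    rw [← mul_assoc, ← hu, hw]
    linear_combination -hxy
  have h4l : 4 * (l : ℤ) = q * u + w := by
    rw [← hu, hw]
    ring
  obtain ⟨g, u', w', hg0, hcop, rfl, hwe⟩ : ∃ g u' w' : ℤ, 0 < g ∧ Int.gcd u' w' = 1 ∧ u = g * u' ∧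
      w = g * w' := by
    have hgpos : 0 < Int.gcd u w := Int.gcd_pos_of_ne_zero_left _ hu0.ne'
    refine ⟨Int.gcd u w, u / Int.gcd u w, w / Int.gcd u w, by exact_mod_cast hgpos,
      Int.gcd_ediv_gcd_ediv_gcd hgpos, ?_, ?_⟩
    · exact (Int.mul_ediv_cancel' (Int.gcd_dvd_left _ _)).symm
    · exact (Int.mul_ediv_cancel' (Int.gcd_dvd_right _ _)).symm
  rw [hwe] at huw h4l hw0
  have hu'0 : 0 < u' := (mul_pos_iff_of_pos_left hg0).1 hu0
  have hw'0 : 0 < w' := (mul_pos_iff_of_pos_left hg0).1 hw0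
  have hgy : g ∣ y := by
    have h1 : g ^ 2 ∣ y ^ 2 := ⟨u' * w', by rw [← huw]; ring⟩
    exact (Int.pow_dvd_pow_iff two_ne_zero).1 h1
  obtain ⟨y', rfl⟩ := hgy
  have huw' : u' * w' = y' ^ 2 := by
    apply mul_left_cancel₀ (pow_ne_zero 2 hg0.ne')
    linear_combination huw
  obtain ⟨s, hs⟩ : ∃ s : ℤ, u' = s ^ 2 := by
    obtain ⟨s, hs | hs⟩ := Int.sq_of_gcd_eq_one hcop huw'
    · exact ⟨s, hs⟩
    · exfalso
      have := sq_nonneg s
      omega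
  obtain ⟨t, ht⟩ : ∃ t : ℤ, w' = t ^ 2 := by
    obtain ⟨t, ht | ht⟩ := Int.sq_of_gcd_eq_one (by rwa [Int.gcd_comm] at hcop) (by rwa [mul_comm] at huw')
    · exact ⟨t, ht⟩
    · exfalso
      have := sq_nonneg t
      omega
  subst hs ht
  have h4 : 4 * (l : ℤ) = g * (q * s ^ 2 + t ^ 2) := by rw [h4l]; ring
  have hnot : ¬ (2 ∣ s ∧ 2 ∣ t) := by
    rintro ⟨⟨s', rfl⟩, ⟨t', rfl⟩⟩
    have h1 : (2 : ℤ) ∣ Int.gcd ((2 * s') ^ 2) ((2 * t') ^ 2) := by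
      apply Int.dvd_coe_gcd
      · exact ⟨2 * s' ^ 2, by ring⟩
      · exact ⟨2 * t' ^ 2, by ring⟩
    rw [hcop] at h1
    norm_num at h1
  have hgl : ¬ (l : ℤ) ∣ g := by
    rintro ⟨g', hg'⟩
    have h1 : (4 : ℤ) = g' * (q * s ^ 2 + t ^ 2) := by
      apply mul_left_cancel₀ hl0.ne'
      rw [hg'] at h4
      linear_combination h4
    have h2 : (q : ℤ) * s ^ 2 + t ^ 2 ∣ 4 := ⟨g', by rw [h1]; ring⟩
    have h3 := Int.le_of_dvd (by norm_num) h2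
    have hq7' : (7 : ℤ) ≤ q := by exact_mod_cast hq7
    nlinarith
  have hg4 : g ∣ 4 := by
    have h1 : g ∣ 4 * (l : ℤ) := ⟨_, h4⟩
    have h2 : IsCoprime g (l : ℤ) := by
      have hlp : Prime (l : ℤ) := Nat.prime_iff_prime_int.1 hl
      exact ((Prime.coprime_iff_not_dvd hlp).2 hgl).symm
    exact h2.dvd_of_dvd_mul_right h1
  have hg4' := Int.le_of_dvd (by norm_num) hg4
  have hqodd : (q : ℤ) % 4 = 3 := by omega
  have sqmod : ∀ z : ℤ, z % 2 = 1 → z ^ 2 % 4 = 1 := by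
    intro z hz
    obtain ⟨c, rfl⟩ : ∃ c, z = 2 * c + 1 := ⟨z / 2, by omega⟩
    have : (2 * c + 1) ^ 2 = 4 * (c ^ 2 + c) + 1 := by ring
    omega
  have sqmod0 : ∀ z : ℤ, z % 2 = 0 → z ^ 2 % 4 = 0 := by
    intro z hz
    obtain ⟨c, rfl⟩ : ∃ c, z = 2 * c := ⟨z / 2, by omega⟩
    have : (2 * c) ^ 2 = 4 * c ^ 2 := by ring
    omega
  -- if the sum is even both are odd
  have hodd : (2 : ℤ) ∣ q * s ^ 2 + t ^ 2 → s % 2 = 1 ∧ t % 2 = 1 := by
    intro h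
    obtain ⟨k, hk⟩ : ∃ k : ℤ, (q : ℤ) = 4 * k + 3 := ⟨q / 4, by omega⟩
    rcases Int.emod_two_eq_zero_or_one s with h1 | h1 <;>
      rcases Int.emod_two_eq_zero_or_one t with h2 | h2
    · exact absurd ⟨Int.dvd_of_emod_eq_zero h1, Int.dvd_of_emod_eq_zero h2⟩ hnot
    · exfalso
      have e1 := sqmod0 s h1
      have e2 := sqmod t h2
      obtain ⟨a, ha⟩ : ∃ a, s ^ 2 = 4 * a := ⟨s ^ 2 / 4, by omega⟩
      rw [ha, hk] at h
      have : (4 * k + 3) * (4 * a) = 4 * ((4 * k + 3) * a) := by ring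
      omega
    · exfalso
      have e1 := sqmod s h1
      have e2 := sqmod0 t h2
      obtain ⟨a, ha⟩ : ∃ a, s ^ 2 = 4 * a + 1 := ⟨s ^ 2 / 4, by omega⟩
      rw [ha, hk] at h
      have : (4 * k + 3) * (4 * a + 1) = 2 * (2 * ((4 * k + 3) * a) + 2 * k + 1) + 1 := by ring
      omega
    · exact ⟨h1, h2⟩
  have hgcases : g = 1 ∨ g = 2 ∨ g = 4 := by
    have : g = 1 ∨ g = 2 ∨ g = 3 ∨ g = 4 := by omega
    rcases this with h | h | h | h
    · exact Or.inl h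
    · exact Or.inr (Or.inl h)
    · exfalso
      rw [h] at hg4
      norm_num at hg4
    · exact Or.inr (Or.inr h)
  rcases hgcases with rfl | rfl | rfl
  · right
    obtain ⟨h1, h2⟩ := hodd ⟨2 * l, by linear_combination -h4⟩
    refine ⟨?_, t, s, Int.odd_iff.2 h2, Int.odd_iff.2 h1, by linear_combination -h4⟩
    have h3 : (s * t) ^ 2 = y' ^ 2 := by rw [← huw']; ring
    have h5 : Odd (s * t) := (Int.odd_iff.2 h1).mul (Int.odd_iff.2 h2)
    rw [one_mul]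
    rcases sq_eq_sq_iff_eq_or_eq_neg.1 h3 with h6 | h6
    · rwa [h6] at h5
    · rw [h6] at h5
      have h7 := h5.neg
      rwa [neg_neg] at h7
  · exfalso
    have h5 : 2 * (l : ℤ) = q * s ^ 2 + t ^ 2 := by linarith
    obtain ⟨h1, h2⟩ := hodd ⟨l, by linear_combination -h5⟩
    have e1 := sqmod s h1
    have e2 := sqmod t h2
    obtain ⟨a, ha⟩ : ∃ a, s ^ 2 = 4 * a + 1 := ⟨s ^ 2 / 4, by omega⟩
    obtain ⟨k, hk⟩ : ∃ k : ℤ, (q : ℤ) = 4 * k + 3 := ⟨q / 4, by omega⟩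
    rw [ha, hk] at h5
    have e3 : (4 * k + 3) * (4 * a + 1) = 4 * (((4 * k + 3) * a) + k) + 3 := by ring
    have hlodd : (l : ℤ) % 2 = 1 := by
      have := hl.eq_two_or_odd
      omega
    omega
  · left
    exact ⟨t, s, by linarith⟩

theorem norm_arith {q l : ℕ} (hq : q.Prime) (hq4 : q % 4 = 3) (hq7 : 7 ≤ q) (hl : l.Prime)
    (hl2 : l ≠ 2) {x y : ℤ} (hxy : x ^ 2 + q * y ^ 2 = 4 * l ^ 2) (hy : y ≠ 0) :
    (∃ a b : ℤ, a ^ 2 + q * b ^ 2 = l) ∨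
      (Odd y ∧ ∃ a b : ℤ, Odd a ∧ Odd b ∧ a ^ 2 + q * b ^ 2 = 4 * l) := by
  have hp : Prime (q : ℤ) := Nat.prime_iff_prime_int.1 hq
  have h1 : (q : ℤ) ∣ (2 * l - x) * (2 * l - -x) := ⟨y ^ 2, by linear_combination -hxy⟩
  rcases hp.dvd_or_dvd h1 with h | h
  · exact na_aux hq hq4 hq7 hl hl2 hxy hy h
  · exact na_aux hq hq4 hq7 hl hl2 (x := -x) (by rw [neg_sq]; exact hxy) hy h

end Pool.Agent.SS.HB
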