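import Mathlib
import Pool.Agent.Work.MP_a5099b_nt.H.HDefs
import Pool.Agent.Work.MP_a5099b_nt.H.Gen
import Pool.Agent.Work.MP_a5099b_nt.H.NormArith

/-!
# Module NormL (size S-M): a multiplier of norm `l²` different from `±l` gives a multiplier of norm `l`

`2 ε = x + y s` (`two_mul_eq`, `s = sq q`), `x² + q y² = 4 l²`. If `y = 0` then `ε = x/2`, `x = ± 2 l`, excluded. `norm_arith`: first alternative: `ν = a + b s` is a
multiplier (`IsMul.int`, `IsMul.mul`), `‖ν‖² = a² + q b² = l`. Second: `x` and `y` are odd (`x² + q y² = 0 mod 4`, `y` odd), so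
`(1 + s)/2 = ε - ((x-1)/2 + (y-1)/2 s)` is a multiplier, and `ν = (a + b s)/2 = (1+s)/2 + (a-1)/2 + (b-1)/2 s` is a multiplier of norm `(a² + q b²)/4 = l`.
(`‖u + v s‖² = u² + q v²` for real `u, v`: `Complex.sq_norm`, `normSq`, `sq_re`, `sq_im`.)
-/

set_option autoImplicit false

namespace Pool.Agent.SS.HB

open Polynomial
open Pool.Agent.Work.CM
open scoped Pointwise

private theorem norm_add_mul_sq (q : ℕ) (u v : ℝ) :
    ‖(u : ℂ) + v * sq q‖ ^ 2 = u ^ 2 + q * v ^ 2 := by
  rw [Complex.sq_norm, Complex.normSq_apply]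
  have h1 : ((u : ℂ) + v * sq q).re = u := by simp [sq_re]
  have h2 : ((u : ℂ) + v * sq q).im = v * Real.sqrt q := by simp [sq_im]
  rw [h1, h2]
  have h3 := Real.mul_self_sqrt (Nat.cast_nonneg (α := ℝ) q)
  linear_combination v ^ 2 * h3

theorem exists_norm_l {q l : ℕ} (hq : q.Prime) (hq4 : q % 4 = 3) (hq7 : 7 ≤ q) (hl : l.Prime)
    (hl2 : l ≠ 2) {L : Submodule ℤ ℂ} (h : IsLat L) (hs : HasSq q L) {ε : ℂ} (hε : IsMul L ε)
    (hN : ‖ε‖ ^ 2 = (l : ℝ) ^ 2) (h1 : ε ≠ l) (h2 : ε ≠ -l) :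
    ∃ ν, IsMul L ν ∧ ‖ν‖ ^ 2 = l := by
  obtain ⟨x, y, n, hxy, hn, hnn⟩ := two_mul_eq hq h hs hε
  have hnl : n = (l : ℤ) ^ 2 := by
    rw [hN] at hnn
    exact_mod_cast hnn.symm
  subst hnl
  have hsM : IsMul L (sq q) := hs
  have hy : y ≠ 0 := by
    rintro rfl
    have h3 : (x - 2 * l) * (x + 2 * l) = 0 := by linear_combination hn
    rcases mul_eq_zero.mp h3 with h4 | h4
    · apply h1
      have h5 : (x : ℂ) = 2 * l := by
        have : x = 2 * (l : ℤ) := by linarith
        exact_mod_cast this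
      rw [h5] at hxy
      have h6 : (2 : ℂ) * (ε - l) = 0 := by
        push_cast at hxy
        linear_combination hxy
      rcases mul_eq_zero.mp h6 with h7 | h7
      · norm_num at h7
      · linear_combination h7
    · apply h2
      have h5 : (x : ℂ) = -(2 * l) := by
        have : x = -(2 * (l : ℤ)) := by linarith
        exact_mod_cast this
      rw [h5] at hxy
      have h6 : (2 : ℂ) * (ε + l) = 0 := by
        push_cast at hxy
        linear_combination hxy
      rcases mul_eq_zero.mp h6 with h7 | h7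
      · norm_num at h7
      · linear_combination h7
  rcases norm_arith hq hq4 hq7 hl hl2 hn hy with ⟨a, b, hab⟩ | ⟨hyo, a, b, hao, hbo, hab⟩
  · refine ⟨a + b * sq q, (IsMul.int L a).add ((IsMul.int L b).mul hsM), ?_⟩
    have h3 := norm_add_mul_sq q a b
    rw [Complex.ofReal_intCast, Complex.ofReal_intCast] at h3
    rw [h3]
    exact_mod_cast hab
  · have hq2 : Odd (q : ℤ) := by
      rw [Int.odd_iff]
      omega
    have hxo : Odd x := by
      by_contra hx
      rw [Int.not_odd_iff_even] at hx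
      have h3 : Odd ((q : ℤ) * y ^ 2) := hq2.mul (hyo.pow)
      have h4 : Even (x ^ 2) := hx.pow_of_ne_zero (by norm_num)
      have h5 : Odd (x ^ 2 + q * y ^ 2) := h4.add_odd h3
      rw [hn] at h5
      rw [← Int.not_even_iff_odd] at h5
      exact h5 (Even.mul_right (by decide) _)
    obtain ⟨x', hx'⟩ := hxo
    obtain ⟨y', hy'⟩ := hyo
    obtain ⟨a', ha'⟩ := hao
    obtain ⟨b', hb'⟩ := hbo
    have h3 : ((a : ℂ) + b * sq q) / 2 = ε - x' - y' * sq q + a' + b' * sq q := by
      have hxC : (x : ℂ) = 2 * x' + 1 := by exact_mod_cast hx'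
      have hyC : (y : ℂ) = 2 * y' + 1 := by exact_mod_cast hy'
      have haC : (a : ℂ) = 2 * a' + 1 := by exact_mod_cast ha'
      have hbC : (b : ℂ) = 2 * b' + 1 := by exact_mod_cast hb'
      rw [hxC, hyC] at hxy
      rw [haC, hbC]
      linear_combination (-1 / 2 : ℂ) * hxy
    refine ⟨((a : ℂ) + b * sq q) / 2, ?_, ?_⟩
    · rw [h3]
      exact (((hε.sub (IsMul.int L x')).sub ((IsMul.int L y').mul hsM)).add
        (IsMul.int L a')).add ((IsMul.int L b').mul hsM)
    · have h4 := norm_add_mul_sq q a b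
      rw [Complex.ofReal_intCast, Complex.ofReal_intCast] at h4
      rw [norm_div, div_pow, h4]
      have h5 : ((a : ℝ) ^ 2 + q * (b : ℝ) ^ 2) = 4 * l := by exact_mod_cast hab
      rw [h5]
      norm_num

end Pool.Agent.SS.HB
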