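import Mathlib
import Pool.Agent.Work.MP_a5099b_nt.H.HDefs
import Pool.Agent.Work.MP_a5099b_nt.B.EndR
import Pool.Agent.Work.MP_a5099b_nt.H.PSup

/-!
# Module TwoConj (size S-M): the two superlattices given by a multiplier of norm `l`

`Sup l L (ν⁻¹ • L)` and `Sup l L ((conj ν)⁻¹ • L)`: `psup`, `conj_smul_le` (B/EndR.lean), `‖conj ν‖ = ‖ν‖`. They have multiplication by `√(-q)`: `IsMul.smul`. They are different: otherwise
`ε • L = L` for `ε = ν / conj ν` and `unit_smul` (B/EndR.lean): `ε = 1`: `ν` is real, an integer `n` (`real_mul_mem`) with `n² = l`, impossible; `ε = -1`: `ν` is purely imaginary, `ν * sq q` is a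
real multiplier, an integer `n` with `n² = l q` (norms), impossible for different primes `l`, `q`.
-/

set_option autoImplicit false

namespace Pool.Agent.SS.HB

open Polynomial
open Pool.Agent.Work.CM
open scoped Pointwise

private theorem tc_real {L : Submodule ℤ ℂ} (h : IsLat L) {c : ℂ} (hc : c.im = 0) (hm : IsMul L c) {N : ℕ}
    (hN : ‖c‖ ^ 2 = N) : ∃ k : ℕ, k ^ 2 = N := by
  have e : c = (c.re : ℂ) := by
    apply Complex.ext <;> simp [hc]
  obtain ⟨k, hk⟩ := real_mul_mem h (r := c.re) (by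
    intro z hz
    rw [← e]
    exact hm z hz)
  refine ⟨k.natAbs, ?_⟩
  rw [e, hk] at hN
  have h1 : ((k : ℝ)) ^ 2 = N := by
    rw [← hN]
    simp
  have h2 : (k : ℤ) ^ 2 = N := by exact_mod_cast h1
  have h3 : ((k.natAbs ^ 2 : ℕ) : ℤ) = N := by
    rw [← h2]
    push_cast
    exact sq_abs k
  exact_mod_cast h3

theorem two_conj {q l : ℕ} (hq : q.Prime) (hl : l.Prime) (hlq : l ≠ q) {L : Submodule ℤ ℂ}
    (h : IsLat L) (hs : HasSq q L) (h0 : jL L ≠ 0) (h1 : jL L ≠ 1728) {ν : ℂ} (hν : IsMul L ν)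
    (hN : ‖ν‖ ^ 2 = l) :
    Sup l L (ν⁻¹ • L) ∧ Sup l L ((starRingEnd ℂ ν)⁻¹ • L) ∧ HasSq q (ν⁻¹ • L) ∧
      HasSq q ((starRingEnd ℂ ν)⁻¹ • L) ∧ ν⁻¹ • L ≠ (starRingEnd ℂ ν)⁻¹ • L := by
  have hν0 : ν ≠ 0 := by
    rintro rfl
    rw [norm_zero] at hN
    have : (l : ℝ) = 0 := by rw [← hN]; norm_num
    exact hl.ne_zero (by exact_mod_cast this)
  have hc0 : starRingEnd ℂ ν ≠ 0 := (_root_.map_ne_zero _).2 hν0
  have hcm : IsMul L (starRingEnd ℂ ν) := conj_smul_le h hν
  have hs' : IsMul L (sq q) := hs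
  refine ⟨psup h hl.pos hν hN, psup h hl.pos hcm (by rw [Complex.norm_conj]; exact hN),
    hs'.smul (inv_ne_zero hν0), hs'.smul (inv_ne_zero hc0), ?_⟩
  intro he
  have h2 : (ν * (starRingEnd ℂ ν)⁻¹) • L = L := by
    rw [mul_smul, ← he, ← mul_smul, mul_inv_cancel₀ hν0, one_smul]
  rcases unit_smul h h0 h1 h2 with h3 | h3
  · -- `ν` is real
    have h4 : starRingEnd ℂ ν = ν := by
      field_simp at h3
      exact h3.symm
    have him : ν.im = 0 := Complex.conj_eq_iff_im.1 h4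
    obtain ⟨k, hk⟩ := tc_real h him hν hN
    exact (Nat.prime_iff.1 hl).irreducible.not_isSquare ⟨k, by rw [← hk, _root_.sq]⟩
  · have h4 : starRingEnd ℂ ν = -ν := by
      have h5 : ν = -1 * starRingEnd ℂ ν := by
        rw [← h3]
        field_simp
      linear_combination h5
    have hre : ν.re = 0 := by
      have := congrArg Complex.re h4
      simp at this
      linarith
    have him : (ν * sq q).im = 0 := by
      rw [Complex.mul_im, hre, sq_re]
      ring
    have hN' : ‖ν * sq q‖ ^ 2 = ((l * q : ℕ) : ℝ) := by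
      rw [norm_mul, mul_pow, hN, norm_sq]
      push_cast
      ring
    obtain ⟨k, hk⟩ := tc_real h him (hν.mul hs') hN'
    have h5 : l ∣ k := hl.dvd_of_dvd_pow (hk ▸ dvd_mul_right l q : l ∣ k ^ 2)
    obtain ⟨k', rfl⟩ := h5
    have h6 : l * (l * k' ^ 2) = l * q := by rw [← hk]; ring
    have h7 : l * k' ^ 2 = q := Nat.eq_of_mul_eq_mul_left hl.pos h6
    have h8 : l ∣ q := ⟨k' ^ 2, h7.symm⟩
    exact hlq ((Nat.prime_dvd_prime_iff_eq hl hq).1 h8)

end Pool.Agent.SS.HB
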