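import Mathlib
import Pool.Agent.Work.MP_a5099b_nt.H.HDefs
import Pool.Agent.Work.MP_a5099b_nt.A.Lat
import Pool.Agent.Work.MP_a5099b_nt.B.SupF
import Pool.Agent.Work.MP_a5099b_nt.H.PSup
import Pool.Agent.Work.MP_a5099b_nt.H.Sand
import Pool.Agent.Work.MP_a5099b_nt.H.Eigen
import Pool.Agent.Work.MP_a5099b_nt.H.NormL
import Pool.Agent.Work.MP_a5099b_nt.H.TwoConj

/-!
# Module OddOne (size M): exactly one superlattice

Put `A = x⁻¹ • M`: `Sup l L A` (`Sup_smul` with `x⁻¹`), `HasSq q A`, `jL A = jL M` (`jL_smul`), so `A` is in the set. (*) There is no multiplier `ν` of `L` with `‖ν‖² = l`: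
otherwise `two_conj` gives two different stable superlattices `B = ν⁻¹ • L`, `B'` with `jL = jL L ≠ jL A`, so `A, B, B'` are three different stable superlattices, against `stable_three`.
Let `B` be any element of the set. If `jL B = jL L` then `B = c • L` (`exists_smul_of_jL` in A/Lat.lean), `c⁻¹` is a multiplier with `‖c⁻¹‖² = l` (`psup'`), against (*). If `jL B = jL M = jL A` then
`A = κ • B` (`exists_smul_of_jL` in A/Lat.lean), `cov A = cov B` (both `cov L / l`) gives `‖κ‖ = 1` (`cov_smul`). `ε = l κ` is a multiplier of `L`: `z ∈ L ≤ B`, `κ z ∈ A`, `l (κ z) ∈ L` (`sup_nsmul`).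
`‖ε‖² = l²`. If `ε ≠ ± l` then `exists_norm_l` contradicts (*). So `κ = ± 1` and `A = B`. So the set is `{A}` (`Set.ncard_eq_one`).
-/

set_option autoImplicit false

namespace Pool.Agent.SS.HB

open Polynomial
open Pool.Agent.Work.CM
open scoped Pointwise

theorem odd_one {q l : ℕ} (hq : q.Prime) (hq4 : q % 4 = 3) (hq7 : 7 ≤ q) (hl : l.Prime)
    (hl2 : l ≠ 2) (hlq : l ≠ q) {L M : Submodule ℤ ℂ} (hL : IsLat L) (hM : IsLat M) (hsL : HasSq q L)
    (hsM : HasSq q M) (h0 : jL L ≠ 0) (h1 : jL L ≠ 1728) (hj : jL L ≠ jL M) {x : ℂ} (hx : x ≠ 0)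
    (h : Sup l (x • L) M) :
    {L' | Sup l L L' ∧ HasSq q L' ∧ (jL L' = jL L ∨ jL L' = jL M)}.ncard = 1 := by
  have hl0 : (0 : ℝ) < (l : ℝ) := by exact_mod_cast hl.pos
  have hxi : x⁻¹ ≠ 0 := inv_ne_zero hx
  set A : Submodule ℤ ℂ := x⁻¹ • M with hAdef
  have hA : Sup l L A := by
    have h2 := Sup_smul h hxi
    rwa [inv_smul_smul₀ hx L] at h2
  have hsA : HasSq q A := hasSq_iff.2 ((hasSq_iff.1 hsM).smul hxi)
  have hjA : jL A = jL M := jL_smul hM hxi
  have hstar : ∀ ν : ℂ, IsMul L ν → ‖ν‖ ^ 2 = l → False := by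
    intro ν hν hN
    have hν0 : ν ≠ 0 := by
      rintro rfl
      rw [norm_zero] at hN
      norm_num at hN
      exact hl.ne_zero (by exact_mod_cast hN.symm)
    have hν0' : starRingEnd ℂ ν ≠ 0 := by
      rwa [Ne, map_eq_zero]
    obtain ⟨hB, hB', hsB, hsB', hne⟩ := two_conj hq hl hlq hL hsL h0 h1 hν hN
    rcases stable_three hq hl hl2 hlq hsL hA hB hB' hsA hsB hsB' with h2 | h2 | h2
    · apply hj
      rw [← hjA, h2, jL_smul hL (inv_ne_zero hν0)]
    · apply hj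
      rw [← hjA, h2, jL_smul hL (inv_ne_zero hν0')]
    · exact hne h2
  rw [Set.ncard_eq_one]
  refine ⟨A, Set.eq_singleton_iff_unique_mem.2 ⟨⟨hA, hsA, Or.inr hjA⟩, ?_⟩⟩
  rintro B ⟨hB, hsB, hjB⟩
  rcases hjB with hjB | hjB
  · exfalso
    obtain ⟨c, hc, rfl⟩ := exists_smul_of_jL hL hB.lat' hjB.symm
    obtain ⟨h2, h3⟩ := psup' hc hB
    exact hstar _ h2 h3
  · obtain ⟨κ, hκ, hAB⟩ := exists_smul_of_jL hB.lat' hA.lat' (by rw [hjB, hjA])
    have hcB := cov_pos hB.lat'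
    have hcA : cov A = ‖κ‖ ^ 2 * cov B := by
      rw [hAB]
      exact cov_smul hB.lat' hκ
    have hc1 := cov_sup hA
    have hc2 := cov_sup hB
    have hκ1 : ‖κ‖ ^ 2 = 1 := by
      have h2 : (l : ℝ) * (‖κ‖ ^ 2 * cov B) = (l : ℝ) * cov B := by
        rw [← hcA, ← hc1, hc2]
      have h3 := mul_left_cancel₀ hl0.ne' h2
      have h4 : ‖κ‖ ^ 2 * cov B = 1 * cov B := by rw [h3, one_mul]
      exact mul_right_cancel₀ hcB.ne' h4
    have hε : IsMul L ((l : ℂ) * κ) := by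
      intro z hz
      have h2 : κ * z ∈ A := by
        rw [hAB]
        exact (mem_smul_iff hκ).2 (hB.le hz)
      rw [mul_assoc]
      exact sup_nsmul hA h2
    have hεN : ‖(l : ℂ) * κ‖ ^ 2 = (l : ℝ) ^ 2 := by
      rw [norm_mul, mul_pow, hκ1, mul_one, Complex.norm_natCast]
    have hlC : (l : ℂ) ≠ 0 := by exact_mod_cast hl.ne_zero
    by_cases e1 : (l : ℂ) * κ = l
    · have h2 : κ = 1 := by
        apply mul_left_cancel₀ hlC
        rw [e1, mul_one]
      rw [hAB, h2, one_smul]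
    by_cases e2 : (l : ℂ) * κ = -l
    · have h2 : κ = -1 := by
        apply mul_left_cancel₀ hlC
        rw [e2, mul_neg_one]
      rw [hAB, h2]
      ext z
      rw [mem_smul' (by norm_num)]
      have h3 : ((-1 : ℂ))⁻¹ * z = -z := by
        norm_num
      rw [h3, Submodule.neg_mem_iff]
    obtain ⟨ν, h2, h3⟩ := exists_norm_l hq hq4 hq7 hl hl2 hL hsL hε hεN e1 e2
    exact (hstar ν h2 h3).elim

end Pool.Agent.SS.HB
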