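import Mathlib
import Pool.Agent.Work.MP_a5099b_nt.H.HDefs
import Pool.Agent.Work.MP_a5099b_nt.SpecB
import Pool.Agent.Work.MP_a5099b_nt.A.Lat
import Pool.Agent.Work.MP_a5099b_nt.B.EndR
import Pool.Agent.Work.MP_a5099b_nt.H.PSup

/-!
# Module Simple (size M): a simple root of `Φ_q(X, X)` has multiplication by `√(-q)`

By `diag_mult` the set `{L' | Sup q L L' ∧ jL L' = jL L}` has exactly one element (`Set.ncard_eq_one`), say `L'`. By `exists_smul_of_jL` (A/Lat.lean)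
`L' = c • L`, and `μ = c⁻¹` is a multiplier with `‖μ‖ ^ 2 = q` (`psup'`). `conj μ` is a multiplier of the same norm (`conj_smul_le` in B/EndR.lean), so
`(conj μ)⁻¹ • L` is in the set too (`psup`, `jL_smul`): `(conj μ)⁻¹ • L = μ⁻¹ • L`, i.e. `ε • L = L` for `ε = μ / conj μ`
(`ε • L = μ • ((conj μ)⁻¹ • L) = μ • (μ⁻¹ • L) = L`). `unit_smul` (B/EndR.lean): `ε = 1`: `μ` is real, `real_mul_mem`: `μ = n`, `n ^ 2 = q`, impossible for a prime.
`ε = -1`: `μ` is purely imaginary and `‖μ‖ ^ 2 = q`: `μ = sq q` or `μ = - sq q` (`μ ^ 2 = - μ conj μ = -q = sq q ^ 2`). `IsMul.neg`.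
-/

set_option autoImplicit false

namespace Pool.Agent.SS.HB

open Polynomial
open Pool.Agent.Work.CM
open scoped Pointwise

theorem hasSq_of_simple {q : ℕ} (hq : q.Prime) {L : Submodule ℤ ℂ} (h : IsLat L) (h0 : jL L ≠ 0)
    (h1 : jL L ≠ 1728)
    (hm : ((PhiDiag q).map (Int.castRingHom ℂ)).rootMultiplicity (jL L) = 1) : HasSq q L := by
  rw [diag_mult hq h h0 h1, Set.ncard_eq_one] at hm
  obtain ⟨L0, hL0⟩ := hm
  have hmem : L0 ∈ {L' | Sup q L L' ∧ jL L' = jL L} := by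
    rw [hL0]
    exact Set.mem_singleton L0
  obtain ⟨hS, hj⟩ := hmem
  obtain ⟨c, hc, rfl⟩ := exists_smul_of_jL h hS.lat' hj.symm
  obtain ⟨hμ, hN⟩ := psup' hc hS
  obtain ⟨μ, rfl⟩ : ∃ μ : ℂ, c = μ⁻¹ := ⟨c⁻¹, (inv_inv c).symm⟩
  rw [inv_inv] at hμ hN
  have hμ0 : μ ≠ 0 := fun h2 => hc (by rw [h2, inv_zero])
  have hcμ : IsMul L (starRingEnd ℂ μ) := conj_smul_le h hμ
  have hcN : ‖starRingEnd ℂ μ‖ ^ 2 = q := by rw [Complex.norm_conj, hN]
  have hcμ0 : starRingEnd ℂ μ ≠ 0 := by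
    rw [Ne, map_eq_zero]
    exact hμ0
  have hS2 := psup h hq.pos hcμ hcN
  have hj2 : jL ((starRingEnd ℂ μ)⁻¹ • L) = jL L := jL_smul h (inv_ne_zero hcμ0)
  have hmem2 : (starRingEnd ℂ μ)⁻¹ • L ∈ {L' | Sup q L L' ∧ jL L' = jL L} := ⟨hS2, hj2⟩
  rw [hL0, Set.mem_singleton_iff] at hmem2
  have hε : (μ * (starRingEnd ℂ μ)⁻¹) • L = L := by
    rw [mul_smul, hmem2, smul_smul, mul_inv_cancel₀ hμ0, one_smul]
  have hμμ : μ * starRingEnd ℂ μ = q := by
    rw [Complex.mul_conj, ← Complex.sq_norm, hN]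
    simp
  rcases unit_smul h h0 h1 hε with h2 | h2
  · exfalso
    have h3 : starRingEnd ℂ μ = μ := by
      field_simp at h2
      exact h2.symm
    obtain ⟨r, hr⟩ := Complex.conj_eq_iff_real.mp h3
    subst hr
    obtain ⟨k, hk⟩ := real_mul_mem h hμ
    subst hk
    rw [Complex.norm_real, Real.norm_eq_abs, _root_.sq_abs] at hN
    have h4 : k ^ 2 = (q : ℤ) := by exact_mod_cast hN
    have h5 : k.natAbs * k.natAbs = q := by
      have : ((k.natAbs * k.natAbs : ℕ) : ℤ) = q := by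
        push_cast
        rw [← h4, abs_mul_abs_self]
        ring
      exact_mod_cast this
    exact hq.prime.not_isSquare ⟨k.natAbs, h5.symm⟩
  · have h3 : starRingEnd ℂ μ = -μ := by
      field_simp at h2
      exact (neg_eq_iff_eq_neg.mpr h2).symm
    have h4 : (μ - sq q) * (μ + sq q) = 0 := by
      rw [h3] at hμμ
      have h5 := sq_mul_self q
      linear_combination (-1 : ℂ) * hμμ - h5
    rcases mul_eq_zero.mp h4 with h5 | h5
    · have h6 : sq q = μ := by linear_combination -h5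
      change IsMul L (sq q)
      rw [h6]
      exact hμ
    · have h6 : sq q = -μ := by linear_combination h5
      change IsMul L (sq q)
      rw [h6]
      exact hμ.neg

end Pool.Agent.SS.HB
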