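import Mathlib
import Pool.Agent.Work.MP_a5099b_nt.H.HDefs

/-!
# Module Newton (size S-M): one step of Newton's method

`q` prime, `f ∈ ℤ[X]`, `y : ZMod q` a simple root of `f` mod `q`. Take an integer `n₀` with image `y`. `f(n₀) = q e`, `f'(n₀)` is prime to `q`.
`f(n₀ + q t) = f(n₀) + q t f'(n₀) mod q ^ 2` (`Polynomial.aeval_add_of_sq_eq_zero` / `Polynomial.evalAddPow`,
`Polynomial.binomExpansion`). Choose `t` with `e + t f'(n₀) = 0 mod q`.
-/

set_option autoImplicit false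

namespace Pool.Agent.SS.HB

open Polynomial
open Pool.Agent.Work.CM
open scoped Pointwise

theorem newton {q : ℕ} [Fact q.Prime] (f : ℤ[X]) (y : ZMod q)
    (h0 : aeval y f = 0) (h1 : aeval y (derivative f) ≠ 0) :
    ∃ n : ℤ, (n : ZMod q) = y ∧ (q : ℤ) ^ 2 ∣ f.eval n := by
  obtain ⟨n₀, rfl⟩ := ZMod.intCast_surjective y
  have hev : ∀ g : ℤ[X], aeval ((n₀ : ℤ) : ZMod q) g = ((g.eval n₀ : ℤ) : ZMod q) := by
    intro g
    have h2 := Polynomial.aeval_algebraMap_apply (ZMod q) n₀ g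
    rw [Polynomial.coe_aeval_eq_eval] at h2
    simpa using h2
  rw [hev, ZMod.intCast_zmod_eq_zero_iff_dvd] at h0
  rw [hev] at h1
  obtain ⟨e, he⟩ := h0
  obtain ⟨t, ht⟩ := ZMod.intCast_surjective (-(e : ZMod q) / (((derivative f).eval n₀ : ℤ) : ZMod q))
  have h3 : (q : ℤ) ∣ e + (derivative f).eval n₀ * t := by
    rw [← ZMod.intCast_zmod_eq_zero_iff_dvd]
    push_cast
    rw [ht, mul_div_cancel₀ _ h1]
    ring
  obtain ⟨r, hr⟩ := h3
  obtain ⟨k, hk⟩ := Polynomial.binomExpansion f n₀ ((q : ℤ) * t)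
  refine ⟨n₀ + (q : ℤ) * t, ?_, ?_⟩
  · push_cast
    simp
  · rw [hk, he]
    refine ⟨r + k * t ^ 2, ?_⟩
    linear_combination (q : ℤ) * hr

end Pool.Agent.SS.HB
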