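import Mathlib
import Pool.Agent.Work.MP_a5099b_nt.H.HDefs
import Pool.Agent.Work.MP_a5099b_nt.SpecB
import Pool.Agent.Work.MP_a5099b_nt.H.Newton
import Pool.Agent.Work.MP_a5099b_nt.H.Place
import Pool.Agent.Work.MP_a5099b_nt.H.CntRed

/-!
# Module DerZero (size M-L): the derivative of the minimal polynomial vanishes

Notation: `A = integralClosure ℤ ℂ`, `D = PhiDiag q`, `Y` the image of `y` in `k`; `ρ ∈ A` is a root of `D` with `red ρ = Y`, `f = minpoly ℤ ρ` (monic: `ρ` is integral). CLAIM: `f'(y) = 0` in `ZMod q`.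
Suppose not. `f(ρ) = 0` in `A`, so `f(Y) = 0` in `k`, hence `f(y) = 0` in `ZMod q` (`ZMod q → k` is injective). By `newton` there is an integer `n` with image `y` and `f(n) = q ^ 2 c`. The roots of `f`
over `ℂ`: `f = ∏ (X - C ρ_j)`, `ρ` is one of the `ρ_j`; `Y` is a simple root of `f` over `k` (`f'(Y) ≠ 0`), so by `count_redZ` `ρ` is the only one (with multiplicity) which reduces to `Y`.
So with `δ = n - ρ` and `u` = the product of the other `n - ρ_j` (an element of `A`): `δ u = f(n) = q ^ 2 c`, `red u ≠ 0`. Now `ρ = n - δ`, `ρ ^ q - ρ = (n ^ q - n) + δ w` with `w ∈ A`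
(`sub_dvd_pow_sub_pow`: `n - ρ` divides `n ^ q - ρ ^ q`) and `n ^ q - n = q e` (`ZMod.pow_card`), so
`u (ρ ^ q - ρ) = q (u e + q c w) = q s`. And `0 = D(ρ) = -(ρ ^ q - ρ) ^ 2 + q G(ρ, ρ)` (`PhiDiag_aeval` and `kron_at` in `A` or in `ℂ`; `G(ρ,ρ) = GGAt q ρ ρ ∈ A`), so `q u ^ 2 G = q ^ 2 s ^ 2`,
`u ^ 2 G = q s ^ 2` (`A` is a domain, `q ≠ 0` in `A`), and after reduction `red u ^ 2 * GGAt q Y Y = 0` (`GGAt_map`, `(q : k) = 0`): contradiction (`GGAt q Y Y` is the image of `GGAt q y y ≠ 0`).
-/

set_option autoImplicit false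

namespace Pool.Agent.SS.HB

open Polynomial
open Pool.Agent.Work.CM
open scoped Pointwise

private theorem exists_prod {k : Type} [Field k] (red : integralClosure ℤ ℂ →+* k) (Y : k) (n : ℤ)
    (hn : (n : k) = Y) (T : Multiset ℂ) (h1 : ∀ z ∈ T, z ∈ integralClosure ℤ ℂ)
    (h2 : ∀ z ∈ T, ¬ RedTo red z Y) :
    ∃ u : integralClosure ℤ ℂ, (u : ℂ) = (T.map fun z => (n : ℂ) - z).prod ∧ red u ≠ 0 := by
  induction T using Multiset.induction with
  | empty => exact ⟨1, by simp, by simp⟩
  | cons a T ih =>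
    obtain ⟨u, hu, hu'⟩ := ih (fun z hz => h1 z (Multiset.mem_cons_of_mem hz))
      (fun z hz => h2 z (Multiset.mem_cons_of_mem hz))
    have ha := h1 a (Multiset.mem_cons_self a T)
    have ha' := h2 a (Multiset.mem_cons_self a T)
    refine ⟨((n : integralClosure ℤ ℂ) - ⟨a, ha⟩) * u, ?_, ?_⟩
    · rw [Multiset.map_cons, Multiset.prod_cons, ← hu]
      push_cast
      rfl
    · rw [map_mul]
      refine mul_ne_zero ?_ hu'
      rw [map_sub, map_intCast, hn, sub_ne_zero]
      intro h
      exact ha' ⟨ha, h.symm⟩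

theorem der_zero {q : ℕ} [Fact q.Prime] (y : ZMod q) (hG : GGAt q y y ≠ 0) {k : Type} [Field k]
    [CharP k q] (red : integralClosure ℤ ℂ →+* k) {ρ : ℂ} (hD : aeval ρ (PhiDiag q) = 0)
    (hρ : RedTo red ρ (ZMod.castHom (dvd_refl q) k y)) :
    aeval y (derivative (minpoly ℤ ρ)) = 0 := by
  classical
  obtain ⟨hmem, hred⟩ := hρ
  set Y : k := ZMod.castHom (dvd_refl q) k y with hY
  have hq : q.Prime := Fact.out
  have hinj : Function.Injective (ZMod.castHom (dvd_refl q) k) := RingHom.injective _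
  set r : integralClosure ℤ ℂ := ⟨ρ, hmem⟩ with hr
  have hint : IsIntegral ℤ ρ := hmem
  set f : ℤ[X] := minpoly ℤ ρ with hf
  have hmon : f.Monic := minpoly.monic hint
  have hval : Function.Injective (algebraMap (integralClosure ℤ ℂ) ℂ) :=
    Subtype.val_injective
  by_contra hne
  -- `f` vanishes at `r`, `Y`, `y`
  have hfρ : eval₂ (Int.castRingHom ℂ) ρ f = 0 := by
    have h := minpoly.aeval ℤ ρ
    rwa [aeval_def, algebraMap_int_eq] at h
  have hfr : eval₂ (Int.castRingHom (integralClosure ℤ ℂ)) r f = 0 := by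
    apply hval
    rw [map_zero, Polynomial.hom_eval₂,
      RingHom.ext_int ((algebraMap (integralClosure ℤ ℂ) ℂ).comp (Int.castRingHom _))
        (Int.castRingHom ℂ)]
    exact hfρ
  have hfY : eval₂ (Int.castRingHom k) Y f = 0 := by
    have h := congrArg red hfr
    rwa [map_zero, Polynomial.hom_eval₂, hred,
      RingHom.ext_int (red.comp (Int.castRingHom _)) (Int.castRingHom k)] at h
  have hcomp : ∀ g : ℤ[X], ZMod.castHom (dvd_refl q) k (aeval y g) =
      eval₂ (Int.castRingHom k) Y g := by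
    intro g
    rw [aeval_def, Polynomial.hom_eval₂]
    congr 1
    exact RingHom.ext_int _ _
  have hfy : aeval y f = 0 := by
    apply hinj
    rw [hcomp, hfY, map_zero]
  obtain ⟨n, hn, c, hc⟩ := newton f y hfy hne
  have hnY : (n : k) = Y := by
    rw [hY, ← hn, map_intCast]
  -- the roots
  set S : Multiset ℂ := (f.map (Int.castRingHom ℂ)).roots with hS
  have hmonC : (f.map (Int.castRingHom ℂ)).Monic := hmon.map _
  have hρS : ρ ∈ S := by
    rw [hS, mem_roots hmonC.ne_zero, IsRoot, eval_map]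
    exact hfρ
  obtain ⟨T, hT⟩ := Multiset.exists_cons_of_mem hρS
  have hprod : f.map (Int.castRingHom ℂ) = (S.map fun a => X - C a).prod :=
    (IsAlgClosed.splits _).eq_prod_roots_of_monic hmonC
  have hSint : ∀ z ∈ S, z ∈ integralClosure ℤ ℂ := by
    intro z hz
    rw [hS, mem_roots hmonC.ne_zero, IsRoot, eval_map] at hz
    exact ⟨f, hmon, hz⟩
  have hmonk : (f.map (Int.castRingHom k)).Monic := hmon.map _
  have hcard : (S.filter fun z => RedTo red z Y).card ≤ 1 := by
    have h := count_redZ red hmon Y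
    have h2 : (f.map (Int.castRingHom k)).rootMultiplicity Y ≤ 1 := by
      by_contra hlt
      push Not at hlt
      have h3 := (Polynomial.one_lt_rootMultiplicity_iff_isRoot hmonk.ne_zero).1 hlt
      have h4 := h3.2
      rw [derivative_map, IsRoot, eval_map, ← hcomp] at h4
      exact hne (hinj (by rw [h4, map_zero]))
    rw [h] at h2
    convert h2 using 2
  have hTno : ∀ z ∈ T, ¬ RedTo red z Y := by
    intro z hz hzr
    rw [hT, Multiset.filter_cons_of_pos _ ⟨hmem, hred⟩, Multiset.card_cons] at hcard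
    have h0 : (T.filter fun z => RedTo red z Y).card = 0 := by omega
    rw [Multiset.card_eq_zero] at h0
    have : z ∈ T.filter fun z => RedTo red z Y := Multiset.mem_filter.2 ⟨hz, hzr⟩
    rw [h0] at this
    exact Multiset.notMem_zero z this
  obtain ⟨u, hu, hu0⟩ := exists_prod red Y n hnY T
    (fun z hz => hSint z (by rw [hT]; exact Multiset.mem_cons_of_mem hz)) hTno
  have hδu : ((n : integralClosure ℤ ℂ) - r) * u = (q : integralClosure ℤ ℂ) ^ 2 * (c : ℤ) := by
    apply hval
    have h1 : (f.map (Int.castRingHom ℂ)).eval (n : ℂ) = ((f.eval n : ℤ) : ℂ) := by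
      rw [eval_map]
      exact Polynomial.eval₂_at_intCast (Int.castRingHom ℂ) n
    rw [hprod, hT, Multiset.map_cons, Multiset.prod_cons, eval_mul, eval_sub, eval_X, eval_C,
      eval_multiset_prod, Multiset.map_map] at h1
    have h2 : (T.map ((fun p => eval (n : ℂ) p) ∘ fun a => X - C a)) =
        T.map fun z => (n : ℂ) - z := by
      apply Multiset.map_congr rfl
      intro z _
      simp
    have h3 : (T.map (eval (n : ℂ) ∘ fun a => X - C a)) =
        T.map fun z => (n : ℂ) - z := h2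
    rw [h3, ← hu, hc] at h1
    rw [map_mul, map_sub, map_mul, map_pow, map_intCast, map_intCast, map_natCast]
    push_cast at h1
    exact h1
  obtain ⟨w, hw⟩ := sub_dvd_pow_sub_pow (n : integralClosure ℤ ℂ) r q
  obtain ⟨e, he⟩ : (q : ℤ) ∣ n ^ q - n := by
    rw [← ZMod.intCast_zmod_eq_zero_iff_dvd]
    push_cast
    rw [ZMod.pow_card, sub_self]
  have he' : (n : integralClosure ℤ ℂ) ^ q - n = q * e := by
    have h := congrArg (fun t : ℤ => (t : integralClosure ℤ ℂ)) he
    push_cast at h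
    exact h
  have hs : u * (r ^ q - r) = q * (u * e + q * c * (1 - w)) := by
    linear_combination (-1 : integralClosure ℤ ℂ) * u * hw + u * he' + (1 - w) * hδu
  have hDr : (PhiAt q r).eval r = 0 := by
    rw [← PhiDiag_aeval]
    apply hval
    rw [map_zero, ← hD, aeval_def, Polynomial.hom_eval₂, aeval_def]
    congr 1
  rw [kron_at hq] at hDr
  set G := GGAt q r r with hGdef
  have hq0 : (q : integralClosure ℤ ℂ) ≠ 0 := by
    exact_mod_cast hq.ne_zero
  have hfin : u ^ 2 * G = q * (u * e + q * c * (1 - w)) ^ 2 := by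
    apply mul_left_cancel₀ hq0
    linear_combination (u * (r ^ q - r) + q * (u * e + q * c * (1 - w))) * hs + u ^ 2 * hDr
  have hfin2 := congrArg red hfin
  rw [map_mul, map_mul, map_pow, map_natCast, CharP.cast_eq_zero, zero_mul, hGdef, GGAt_map, hred]
    at hfin2
  rcases mul_eq_zero.1 hfin2 with h | h
  · exact hu0 (pow_eq_zero_iff (by norm_num) |>.1 h)
  · rw [hY, ← GGAt_map] at h
    exact hG (hinj (by rw [h, map_zero]))

end Pool.Agent.SS.HB
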