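import Mathlib
import Pool.Agent.Work.MP_a5099b_nt.H.HDefs
import Pool.Agent.Work.MP_a5099b_nt.SpecB
import Pool.Agent.Work.MP_a5099b_nt.H.CntRed
import Pool.Agent.Work.MP_a5099b_nt.H.DerZero

/-!
# Module TwoRoots (size M): the two roots of `Φ_q(X, X)` above a regular point

Notation: `D = PhiDiag q`, `Y` the image of `y` in `k`. `-D` is monic of degree `2 q` (`PhiDiag_natDegree`, `PhiDiag_leadingCoeff`).

(1) Over `k`: `D(x) = Φ_q(x, x) = (x ^ q - x)(x - x ^ q) + q (..)`: as a polynomial `D = -(X ^ q - X) ^ 2` over `k` (use `kron_at` in the ring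
`k[X]` with `x = y = X`, and `PhiDiag_aeval`; `q = 0` in `k[X]`). `X ^ q - X` is separable over `k` (derivative `-1`) with root `Y` (as `y`
comes from `ZMod q`), so the multiplicity of `Y` in `D` over `k` is exactly `2`: by `count_redZ` for `-D` exactly two (with multiplicity) of the complex roots of `D` reduce to `Y`.

(2) Let `ρ` be one of them, `f = minpoly ℤ ρ` (monic; over `ℚ` it is the minimal polynomial of `ρ`: `minpoly.isIntegrallyClosed_eq_field_fractions'`; it divides `D` over `ℤ`:
`minpoly.isIntegrallyClosed_dvd`). `f(Y) = 0` and `f'(Y) = 0` (`der_zero`), so the multiplicity of `Y` in `f` over `k` is at least `2` (`Polynomial.one_lt_rootMultiplicity_iff_isRoot`), and by `count_redZ`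
at least two roots of `f` reduce to `Y`. The roots of `f` in `ℂ` are distinct (`f` is irreducible over `ℚ`, so separable: `Polynomial.nodup_roots`), and `f.roots ≤ D.roots` over `ℂ`
(`Polynomial.roots.le_of_dvd`). So the filtered multiset of the roots of `D` which reduce to `Y` (it has two elements) is equal to the filtered multiset of the roots of `f`: `{a, a'}` with `a ≠ a'`
(`Multiset.card_eq_two`, `Multiset.eq_of_le_of_card_le`). Everything follows; `minpoly ℚ a = minpoly ℚ a'`: both are the image of `f` (`minpoly.eq_of_irreducible_of_monic`).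
-/

set_option autoImplicit false

namespace Pool.Agent.SS.HB

open Polynomial
open Pool.Agent.Work.CM
open scoped Pointwise

theorem two_roots {q : ℕ} [Fact q.Prime] (y : ZMod q) (hG : GGAt q y y ≠ 0) {k : Type} [Field k]
    [CharP k q] (red : integralClosure ℤ ℂ →+* k) :
    ∃ a a' : ℂ, a ≠ a' ∧ RedTo red a (ZMod.castHom (dvd_refl q) k y) ∧
      RedTo red a' (ZMod.castHom (dvd_refl q) k y) ∧
      aeval a (PhiDiag q) = 0 ∧ aeval a' (PhiDiag q) = 0 ∧
      ((PhiDiag q).map (Int.castRingHom ℂ)).rootMultiplicity a = 1 ∧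
      minpoly ℚ a = minpoly ℚ a' ∧
      ∀ z : ℂ, aeval z (PhiDiag q) = 0 → RedTo red z (ZMod.castHom (dvd_refl q) k y) →
        z = a ∨ z = a' := by
  classical
  have hq : q.Prime := Fact.out
  set Y : k := ZMod.castHom (dvd_refl q) k y with hY
  have hYq : Y ^ q = Y := by rw [hY, ← map_pow, ZMod.pow_card]
  -- the diagonal polynomial over `k`
  have hDk : (-PhiDiag q).map (Int.castRingHom k) = (X ^ q - X) ^ 2 := by
    have h1 : (PhiDiag q).map (Int.castRingHom k) = (PhiAt q (X : k[X])).eval X := by
      rw [← PhiDiag_aeval, aeval_def, Polynomial.map]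
      congr 1
    rw [Polynomial.map_neg, h1, kron_at hq]
    have h2 : (q : k[X]) = 0 := by
      rw [← map_natCast (C : k →+* k[X]), CharP.cast_eq_zero, map_zero]
    rw [h2]
    ring
  have hmon : (-PhiDiag q).Monic := by
    rw [Monic, leadingCoeff_neg, PhiDiag_leadingCoeff hq, neg_neg]
  have hsep : (X ^ q - X : k[X]).Separable := galois_poly_separable q q (dvd_refl q)
  have hm1 : (X ^ q - X : k[X]).roots.count Y = 1 := by
    apply Multiset.count_eq_one_of_mem (nodup_roots hsep)
    rw [mem_roots hsep.ne_zero]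
    simp [IsRoot, hYq]
  have hm2 : ((-PhiDiag q).map (Int.castRingHom k)).rootMultiplicity Y = 2 := by
    rw [hDk, ← count_roots, roots_pow, Multiset.count_nsmul, hm1]
  rw [count_redZ red hmon Y, Polynomial.map_neg, roots_neg] at hm2
  obtain ⟨a, a', haa⟩ := Multiset.card_eq_two.1 hm2
  have hD0 : (PhiDiag q).map (Int.castRingHom ℂ) ≠ 0 := by
    intro h0
    rw [h0] at hm2
    simp at hm2
  have hae : ∀ (z : ℂ) (f : ℤ[X]), aeval z f = (f.map (Int.castRingHom ℂ)).eval z := by
    intro z f
    rw [eval_map, aeval_def]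
    rfl
  have hmem : ∀ z : ℂ, z ∈ ({a, a'} : Multiset ℂ) ↔
      aeval z (PhiDiag q) = 0 ∧ RedTo red z Y := by
    intro z
    rw [← haa, Multiset.mem_filter, mem_roots hD0, IsRoot, hae]
  have ha := (hmem a).1 (by simp)
  have ha' := (hmem a').1 (by simp)
  obtain ⟨haint, hared⟩ := ha.2
  have hint : IsIntegral ℤ a := haint
  set f := minpoly ℤ a with hf
  have hfm : f.Monic := minpoly.monic hint
  have hfD : f ∣ -PhiDiag q := by
    apply minpoly.isIntegrallyClosed_dvd hint
    rw [map_neg, ha.1, neg_zero]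
  have hfk0 : f.map (Int.castRingHom k) ≠ 0 := (hfm.map _).ne_zero
  have hfroot : (f.map (Int.castRingHom k)).IsRoot Y := by
    have h1 : aeval (⟨a, haint⟩ : integralClosure ℤ ℂ) f = 0 := by
      have h2 : aeval a f = 0 := minpoly.aeval ℤ a
      have h3 : algebraMap (integralClosure ℤ ℂ) ℂ (aeval (⟨a, haint⟩ : integralClosure ℤ ℂ) f)
          = aeval a f := by
        rw [← aeval_algebraMap_apply]
        rfl
      rw [h2] at h3
      exact Subtype.ext h3
    have h4 := congrArg red h1
    rw [map_zero, aeval_def, hom_eval₂, hared] at h4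
    rw [IsRoot, eval_map]
    rw [← h4]
    congr 1
    exact RingHom.ext_int _ _
  have hfder : (derivative (f.map (Int.castRingHom k))).IsRoot Y := by
    have h1 := der_zero y hG red ha.1 ha.2
    have h2 := congrArg (ZMod.castHom (dvd_refl q) k) h1
    rw [map_zero, aeval_def, hom_eval₂] at h2
    rw [derivative_map, IsRoot, eval_map]
    rw [← h2]
    congr 1
    exact RingHom.ext_int _ _
  have hge := (one_lt_rootMultiplicity_iff_isRoot hfk0).2 ⟨hfroot, hfder⟩
  rw [count_redZ red hfm Y] at hge
  have hle : (f.map (Int.castRingHom ℂ)).roots ≤ ((PhiDiag q).map (Int.castRingHom ℂ)).roots := by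
    apply roots.le_of_dvd hD0
    have := map_dvd (mapRingHom (Int.castRingHom ℂ)) hfD
    rw [map_neg, dvd_neg] at this
    exact this
  have hle2 := Multiset.filter_le_filter (fun z => RedTo red z Y) hle
  have heq := Multiset.eq_of_le_of_card_le hle2 (by rw [hm2]; exact hge)
  rw [haa] at heq
  -- over the rationals
  have hfQ : minpoly ℚ a = f.map (algebraMap ℤ ℚ) :=
    minpoly.isIntegrallyClosed_eq_field_fractions' ℚ hint
  have hintQ : IsIntegral ℚ a := hint.tower_top
  have hirr : Irreducible (minpoly ℚ a) := minpoly.irreducible hintQ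
  have hfC : (f.map (Int.castRingHom ℂ)) = (minpoly ℚ a).map (algebraMap ℚ ℂ) := by
    rw [hfQ, Polynomial.map_map]
    congr 1
  have hnd : (f.map (Int.castRingHom ℂ)).roots.Nodup := by
    rw [hfC]
    exact nodup_roots hirr.separable.map
  have hnd2 : ({a, a'} : Multiset ℂ).Nodup := by
    rw [← heq]
    exact hnd.filter _
  have hne : a ≠ a' := by
    intro h
    rw [h] at hnd2
    simp at hnd2
  refine ⟨a, a', hne, ha.2, ha'.2, ha.1, ha'.1, ?_, ?_, ?_⟩
  · rw [← count_roots, ← Multiset.count_filter_of_pos (p := fun z => RedTo red z Y) ha.2, haa]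
    exact Multiset.count_eq_one_of_mem hnd2 (by simp)
  · apply minpoly.eq_of_irreducible_of_monic hirr _ (minpoly.monic hintQ)
    have h1 : a' ∈ (f.map (Int.castRingHom ℂ)).roots := by
      have h2 : a' ∈ ({a, a'} : Multiset ℂ) := by simp
      rw [← heq] at h2
      exact Multiset.mem_of_mem_filter h2
    rw [mem_roots (hfm.map _).ne_zero, IsRoot, hfC, eval_map, ← aeval_def] at h1
    exact h1
  · intro z hz hzr
    have := (hmem z).2 ⟨hz, hzr⟩
    simpa using this

end Pool.Agent.SS.HB
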