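import Mathlib
import Pool.Agent.Work.MP_a5099b_nt.H.HDefs
import Pool.Agent.Work.MP_a5099b_nt.SpecB
import Pool.Agent.Work.MP_a5099b_nt.SpecC
import Pool.Agent.Work.MP_a5099b_nt.SpecD
import Pool.Agent.Work.MP_a5099b_nt.SpecI
import Pool.Agent.Work.MP_a5099b_nt.H.Aut
import Pool.Agent.Work.MP_a5099b_nt.H.ConjJ
import Pool.Agent.Work.MP_a5099b_nt.H.Simple
import Pool.Agent.Work.MP_a5099b_nt.H.TwoRoots
import Pool.Agent.Work.MP_a5099b_nt.H.MultRed
import Pool.Agent.Work.MP_a5099b_nt.H.Parity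
import Pool.Agent.Work.MP_a5099b_nt.H.OddOne
import Pool.Agent.Work.MP_a5099b_nt.H.HomForm
import Pool.Agent.Work.MP_a5099b_nt.H.Local
import Pool.Agent.Work.MP_a5099b_nt.H.Jac
import Pool.Agent.Work.MP_a5099b_nt.H.Diag
import Pool.Agent.Work.CM.Eis

/-!
# Block H: the pair of lattices above a supersingular invariant (for block K) (helper44)

`PairAt q red y L M`: `L` and `M` are the two lattices (up to homothety) with multiplication by `√(-q)` whose invariants
are the two roots of `Φ_q(X, X)` which reduce to `y` at the place `red`; they are conjugate and have the same multipliers.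
* `exists_pairAt`: existence, for every place (`exists_place`) and every supersingular `y ≠ 0, 1728` in `ZMod q`.
* `PairAt.par`: the multiplicity of `y` in `Φ_l(y, Y)` is congruent modulo 2 to the number of the stable superlattices of index `l` of `L` with
  invariant `jL L` or `jL M`.
* `PairAt.form`: the degree form of the homomorphisms from `L` to `M`.
-/

set_option autoImplicit false

namespace Pool.Agent.SS.HB

open Polynomial
open Pool.Agent.Work.CM
open scoped Pointwise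

theorem red_ne_zero {q : ℕ} [Fact q.Prime] (y : ZMod q) (h0 : y ≠ 0) {k : Type} [Field k]
    [CharP k q] (red : integralClosure ℤ ℂ →+* k) {z : ℂ}
    (hz : RedTo red z (ZMod.castHom (dvd_refl q) k y)) : z ≠ 0 := by
  rintro rfl
  obtain ⟨hi, he⟩ := hz
  have e : (⟨0, hi⟩ : integralClosure ℤ ℂ) = 0 := rfl
  rw [e, map_zero] at he
  exact h0 ((map_eq_zero _).1 he.symm)

theorem red_ne_1728 {q : ℕ} [Fact q.Prime] (y : ZMod q) (h1 : y ≠ 1728) {k : Type}
    [Field k] [CharP k q] (red : integralClosure ℤ ℂ →+* k) {z : ℂ}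
    (hz : RedTo red z (ZMod.castHom (dvd_refl q) k y)) : z ≠ 1728 := by
  rintro rfl
  obtain ⟨hi, he⟩ := hz
  have e : (⟨1728, hi⟩ : integralClosure ℤ ℂ) = 1728 := by
    apply Subtype.ext
    rfl
  rw [e, map_ofNat] at he
  apply h1
  apply (ZMod.castHom (dvd_refl q) k).injective
  rw [map_ofNat]
  exact he.symm

/-- The pair of lattices above `y` at the place `red`. -/
structure PairAt (q : ℕ) [Fact q.Prime] {k : Type} [Field k] [CharP k q]
    (red : integralClosure ℤ ℂ →+* k) (y : ZMod q) (L M : Submodule ℤ ℂ) : Prop where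
  latL : IsLat L
  latM : IsLat M
  sqL : HasSq q L
  sqM : HasSq q M
  ne : jL L ≠ jL M
  j0 : jL L ≠ 0
  j1 : jL L ≠ 1728
  redL : RedTo red (jL L) (ZMod.castHom (dvd_refl q) k y)
  redM : RedTo red (jL M) (ZMod.castHom (dvd_refl q) k y)
  all : ∀ z : ℂ, aeval z (PhiDiag q) = 0 → RedTo red z (ZMod.castHom (dvd_refl q) k y) →
    z = jL L ∨ z = jL M
  mul : ∀ μ, IsMul M μ ↔ IsMul L μ

theorem exists_pairAt {q : ℕ} [Fact q.Prime] (h5 : 5 ≤ q) {k : Type} [Field k] [CharP k q]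
    (red : integralClosure ℤ ℂ →+* k) (y : ZMod q) (hy : SSj q y) (h0 : y ≠ 0) (h1 : y ≠ 1728) :
    ∃ L M : Submodule ℤ ℂ, PairAt q red y L M := by
  have hq : q.Prime := Fact.out
  have hG : GGAt q y y ≠ 0 := by
    have h := (regular hq h5 y hy h0 h1).2
    rwa [ZMod.pow_card] at h
  obtain ⟨a, a', hne, hra, hra', hda, hda', hmult, hmin, hall⟩ := two_roots y hG red
  obtain ⟨τ, hτ⟩ := exists_jL a
  have hL : IsLat (tauLat τ) := tauLat_isLat τ
  have ha0 : jL (tauLat τ) ≠ 0 := by rw [hτ]; exact red_ne_zero y h0 red hra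
  have ha1 : jL (tauLat τ) ≠ 1728 := by rw [hτ]; exact red_ne_1728 y h1 red hra
  have hsL : HasSq q (tauLat τ) := hasSq_of_simple hq hL ha0 ha1 (by rw [hτ]; exact hmult)
  have halg : IsAlgebraic ℚ a := by
    obtain ⟨hi, _⟩ := hra
    have h2 : IsIntegral ℤ a := hi
    have h3 : IsIntegral ℚ a := h2.tower_top
    exact h3.isAlgebraic
  obtain ⟨σ, hσ⟩ := exists_aut halg hmin
  obtain ⟨hM, hjM⟩ := jL_conj σ hL
  rw [hτ, hσ] at hjM
  have hsM : HasSq q (conj σ (tauLat τ)) := conj_hasSq σ hL hsL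
  refine ⟨tauLat τ, conj σ (tauLat τ), hL, hM, hsL, hsM, ?_, ha0, ha1, ?_, ?_, ?_,
    conj_isMul_iff σ hq hL hsL⟩
  · rw [hτ, hjM]; exact hne
  · rw [hτ]; exact hra
  · rw [hjM]; exact hra'
  · intro z hz hz'
    rw [hτ, hjM]
    exact hall z hz hz'

theorem PairAt.par {q : ℕ} [Fact q.Prime] {k : Type} [Field k] [CharP k q]
    {red : integralClosure ℤ ℂ →+* k} {y : ZMod q} {L M : Submodule ℤ ℂ}
    (P : PairAt q red y L M) {l : ℕ} (hl : l.Prime) (hlq : l ≠ q) :
    (PhiAt l y).rootMultiplicity y ≡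
      {L' | Sup l L L' ∧ HasSq q L' ∧ (jL L' = jL L ∨ jL L' = jL M)}.ncard [MOD 2] := by
  have hq : q.Prime := Fact.out
  rw [mult_red hl red y P.latL P.redL]
  have h2 := parity_red hl hlq red y P.latL P.sqL P.redL
  have h3 : {L' | Sup l L L' ∧ HasSq q L' ∧ RedTo red (jL L') (ZMod.castHom (dvd_refl q) k y)} =
      {L' | Sup l L L' ∧ HasSq q L' ∧ (jL L' = jL L ∨ jL L' = jL M)} := by
    ext L'
    constructor
    · rintro ⟨a, b, c⟩
      exact ⟨a, b, P.all _ (diag_of_hasSq hq a.lat' b) c⟩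
    · rintro ⟨a, b, c⟩
      refine ⟨a, b, ?_⟩
      rcases c with c | c
      · rw [c]; exact P.redL
      · rw [c]; exact P.redM
  rw [h3] at h2
  exact h2

theorem PairAt.form {q : ℕ} [Fact q.Prime] (hq4 : q % 4 = 3) {k : Type} [Field k] [CharP k q]
    {red : integralClosure ℤ ℂ →+* k} {y : ZMod q} {L M : Submodule ℤ ℂ}
    (P : PairAt q red y L M) :
    ∃ a b c : ℤ, 0 < a ∧ b ^ 2 - 4 * a * c = -4 * q ∧ Int.gcd (Int.gcd a b) c = 1 ∧
      ∀ (u v : ℤ) (n : ℕ), 0 < n → (n : ℤ) = a * u ^ 2 + b * u * v + c * v ^ 2 →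
        ∃ x : ℂ, x ≠ 0 ∧ Sup n (x • L) M :=
  hom_form Fact.out hq4 P.latL P.latM P.sqL P.mul

end Pool.Agent.SS.HB
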