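import Mathlib
import Pool.Agent.Work.MP_a5099b_nt.H.HDefs
import Pool.Agent.Work.MP_a5099b_nt.SpecB
import Pool.Agent.Work.MP_a5099b_nt.SpecC
import Pool.Agent.Work.MP_a5099b_nt.SpecD
import Pool.Agent.Work.MP_a5099b_nt.SpecI
import Pool.Agent.Work.MP_a5099b_nt.H.Aut
import Pool.Agent.Work.MP_a5099b_nt.H.ConjJ
import Pool.Agent.Work.MP_a5099b_nt.H.Simple
import Pool.Agent.Work.MP_a5099b_nt.H.TwoRoots
import Pool.Agent.Work.MP_a5099b_nt.H.MultRed
import Pool.Agent.Work.MP_a5099b_nt.H.Parity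
import Pool.Agent.Work.MP_a5099b_nt.H.OddOne
import Pool.Agent.Work.MP_a5099b_nt.H.HomForm
import Pool.Agent.Work.MP_a5099b_nt.H.Local
import Pool.Agent.Work.MP_a5099b_nt.H.Jac
import Pool.Agent.Work.MP_a5099b_nt.H.Diag
import Pool.Agent.Work.CM.Eis
import Pool.Agent.Work.MP_a5099b_nt.H.Pair

/-!
# Module Main (helper44): assembly of block H

* `odd_mult`: `PairAt.par` and `odd_one`.
* `exists_prime_main`.
-/

set_option autoImplicit false

namespace Pool.Agent.SS.HB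

open Polynomial
open Pool.Agent.Work.CM
open scoped Pointwise

theorem odd_mult {q : ℕ} [Fact q.Prime] (hq4 : q % 4 = 3) (hq7 : 7 ≤ q) {k : Type} [Field k]
    [CharP k q] {red : integralClosure ℤ ℂ →+* k} {y : ZMod q} {L M : Submodule ℤ ℂ}
    (P : PairAt q red y L M) {l : ℕ} (hl : l.Prime) (hl2 : l ≠ 2) (hlq : l ≠ q) {x : ℂ}
    (hx : x ≠ 0) (h : Sup l (x • L) M) : Odd ((PhiAt l y).rootMultiplicity y) := by
  have h2 := P.par hl hlq
  rw [odd_one Fact.out hq4 hq7 hl hl2 hlq P.latL P.latM P.sqL P.sqM P.j0 P.j1 P.ne hx h] at h2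
  exact Nat.odd_iff.2 h2

theorem exists_prime_main {q : ℕ} [Fact q.Prime] (h7 : 7 ≤ q) (hq4 : q % 4 = 3) (y : ZMod q)
    (hy : SSj q y) (h0 : y ≠ 0) (h1 : y ≠ 1728) {m : ℕ} (hm : Odd m) (hm2 : Squarefree m)
    (hqm : ¬ q ∣ m) {r : ℕ} (hr : Nat.Coprime r (8 * m)) (B : ℕ) :
    ∃ l : ℕ, l.Prime ∧ B < l ∧ l ≡ r [MOD 8 * m] ∧ jacobiSym (-q) l = 1 ∧
      Odd ((PhiAt l y).rootMultiplicity y) := by
  have hq : q.Prime := Fact.out
  have hm0 : 0 < m := hm.pos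
  obtain ⟨k, _, _, ⟨red⟩⟩ := exists_place hq
  obtain ⟨L, M, P⟩ := exists_pairAt (by omega) red y hy h0 h1
  obtain ⟨A, B', C', hA, hd, hg, hform⟩ := P.form hq4
  have hrodd : Odd r := by
    have h2 : Nat.Coprime r 2 := Nat.Coprime.coprime_dvd_right (by
      exact Dvd.dvd.mul_right (by norm_num) m) hr
    exact Nat.coprime_two_right.1 h2
  obtain ⟨u0, v0, huv0⟩ := form_rep hq hq4 hd hg hm hm2 hqm (r := (r : ℤ))
    (by exact_mod_cast hrodd)
  have hcop : IsCoprime (A * u0 ^ 2 + B' * u0 * v0 + C' * v0 ^ 2) ((8 * m : ℕ) : ℤ) := by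
    have h2 : IsCoprime (r : ℤ) ((8 * m : ℕ) : ℤ) := Nat.isCoprime_iff_coprime.2 hr
    obtain ⟨t, ht⟩ := huv0.dvd
    have e : A * u0 ^ 2 + B' * u0 * v0 + C' * v0 ^ 2 = (r : ℤ) + ((8 * m : ℕ) : ℤ) * (-t) := by
      linear_combination -ht
    rw [e]
    exact IsCoprime.add_mul_left_left h2 (-t)
  obtain ⟨l, hl, hBl, hmod, u, v, huv⟩ := primes_form hq hq4 h7 A B' C' hA hd hg
    (N := 8 * m) (by omega) u0 v0 hcop (B + A.toNat + q + 2)
  have hlq : l ≠ q := by omega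
  have hl2 : l ≠ 2 := by omega
  have hAl : A < l := by omega
  obtain ⟨x, hx, hsup⟩ := hform u v l hl.pos huv
  exact ⟨l, hl, by omega, (Int.natCast_modEq_iff).1 (hmod.trans huv0),
    jac_one hq hl hA hd huv hAl (by omega) hl2, odd_mult hq4 h7 P hl hl2 hlq hx hsup⟩

end Pool.Agent.SS.HB
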