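import Mathlib
import Pool.Agent.Work.MP_a5099b_nt.H.HDefs
import Pool.Agent.Work.MP_a5099b_nt.B.SupF
import Pool.Agent.Work.MP_a5099b_nt.H.Cov
import Pool.Agent.Work.MP_a5099b_nt.H.Sand

/-!
# Module Invo (size M): the involution `L' ↦ L + √(-q) L'`

Write `s = sq q`, `s² = -q`. `Sup l L L'` with `l` prime, `l ≠ q`, `s L ⊆ L`.
* `q L' + L = L'` (`sup_q`): `l z ∈ L` for `z ∈ L'` (`sup_nsmul`); with integers `u q + v l = 1` (`Int.gcd_eq_gcd_ab`, `Nat.Coprime`)
  `z = u (q z) + v (l z)`.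
* `tau_tau`: `L + s (L + s L') = L + s L + q L' = L + q L' = L'`, elementwise with `mem_tau`.
* `tau_sup`: let `T = tau q L L' ≥ L`. `relIndex L T` divides `l`: `T = L ⊔ s • L'`, `relIndex L (L ⊔ K) = relIndex L K` (`AddSubgroup.relIndex_sup_right` or
  `_left`), `s • L ≤ L`, so `relIndex L (s • L')` divides `relIndex (s • L) (s • L') = l` (`AddSubgroup.relIndex_dvd_of_le_left`, and
  `Sup_smul`). So it is `1` or `l`; if it is `1` then `T ≤ L`, so `T = L` and `tau q L T = L + s L = L`, but `tau q L T = L'` and `L' ≠ L` as the index is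
  `l > 1`. `IsLat T` by `isLat_of_relIndex`.
* `tau_rel`: `s • L' ≤ T`. `cov T = cov L / l` (`tau_sup`, `cov_sup`), `cov L' = cov L / l`, `cov (s • L') = q cov L'`
  (`cov_smul`, `norm_sq`); `sup_of_cov`.
* `tau_eq_iff`: if `s L' ⊆ L'` then `T ≤ L'`, `sup_eq`. If `T = L'` then `s z ∈ T = L'` for `z ∈ L'`.
-/

set_option autoImplicit false

namespace Pool.Agent.SS.HB

open Polynomial
open Pool.Agent.Work.CM
open scoped Pointwise

private theorem mem_sup_q {q l : ℕ} (hq : q.Prime) (hl : l.Prime) (hlq : l ≠ q) {L L' : Submodule ℤ ℂ}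
    (h : Sup l L L') {z : ℂ} (hz : z ∈ L') : ∃ a ∈ L, ∃ b ∈ L', z = a + (q : ℂ) * b := by
  have hc : Nat.Coprime q l := (Nat.coprime_primes hq hl).2 (Ne.symm hlq)
  obtain ⟨u, v, huv⟩ : ∃ u v : ℤ, (q : ℤ) * u + (l : ℤ) * v = 1 := by
    refine ⟨Nat.gcdA q l, Nat.gcdB q l, ?_⟩
    have h1 := Nat.gcd_eq_gcd_ab q l
    rw [Nat.Coprime.gcd_eq_one hc] at h1
    rw [← h1]
    simp
  refine ⟨v • ((l : ℂ) * z), L.smul_mem v (sup_nsmul h hz), u • z, L'.smul_mem u hz, ?_⟩
  have h2 : (q : ℂ) * u + (l : ℂ) * v = 1 := by exact_mod_cast huv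
  rw [zsmul_eq_mul, zsmul_eq_mul]
  linear_combination -z * h2

theorem tau_tau {q l : ℕ} (hq : q.Prime) (hl : l.Prime) (hlq : l ≠ q) {L L' : Submodule ℤ ℂ}
    (hs : HasSq q L) (h : Sup l L L') : tau q L (tau q L L') = L' := by
  have hq0 := hq.pos
  have hss := sq_mul_self q
  ext z
  rw [mem_tau hq0]
  constructor
  · rintro ⟨a, ha, b, hb, rfl⟩
    obtain ⟨a', ha', b', hb', rfl⟩ := (mem_tau hq0).1 hb
    have e : a + sq q * (a' + sq q * b') = a + sq q * a' - (q : ℤ) • b' := by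
      rw [zsmul_eq_mul]
      push_cast
      linear_combination b' * hss
    rw [e]
    exact L'.sub_mem (L'.add_mem (h.le ha) (h.le (hs a' ha'))) (L'.smul_mem _ hb')
  · intro hz
    obtain ⟨a, ha, b, hb, rfl⟩ := mem_sup_q hq hl hlq h hz
    refine ⟨a, ha, 0 + sq q * (-b), (mem_tau hq0).2 ⟨0, L.zero_mem, -b, L'.neg_mem hb, rfl⟩, ?_⟩
    linear_combination b * hss

private theorem le_tau {q : ℕ} {L L' : Submodule ℤ ℂ} : L ≤ tau q L L' := le_sup_left

private theorem smul_le_self {q : ℕ} (hq : 0 < q) {L : Submodule ℤ ℂ} (hs : HasSq q L) :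
    sq q • L ≤ L := by
  intro z hz
  have h1 := (mem_smul' (sq_ne_zero hq)).1 hz
  have h2 := hs _ h1
  have e : sq q * ((sq q)⁻¹ * z) = z := by
    have := sq_ne_zero hq
    field_simp
  rwa [e] at h2

private theorem idx_dvd {q l : ℕ} (hq : q.Prime) {L L' : Submodule ℤ ℂ}
    (hs : HasSq q L) (h : Sup l L L') :
    L.toAddSubgroup.relIndex (tau q L L').toAddSubgroup ∣ l := by
  have h1 : (tau q L L').toAddSubgroup = L.toAddSubgroup ⊔ (sq q • L').toAddSubgroup := by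
    rw [tau, Submodule.sup_toAddSubgroup]
  rw [h1, AddSubgroup.relIndex_sup_left]
  have h2 := (Sup_smul h (sq_ne_zero hq.pos)).idx
  have h3 : (sq q • L).toAddSubgroup ≤ L.toAddSubgroup := smul_le_self hq.pos hs
  have h4 := AddSubgroup.relIndex_dvd_of_le_left (sq q • L').toAddSubgroup h3
  rwa [h2] at h4

theorem tau_sup {q l : ℕ} (hq : q.Prime) (hl : l.Prime) (hlq : l ≠ q) {L L' : Submodule ℤ ℂ}
    (hs : HasSq q L) (h : Sup l L L') : Sup l L (tau q L L') := by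
  have hd := idx_dvd hq hs h
  have hne : L.toAddSubgroup.relIndex (tau q L L').toAddSubgroup ≠ 1 := by
    intro h1
    have h2 : (tau q L L').toAddSubgroup ≤ L.toAddSubgroup := AddSubgroup.relIndex_eq_one.1 h1
    have h3 : tau q L L' = L := le_antisymm h2 le_tau
    have h4 := tau_tau hq hl hlq hs h
    rw [h3] at h4
    have h5 : L' ≤ L := by
      rw [← h4]
      exact sup_le le_rfl (smul_le_self hq.pos hs)
    have h6 : L.toAddSubgroup.relIndex L'.toAddSubgroup = 1 := AddSubgroup.relIndex_eq_one.2 h5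
    rw [h.idx] at h6
    exact hl.one_lt.ne' h6
  have he : L.toAddSubgroup.relIndex (tau q L L').toAddSubgroup = l :=
    ((Nat.dvd_prime hl).1 hd).resolve_left hne
  refine ⟨h.lat, isLat_of_relIndex h.lat le_tau ?_, le_tau, he⟩
  rw [he]
  exact hl.ne_zero

theorem tau_rel {q l : ℕ} (hq : q.Prime) (hl : l.Prime) (hlq : l ≠ q) {L L' : Submodule ℤ ℂ}
    (hs : HasSq q L) (h : Sup l L L') : Sup q (sq q • L') (tau q L L') := by
  have hT := tau_sup hq hl hlq hs h
  refine sup_of_cov (h.lat'.smul (sq_ne_zero hq.pos)) hT.lat' le_sup_right ?_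
  have h1 := cov_sup h
  have h2 := cov_sup hT
  have h3 := cov_smul h.lat' (sq_ne_zero hq.pos)
  rw [norm_sq] at h3
  rw [h3]
  have h4 : (l : ℝ) ≠ 0 := Nat.cast_ne_zero.2 hl.ne_zero
  have h5 : cov L' = cov (tau q L L') := by
    apply mul_left_cancel₀ h4
    rw [← h1, ← h2]
  rw [h5]

theorem tau_eq_iff {q l : ℕ} (hq : q.Prime) (hl : l.Prime) (hlq : l ≠ q) {L L' : Submodule ℤ ℂ}
    (hs : HasSq q L) (h : Sup l L L') : tau q L L' = L' ↔ HasSq q L' := by
  constructor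
  · intro h1 z hz
    rw [← h1]
    refine (mem_tau hq.pos).2 ⟨0, L.zero_mem, z, hz, ?_⟩
    rw [zero_add]
  · intro h1
    refine sup_eq hl.pos (tau_sup hq hl hlq hs h) h ?_
    intro z hz
    obtain ⟨a, ha, b, hb, rfl⟩ := (mem_tau hq.pos).1 hz
    exact L'.add_mem (h.le ha) (h1 b hb)

end Pool.Agent.SS.HB
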