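import Mathlib
import Pool.Agent.Work.MP_a5099b_nt.H.HDefs
import Pool.Agent.Work.MP_a5099b_nt.SpecB
import Pool.Agent.Work.MP_a5099b_nt.B.SupF
import Pool.Agent.Work.MP_a5099b_nt.B.PhiX
import Pool.Agent.Work.MP_a5099b_nt.H.Invo
import Pool.Agent.Work.MP_a5099b_nt.H.Diag
import Pool.Agent.Work.MP_a5099b_nt.H.MultRed

/-!
# Module Parity (size M): only the superlattices with multiplication by `√(-q)` count modulo 2

Write `Y` for the image of `y` in `k`; `Y ^ q = Y` (`ZMod.pow_card`), `(q : k) = 0`.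
(1) If `Sup l L L'`, `RedTo red (jL L') Y` and `T = tau q L L'` then `RedTo red (jL T) Y`: `jL T` is integral (`sup_mem` with `tau_sup`);
`(PhiAt q (jL L')).eval (jL T) = 0` (`tau_rel`, `phi_of_sup`); this holds in `A = integralClosure ℤ ℂ` too (`PhiAt_map`, injectivity), and applying
`red`: `(PhiAt q Y).eval x = 0` with `x = red (jL T)`; `kron_at`: `(Y ^ q - x) * (Y - x ^ q) = 0`, i.e. `x = Y` or `x ^ q = Y = Y ^ q`, and then `x = Y` as well
(`(x - Y) ^ q = x ^ q - Y ^ q`, Frobenius is injective).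
(2) So `tau q L` is an involution of the finite set `S = {L' | Sup l L L' ∧ RedTo red (jL L') Y}` (`tau_sup`, `tau_tau`) whose fixed points are the `L'` with `HasSq q L'`
(`tau_eq_iff`). The number of the other elements is even (`Finset.sum_involution` in `ZMod 2` with the constant function `1`).
-/

set_option autoImplicit false

namespace Pool.Agent.SS.HB

open Polynomial
open Pool.Agent.Work.CM
open scoped Pointwise

private theorem tau_red {q l : ℕ} [Fact q.Prime] (hl : l.Prime) (hlq : l ≠ q) {k : Type} [Field k]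
    [CharP k q] (red : integralClosure ℤ ℂ →+* k) (y : ZMod q) {L : Submodule ℤ ℂ}
    (hs : HasSq q L) (hy : RedTo red (jL L) (ZMod.castHom (dvd_refl q) k y))
    {L' : Submodule ℤ ℂ} (h : Sup l L L')
    (hy' : RedTo red (jL L') (ZMod.castHom (dvd_refl q) k y)) :
    RedTo red (jL (tau q L L')) (ZMod.castHom (dvd_refl q) k y) := by
  have hq : q.Prime := Fact.out
  set Y := ZMod.castHom (dvd_refl q) k y with hY
  set T := tau q L L' with hTdef
  obtain ⟨hint, _⟩ := hy
  have hT : Sup l L T := tau_sup hq hl hlq hs h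
  have hTint : jL T ∈ integralClosure ℤ ℂ := sup_mem hl hT hint
  obtain ⟨hint', hred'⟩ := hy'
  refine ⟨hTint, ?_⟩
  have h1 : (PhiAt q (jL L')).eval (jL T) = 0 :=
    phi_of_sup hq h.lat' (sq_ne_zero hq.pos) (tau_rel hq hl hlq hs h)
  set a : integralClosure ℤ ℂ := ⟨jL L', hint'⟩ with ha
  set b : integralClosure ℤ ℂ := ⟨jL T, hTint⟩ with hb
  have h2 : (PhiAt q a).eval b = 0 := by
    have hinj : Function.Injective (algebraMap (integralClosure ℤ ℂ) ℂ) :=
      Subtype.val_injective
    apply hinj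
    rw [map_zero, ← Polynomial.eval_map_apply, PhiAt_map]
    exact h1
  have h3 : (PhiAt q Y).eval (red b) = 0 := by
    have e : red ((PhiAt q a).eval b) = 0 := by rw [h2, map_zero]
    rw [← Polynomial.eval_map_apply, PhiAt_map, hred'] at e
    exact e
  rw [kron_at hq, CharP.cast_eq_zero k q, zero_mul, add_zero] at h3
  have hYq : Y ^ q = Y := by
    rw [hY, ← map_pow, ZMod.pow_card]
  rw [hYq] at h3
  rcases mul_eq_zero.1 h3 with h4 | h4
  · exact (sub_eq_zero.1 h4).symm
  · have h5 : red b ^ q = Y ^ q := by rw [hYq]; exact (sub_eq_zero.1 h4).symm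
    have h6 : (red b - Y) ^ q = 0 := by
      rw [sub_pow_char, h5, sub_self]
    exact sub_eq_zero.1 (pow_eq_zero_iff hq.ne_zero |>.1 h6)

theorem parity_red {q l : ℕ} [Fact q.Prime] (hl : l.Prime) (hlq : l ≠ q) {k : Type} [Field k]
    [CharP k q] (red : integralClosure ℤ ℂ →+* k) (y : ZMod q) {L : Submodule ℤ ℂ} (hL : IsLat L)
    (hs : HasSq q L) (hy : RedTo red (jL L) (ZMod.castHom (dvd_refl q) k y)) :
    {L' | Sup l L L' ∧ RedTo red (jL L') (ZMod.castHom (dvd_refl q) k y)}.ncard ≡
      {L' | Sup l L L' ∧ HasSq q L' ∧ RedTo red (jL L') (ZMod.castHom (dvd_refl q) k y)}.ncard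
        [MOD 2] := by
  classical
  have hq : q.Prime := Fact.out
  set Y := ZMod.castHom (dvd_refl q) k y with hY
  have e1 : {L' | Sup l L L' ∧ RedTo red (jL L') Y} =
      (((supF l L).filter fun L' => RedTo red (jL L') Y : Finset _) : Set _) := by
    ext L'
    rw [Finset.coe_filter, Set.mem_ofPred_eq, Set.mem_ofPred_eq, mem_supF hl hL]
  have e2 : {L' | Sup l L L' ∧ HasSq q L' ∧ RedTo red (jL L') Y} =
      ((((supF l L).filter fun L' => RedTo red (jL L') Y).filter fun L' => HasSq q L' :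
        Finset _) : Set _) := by
    ext L'
    rw [Finset.coe_filter, Set.mem_ofPred_eq, Set.mem_ofPred_eq, Finset.mem_filter,
      mem_supF hl hL]
    tauto
  rw [e1, e2, Set.ncard_coe_finset, Set.ncard_coe_finset]
  set S := (supF l L).filter fun L' => RedTo red (jL L') Y with hS
  have hSm : ∀ L', L' ∈ S ↔ Sup l L L' ∧ RedTo red (jL L') Y := by
    intro L'
    rw [hS, Finset.mem_filter, mem_supF hl hL]
  have h3 : ∑ L' ∈ S.filter (fun L' => ¬ HasSq q L'), (1 : ZMod 2) = 0 := by
    refine Finset.sum_involution (fun L' _ => tau q L L') ?_ ?_ ?_ ?_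
    · intro L' _
      decide
    · intro L' hL' _ he
      rw [Finset.mem_filter, hSm] at hL'
      exact hL'.2 ((tau_eq_iff hq hl hlq hs hL'.1.1).1 he)
    · intro L' hL'
      rw [Finset.mem_filter, hSm] at hL' ⊢
      have hT : Sup l L (tau q L L') := tau_sup hq hl hlq hs hL'.1.1
      refine ⟨⟨hT, tau_red hl hlq red y hs hy hL'.1.1 hL'.1.2⟩, ?_⟩
      intro hc
      have h5 := (tau_eq_iff hq hl hlq hs hT).2 hc
      rw [tau_tau hq hl hlq hs hL'.1.1] at h5
      rw [← h5] at hc
      exact hL'.2 hc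
    · intro L' hL'
      rw [Finset.mem_filter, hSm] at hL'
      exact tau_tau hq hl hlq hs hL'.1.1
  rw [Finset.sum_const, nsmul_one, ZMod.natCast_eq_zero_iff] at h3
  have h4 := Finset.card_filter_add_card_filter_not (s := S) (fun L' => HasSq q L')
  obtain ⟨c, hc⟩ := h3
  rw [← h4, hc]
  unfold Nat.ModEq
  omega

end Pool.Agent.SS.HB
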